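import Pool.Agent.SC15.Defs

/-!
# SC15, part A: basic definitions and transfer lemmas
-/

namespace SC15

open Finset Polynomial

/-- An integer lift of `r p j`. -/
def rt (p j : ℕ) : ℕ := (r p j).val

/-- `∑_{j<p} rt_j b^j` in any commutative ring. -/
def Rt {A : Type*} [CommRing A] (p : ℕ) (b : A) : A :=
  ∑ j ∈ range p, (rt p j : A) * b ^ j

/-- The polynomial `c_n`. -/
noncomputable def cP (n : ℕ) : ℤ[X] := ∑ i ∈ range n, C ((cc n i : ℕ) : ℤ) * X ^ i

/-- The shifted Legendre polynomial in `27 X`, with coefficients `(-27)^k C(N,k) C(N+k,N)`. -/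
noncomputable def Lp (N : ℕ) : ℤ[X] := (shiftedLegendre N).comp (C 27 * X)

/-- The integer polynomial `((X^p - c) - (X - c)^p) / p`. -/
noncomputable def hh (p : ℕ) (c : ℤ) : ℤ[X] :=
  C ((c ^ p - c) / p) - ∑ i ∈ Ico 1 p, C (((p.choose i / p : ℕ) : ℤ) * (-c) ^ (p - i)) * X ^ i

/-- The reduction of `hh p c` modulo `p`. -/
noncomputable def hk (p : ℕ) (c : ℤ) : (ZMod p)[X] := (hh p c).map (Int.castRingHom (ZMod p))

/-- The Fermat quotient `(n^(p-1) - 1) / p` modulo `p`. -/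
def fq (p n : ℕ) : ZMod p := (((n ^ (p - 1) - 1) / p : ℕ) : ZMod p)

/-- `β(t) = (t^3 - 3 t + 2) / 108`. -/
def bt {k : Type*} [Field k] (t : k) : k := (t ^ 3 - 3 * t + 2) / 108

/-- `β` as a polynomial over `F_p`. -/
noncomputable def btP (p : ℕ) [Fact p.Prime] : (ZMod p)[X] := C (108⁻¹) * (X ^ 3 - 3 * X + 2)

/-- `Q = P(β(t))` as a polynomial over `F_p`. -/
noncomputable def Q (p : ℕ) [Fact p.Prime] : (ZMod p)[X] := P p (btP p)

/-- `kapZ = (108^(p-1) B(t^p) - B(t)^p) / p` modulo `p`, `B = (t-1)^2 (t+2)` (an integer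
polynomial). -/
noncomputable def kapZ (p : ℕ) : ℤ[X] :=
  C ((((108 ^ (p - 1) - 1) / p : ℕ) : ℤ)) * ((X - 1) ^ (2 * p) * (X + 2) ^ p) +
    2 * hh p 1 * ((X - 1) ^ p * (X + 2) ^ p) + hh p (-2) * (X - 1) ^ (2 * p)

/-- The reduction of `kapZ` modulo `p`. -/
noncomputable def kap (p : ℕ) : (ZMod p)[X] := (kapZ p).map (Int.castRingHom (ZMod p))

/-- The expression `3 β^p R(β) - c^p kap(t) P(β)` with `β = c (t^3 - 3 t + 2)`. -/
noncomputable def gA {A : Type*} [CommRing A] (p : ℕ) (c t : A) : A :=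
  3 * (c * (t ^ 3 - 3 * t + 2)) ^ p * Rt p (c * (t ^ 3 - 3 * t + 2)) -
    c ^ p * aeval t (kapZ p) * P p (c * (t ^ 3 - 3 * t + 2))

/-- Twisted reversal: `tw m f (t) = t^m f(-2/t)`. -/
noncomputable def tw {A : Type*} [CommRing A] (m : ℕ) (f : A[X]) : A[X] :=
  ∑ j ∈ range (m + 1), C (f.coeff j * (-2) ^ j) * X ^ (m - j)

/-- `G = 3 B^p R(β) - kap Q`. -/
noncomputable def G (p : ℕ) [Fact p.Prime] : (ZMod p)[X] :=
  3 * ((X - 1) ^ (2 * p) * (X + 2) ^ p) * Rt p (btP p) - kap p * Q p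

section maps

variable {A B : Type*} [CommRing A] [CommRing B] (f : A →+* B)

lemma map_P (p : ℕ) (b : A) : f (P p b) = P p (f b) := by
  simp [P, map_sum]

lemma map_Rt (p : ℕ) (b : A) : f (Rt p b) = Rt p (f b) := by
  simp [Rt, map_sum]

lemma map_c (n : ℕ) (b : A) : f (c n b) = c n (f b) := by
  simp [c, map_sum]

lemma map_thc (n : ℕ) (b : A) : f (thc n b) = thc n (f b) := by
  simp [thc, map_sum]

lemma aeval_cP (n : ℕ) (b : A) : aeval b (cP n) = c n b := by
  simp [cP, c, map_sum]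

lemma aeval_thc (n : ℕ) (b : A) : b * aeval b (derivative (cP n)) = thc n b := by
  have h : derivative (cP n) = ∑ i ∈ range n, C ((cc n i : ℤ) * (i : ℤ)) * X ^ (i - 1) := by
    rw [cP, derivative_sum]
    exact sum_congr rfl (fun i _ => derivative_C_mul_X_pow _ _)
  rw [h, thc, map_sum, mul_sum]
  refine sum_congr rfl (fun i _ => ?_)
  rcases i with _ | i
  · simp
  · rw [map_mul, aeval_C, map_pow, aeval_X, Nat.add_sub_cancel, pow_succ]
    simp only [algebraMap_int_eq, eq_intCast, Int.cast_mul, Int.cast_natCast]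
    ring

end maps

section transfer

variable {p : ℕ} {A : Type*} [CommRing A]

/-- A ring with `p^2 = 0` receives a map from `ZMod (p^2)`. -/
lemma exists_hom (hA : (p : A) ^ 2 = 0) : ∃ _f : ZMod (p ^ 2) →+* A, True := by
  have h0 : ((p ^ 2 : ℕ) : A) = 0 := by push_cast; exact hA
  have : CharP A (ringChar A) := ringChar.charP A
  exact ⟨ZMod.castHom (ringChar.dvd h0) A, trivial⟩

lemma natCast_eq_of (hA : (p : A) ^ 2 = 0) {m n : ℕ} (h : (m : ZMod (p ^ 2)) = n) :
    (m : A) = n := by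
  obtain ⟨f, -⟩ := exists_hom hA
  have := congrArg f h
  simpa using this

lemma intCast_eq_of (hA : (p : A) ^ 2 = 0) {m n : ℤ} (h : (m : ZMod (p ^ 2)) = n) :
    (m : A) = n := by
  obtain ⟨f, -⟩ := exists_hom hA
  have := congrArg f h
  simpa using this

/-- An integer prime to `p` is a unit in a ring with `p^2 = 0`. -/
lemma isUnit_natCast (hA : (p : A) ^ 2 = 0) {m : ℕ} (h : Nat.Coprime m p) : IsUnit (m : A) := by
  obtain ⟨f, -⟩ := exists_hom hA
  have h1 : IsUnit (m : ZMod (p ^ 2)) := (ZMod.isUnit_iff_coprime m (p ^ 2)).2 (h.pow_right 2)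
  have := h1.map f
  simpa using this

/-- Taylor expansion modulo `p^2`. -/
lemma aeval_add_mul (hA : (p : A) ^ 2 = 0) (F : ℤ[X]) (x y : A) :
    aeval (x + p * y) F = aeval x F + p * y * aeval x (derivative F) := by
  have hy : (p * y) ^ 2 = 0 := by rw [mul_pow, hA, zero_mul]
  rw [Polynomial.aeval_add_of_sq_eq_zero F x (p * y) hy]
  ring

end transfer

end SC15
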