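import Pool.Agent.SC15.A.Fac

/-!
# SC15-A-CC: the coefficients of `c_{np}` modulo `p^2`

PLAN. Put `N = n p`, `K = p i + j`, `c = 3 j / p`, so `3K / p = 3 i + c`.  If `3K < N`:
`(K!)^2 cc(N,K) = ∏_{t=K+1}^{3K} (N - t)` (product of `2K` consecutive numbers `N-3K, ..., N-1-K`).
Separate the `t` prime to `p` from the multiples `t = p t'`, `i < t' ≤ 3 i + c`:
`∏ (N - p t') = p^(2i+c) ∏ (n - t')`, and `(i!)^2 cc(n,i) = ∏_{t'=i+1}^{3i} (n - t')`.  With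
`fact_pf` (`K! = pf(K) p^i i!`) and cancelling `p^(2i) (i!)^2` this gives the exact identity
   `pf(K)^2 cc(N,K) = E p^c cc(n,i) ∏_{l=1}^{c} (n - 3i - l)`,  `E = ∏_{t ∈ (K,3K], p ∤ t} (N - t)`.
Modulo `p^2` (`p^2 ∣ N`): `E = (-1)^c ∏_{t ∈ (K,3K], p ∤ t} t` (the number of these `t` is
`2K - (2i+c)`), so `pf(K) E = (-1)^c pf(3K)`; apply `LU` with `A = cc(N,K)`, `B = cc(n,i)`,
`q = ∏_{l=1}^{c} (3i + l - n)` (for `c = 1`: `q = 3i + 1 - n = 3 i + 1` modulo `p` as `p ∣ n`).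
If `N ≤ 3K`: `cc(N,K) = 0` for `K ≥ 1` (`N-1-K < 2K`; `K = 0` cannot happen).  If also `n ≤ 3i`
then `cc(n,i) = 0` too (`i ≥ 1`).  If `3i < n`, then `3 i + c ≥ n` so `c ≥ 1` and
`n - 3 i ∈ {1,...,c}`: the product `q` contains the factor `0` and `LU` applies with
`A = 0` (both sides of its hypothesis are `0`), `q = ∏_{l=1}^{c} (3i + l - n)`.
(The claim was checked numerically for all `n ∈ {p, 2p, 3p, p^2}`, `p ≤ 23`.)
-/

namespace SC15

open Finset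

private lemma cc_prod {N K : ℕ} (h : K < N) :
    ((K.factorial : ℕ) : ℤ) ^ 2 * ((cc N K : ℕ) : ℤ) =
      ∏ t ∈ Ico (K + 1) (3 * K + 1), ((N : ℤ) - (t : ℤ)) := by
  have h1 : K.factorial ^ 2 * cc N K = (N - 1 - K).descFactorial (2 * K) := by
    rw [cc, Nat.descFactorial_eq_factorial_mul_choose]
    have h2 := Nat.choose_mul_factorial_mul_factorial (show K ≤ 2 * K by omega)
    rw [show 2 * K - K = K by omega] at h2
    rw [← h2, Nat.centralBinom]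
    ring
  have h3 : ∏ t ∈ Ico (K + 1) (3 * K + 1), ((N : ℤ) - (t : ℤ)) =
      ∏ s ∈ range (2 * K), ((N : ℤ) - ((K + 1 + s : ℕ) : ℤ)) := by
    rw [prod_Ico_eq_prod_range, show 3 * K + 1 - (K + 1) = 2 * K by omega]
  rw [h3]
  have h4 : ((K.factorial : ℕ) : ℤ) ^ 2 * ((cc N K : ℕ) : ℤ) =
      (((N - 1 - K).descFactorial (2 * K) : ℕ) : ℤ) := by
    rw [← h1]; push_cast; ring
  rw [h4]
  by_cases h5 : 2 * K ≤ N - 1 - K
  · rw [Nat.descFactorial_eq_prod_range, Nat.cast_prod]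
    refine prod_congr rfl (fun s hs => ?_)
    have := mem_range.1 hs
    omega
  · rw [Nat.descFactorial_eq_zero_iff_lt.2 (by omega), Nat.cast_zero]
    refine (prod_eq_zero (i := N - 1 - K) (mem_range.2 (by omega)) ?_).symm
    omega

private lemma filter_dvd {p i j : ℕ} (hp : 0 < p) (hj : j < p) :
    (Ico (p * i + j + 1) (3 * (p * i + j) + 1)).filter (fun t => p ∣ t) =
      (Ico (i + 1) (3 * i + 3 * j / p + 1)).image (fun t => p * t) := by
  ext t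
  simp only [mem_filter, mem_Ico, mem_image]
  constructor
  · rintro ⟨⟨h1, h2⟩, ⟨s, rfl⟩⟩
    refine ⟨s, ⟨?_, ?_⟩, rfl⟩
    · by_contra hcon
      have h3 : s ≤ i := by omega
      have h4 : p * s ≤ p * i := Nat.mul_le_mul_left _ h3
      omega
    · have h3 : s ≤ (p * (3 * i) + 3 * j) / p := by
        rw [Nat.le_div_iff_mul_le hp]
        nlinarith
      rw [Nat.mul_add_div hp] at h3
      omega
  · rintro ⟨s, ⟨h1, h2⟩, rfl⟩
    refine ⟨⟨?_, ?_⟩, dvd_mul_right _ _⟩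
    · have h4 : p * (i + 1) ≤ p * s := Nat.mul_le_mul_left _ h1
      rw [Nat.mul_add] at h4
      omega
    · have h3 : s ≤ (p * (3 * i) + 3 * j) / p := by
        rw [Nat.mul_add_div hp]
        omega
      rw [Nat.le_div_iff_mul_le hp] at h3
      nlinarith

private lemma card_dvd {p i j : ℕ} (hp : 0 < p) (hj : j < p) :
    ((Ico (p * i + j + 1) (3 * (p * i + j) + 1)).filter (fun t => p ∣ t)).card =
      2 * i + 3 * j / p := by
  rw [filter_dvd hp hj, card_image_of_injective _ (fun a b h => Nat.eq_of_mul_eq_mul_left hp h),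
    Nat.card_Ico]
  obtain ⟨c, hc⟩ : ∃ c, c = 3 * j / p := ⟨_, rfl⟩
  rw [← hc]
  omega

private lemma prod_dvd {p i j n : ℕ} (hp : 0 < p) (hj : j < p) (hi : i < n) :
    ∏ t ∈ (Ico (p * i + j + 1) (3 * (p * i + j) + 1)).filter (fun t => p ∣ t),
        (((n * p : ℕ) : ℤ) - (t : ℤ)) =
      (p : ℤ) ^ (2 * i + 3 * j / p) * (((i.factorial : ℕ) : ℤ) ^ 2 * ((cc n i : ℕ) : ℤ) *
        ∏ l ∈ range (3 * j / p), ((n : ℤ) - ((3 * i + 1 + l : ℕ) : ℤ))) := by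
  rw [cc_prod hi]
  rw [filter_dvd hp hj, prod_image (fun a _ b _ h => Nat.eq_of_mul_eq_mul_left hp h)]
  obtain ⟨c, hc⟩ : ∃ c, c = 3 * j / p := ⟨_, rfl⟩
  rw [← hc]
  have h1 : ∀ t ∈ Ico (i + 1) (3 * i + c + 1),
      (((n * p : ℕ) : ℤ) - ((p * t : ℕ) : ℤ)) = (p : ℤ) * ((n : ℤ) - (t : ℤ)) := by
    intro t _
    push_cast
    ring
  rw [prod_congr rfl h1, prod_mul_distrib, prod_const, Nat.card_Ico,
    show 3 * i + c + 1 - (i + 1) = 2 * i + c by omega,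
    ← prod_Ico_consecutive (fun t : ℕ => (n : ℤ) - (t : ℤ)) (show i + 1 ≤ 3 * i + 1 by omega)
      (show 3 * i + 1 ≤ 3 * i + c + 1 by omega)]
  congr 2
  rw [prod_Ico_eq_prod_range, show 3 * i + c + 1 - (3 * i + 1) = c by omega]

private lemma pf_three {p K : ℕ} :
    pf p (3 * K) = pf p K * ∏ t ∈ (Ico (K + 1) (3 * K + 1)).filter (fun t => ¬ p ∣ t), t := by
  rw [pf, pf, prod_filter, prod_filter, prod_filter]
  exact (prod_range_mul_prod_Ico _ (by omega)).symm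

private lemma main_id {p : ℕ} [Fact p.Prime] {n i j : ℕ} (hj : j < p) (h : p * i + j < n * p) :
    ((pf p (p * i + j) : ℕ) : ℤ) ^ 2 * ((cc (n * p) (p * i + j) : ℕ) : ℤ) =
      (∏ t ∈ (Ico (p * i + j + 1) (3 * (p * i + j) + 1)).filter (fun t => ¬ p ∣ t),
        (((n * p : ℕ) : ℤ) - (t : ℤ))) * (p : ℤ) ^ (3 * j / p) * (((cc n i : ℕ) : ℤ) *
        ∏ l ∈ range (3 * j / p), ((n : ℤ) - ((3 * i + 1 + l : ℕ) : ℤ))) := by
  have hp : p.Prime := Fact.out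
  have hi : i < n := by
    by_contra hcon
    have h3 : n * p ≤ i * p := Nat.mul_le_mul_right _ (by omega)
    rw [Nat.mul_comm i p] at h3
    omega
  have h1 := cc_prod h
  rw [← prod_filter_mul_prod_filter_not (Ico (p * i + j + 1) (3 * (p * i + j) + 1))
    (fun t => p ∣ t), prod_dvd hp.pos hj hi, fact_pf hp i hj] at h1
  have hfac : ((i.factorial : ℕ) : ℤ) ^ 2 ≠ 0 := by positivity
  have hpp : (p : ℤ) ^ (2 * i) ≠ 0 := by
    have := hp.pos
    positivity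
  have h2 : ((p : ℤ) ^ (2 * i) * ((i.factorial : ℕ) : ℤ) ^ 2) *
      (((pf p (p * i + j) : ℕ) : ℤ) ^ 2 * ((cc (n * p) (p * i + j) : ℕ) : ℤ)) =
      ((p : ℤ) ^ (2 * i) * ((i.factorial : ℕ) : ℤ) ^ 2) *
      ((∏ t ∈ (Ico (p * i + j + 1) (3 * (p * i + j) + 1)).filter (fun t => ¬ p ∣ t),
        (((n * p : ℕ) : ℤ) - (t : ℤ))) * (p : ℤ) ^ (3 * j / p) * (((cc n i : ℕ) : ℤ) *
        ∏ l ∈ range (3 * j / p), ((n : ℤ) - ((3 * i + 1 + l : ℕ) : ℤ)))) := by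
    have h3 : ((pf p (p * i + j) * p ^ i * i.factorial : ℕ) : ℤ) ^ 2 =
        ((p : ℤ) ^ (2 * i) * ((i.factorial : ℕ) : ℤ) ^ 2) * ((pf p (p * i + j) : ℕ) : ℤ) ^ 2 := by
      push_cast
      ring
    rw [h3] at h1
    rw [← mul_assoc, h1, pow_add]
    ring
  exact mul_left_cancel₀ (mul_ne_zero hpp hfac) h2

theorem S2 {p : ℕ} [Fact p.Prime] (h7 : 7 ≤ p) {n i j : ℕ} (hn : p ∣ n) (hj : j < p)
    (h : p * i + j < n * p) :
    (cc (n * p) (p * i + j) : ZMod (p ^ 2)) = (cc n i : ZMod (p ^ 2)) *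
      ((u j : ZMod (p ^ 2)) +
        3 * (p : ZMod (p ^ 2)) * (i : ZMod (p ^ 2)) * (rt p j : ZMod (p ^ 2))) := by
  have hp : p.Prime := Fact.out
  have hI := congrArg (Int.cast : ℤ → ZMod (p ^ 2)) (main_id hj h)
  have hN : ((n * p : ℕ) : ZMod (p ^ 2)) = 0 := by
    rw [ZMod.natCast_eq_zero_iff, pow_two]
    exact Nat.mul_dvd_mul hn (dvd_refl p)
  have hE : ((∏ t ∈ (Ico (p * i + j + 1) (3 * (p * i + j) + 1)).filter (fun t => ¬ p ∣ t),
        (((n * p : ℕ) : ℤ) - (t : ℤ)) : ℤ) : ZMod (p ^ 2)) = (-1) ^ (3 * j / p) *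
      ((∏ t ∈ (Ico (p * i + j + 1) (3 * (p * i + j) + 1)).filter (fun t => ¬ p ∣ t), t : ℕ) :
        ZMod (p ^ 2)) := by
    rw [Int.cast_prod, Nat.cast_prod]
    have h1 : ∀ t ∈ (Ico (p * i + j + 1) (3 * (p * i + j) + 1)).filter (fun t => ¬ p ∣ t),
        (((((n * p : ℕ) : ℤ) - (t : ℤ)) : ℤ) : ZMod (p ^ 2)) = (-1) * (t : ZMod (p ^ 2)) := by
      intro t _
      rw [Int.cast_sub, Int.cast_natCast, Int.cast_natCast, hN]
      ring
    rw [prod_congr rfl h1, prod_mul_distrib, prod_const]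
    congr 1
    have h2 := card_filter_add_card_filter_not
      (s := Ico (p * i + j + 1) (3 * (p * i + j) + 1)) (fun t => p ∣ t)
    rw [card_dvd hp.pos hj, Nat.card_Ico] at h2
    obtain ⟨m, hm⟩ : ∃ m, m = ((Ico (p * i + j + 1) (3 * (p * i + j) + 1)).filter
      (fun t => ¬ p ∣ t)).card := ⟨_, rfl⟩
    rw [← hm] at h2 ⊢
    have h4 : m + 3 * j / p = 2 * (p * i + j - i) := by
      have h5 : i ≤ p * i := Nat.le_mul_of_pos_left _ hp.pos
      omega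
    have h6 : ((-1 : ZMod (p ^ 2)) ^ m) * (-1) ^ (3 * j / p) = 1 := by
      rw [← pow_add, h4, pow_mul]
      simp
    have h7 : ((-1 : ZMod (p ^ 2)) ^ (3 * j / p)) * (-1) ^ (3 * j / p) = 1 := by
      rw [← pow_add, ← two_mul, pow_mul]
      simp
    calc (-1 : ZMod (p ^ 2)) ^ m = (-1) ^ m * ((-1) ^ (3 * j / p) * (-1) ^ (3 * j / p)) := by
          rw [h7, mul_one]
      _ = (-1) ^ (3 * j / p) := by rw [← mul_assoc, h6, one_mul]
  have hq : ((-1 : ZMod (p ^ 2)) ^ (3 * j / p)) *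
      ((∏ l ∈ range (3 * j / p), ((n : ℤ) - ((3 * i + 1 + l : ℕ) : ℤ)) : ℤ) : ZMod (p ^ 2)) =
      ((∏ l ∈ range (3 * j / p), (((3 * i + 1 + l : ℕ) : ℤ) - (n : ℤ)) : ℤ) : ZMod (p ^ 2)) := by
    rw [Int.cast_prod, Int.cast_prod]
    conv_lhs => rw [← card_range (3 * j / p), ← prod_const, card_range, ← prod_mul_distrib]
    refine prod_congr rfl (fun l _ => ?_)
    push_cast
    ring
  have hLU := LU h7 (i := i) hj ((cc (n * p) (p * i + j) : ℕ) : ℤ) ((cc n i : ℕ) : ℤ)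
    (∏ l ∈ range (3 * j / p), (((3 * i + 1 + l : ℕ) : ℤ) - (n : ℤ))) ?_ ?_ ?_
  · rw [Int.cast_natCast, Int.cast_natCast] at hLU
    exact hLU
  · rw [Int.cast_mul, Int.cast_mul, Int.cast_mul, Int.cast_mul, Int.cast_pow, Int.cast_pow,
      Int.cast_natCast, hE] at hI
    rw [pf_three, ← hq, Nat.cast_mul]
    simp only [Int.cast_natCast] at hI ⊢
    calc (pf p (p * i + j) : ZMod (p ^ 2)) ^ 3 * (cc (n * p) (p * i + j) : ZMod (p ^ 2))
        = (pf p (p * i + j) : ZMod (p ^ 2)) * ((pf p (p * i + j) : ZMod (p ^ 2)) ^ 2 *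
          (cc (n * p) (p * i + j) : ZMod (p ^ 2))) := by ring
      _ = _ := by
        rw [hI]
        ring
  · intro h3
    rw [Nat.div_eq_of_lt h3, range_zero, prod_empty]
  · intro h3 h4
    have h5 : 3 * j / p = 1 := by
      rw [Nat.div_eq_iff hp.pos]
      omega
    rw [h5, prod_range_one]
    have h6 : ((n : ℕ) : ZMod p) = 0 := (ZMod.natCast_eq_zero_iff _ _).2 hn
    push_cast
    rw [h6]
    ring

end SC15
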