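import Pool.Agent.SC15.A.U

/-!
# SC15-A-Wron: the Wronskian modulo `p`, and `R(b) ≠ 0` if `P(b) = 0`

Notation: `f = P p X`, `ρ = 3 ∑_{j<p} r_j X^j` in `F_p[X]`, `θ F = X F'`.
PLAN.
(1) `r_rec`: for `j + 1 < p`, in `ZMod p`:
  `3 (j+1)^2 r_{j+1} - 9 (3j+1)(3j+2) r_j = 27 (2j+1) u_j - 2 (j+1) u_{j+1}`.
Cases: `3(j+1) < p`: `r = u (H_{3j} - H_j)` and `(j+1)^2 u_{j+1} = 3(3j+1)(3j+2) u_j` (`u_succ`),
`H_{3j+3} - H_{j+1} = H_{3j} - H_j + 1/(3j+1) + 1/(3j+2) + 1/(3j+3) - 1/(j+1)`.
`3j < p < 3(j+1)`: `3j+1 = p` or `3j+2 = p` (`p ≥ 7` prime, so `3j+3 ≠ p`);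
`(j+1)^2 (u_{j+1}/p) = 3 ((3j+1)(3j+2)/p) u_j`, and `(3j+1)(3j+2) r_j = 0`, `u_{j+1} = 0`; left side
`9 u_j` resp. `-9 u_j`, right side `27 (2j+1) u_j` with `3 j = -1` resp. `3 j = -2`.
`p < 3j`, `3(j+1) < 2p`: `(j+1)^2 (u_{j+1}/p) = 3(3j+1)(3j+2)(u_j/p)`, right side `0`.
`3j < 2p < 3(j+1)`: `(3j+1)(3j+2) = 0`, everything is `0`.  `2p < 3j`: everything is `0`.
(`3j+1 = 2p`, etc. are included.)
(2) So `L ρ = -(2 (1-27X) θ f - 27 X f)` with `L F = (1-27X) θ(θ F) - 27 X θ F - 6 X F`, and `L f = 0` (the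
same computation with `u_succ`; at `j = p - 1`: `u_{p-1} = r_{p-1} = 0` in `ZMod p`).
(3) `w = f θρ - ρ θf + f^2` satisfies `θ((1-27X) w) = 0`:
`(1-27X)(f θθρ - ρ θθf + 2 f θf) - 27 X w = f Lρ - ρ Lf + 27X(f θρ - ρ θf) + (1-27X) 2 f θf - 27X w = 0`.
(4) Degrees: `deg f ≤ (p-1)/3`, `deg ρ ≤ (2p-1)/3` (`u_dvd`, definition of `r`), so `(1-27X) w` has degree
`≤ p`; its derivative is `0`, so its coefficients of degree `1, ..., p-1` are `0`; its constant
coefficient is `1` (`u_0 = 1`, `r_0 = 0`), its value at `27⁻¹` is `0`: `(1-27X) w = 1 - 27 X^p`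
(`27^p = 27`), which is `(1 - 27 X)^p`.  Cancel: `w = (1-27X)^(p-1)`.
(5) Evaluate at `b`: `P(b) = 0` and `R(b) = 0` give `0 = (1-27b)^(p-1)`.
(Checked numerically.)
-/

namespace SC15

open Finset Polynomial

private lemma w_u_zero {p : ℕ} [hp : Fact p.Prime] {j : ℕ} (hj : j < p) (h : p ≤ 3 * j) :
    (u j : ZMod p) = 0 :=
  (ZMod.natCast_eq_zero_iff _ _).2 (u_dvd hp.out hj h)

private lemma w_cast_ne {p : ℕ} [hp : Fact p.Prime] {m : ℕ} (h0 : 0 < m) (h : m < p) :
    (m : ZMod p) ≠ 0 := by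
  rw [Ne, ZMod.natCast_eq_zero_iff]
  exact Nat.not_dvd_of_pos_of_lt h0 h

private lemma w_u_rec (p : ℕ) (j : ℕ) : ((j : ZMod p) + 1) ^ 2 * (u (j + 1) : ZMod p) =
    3 * (3 * (j : ZMod p) + 1) * (3 * (j : ZMod p) + 2) * (u j : ZMod p) := by
  have h := congrArg (fun n : ℕ => (n : ZMod p)) (u_succ j)
  simpa using h

private lemma w_p3 {p : ℕ} [hp : Fact p.Prime] (h7 : 7 ≤ p) (m : ℕ) : p ≠ 3 * m := by
  intro h
  have h3 : 3 ∣ p := ⟨m, h⟩
  rcases (Nat.dvd_prime hp.out).1 h3 with h | h <;> omega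

private lemma w_2p3 {p : ℕ} [hp : Fact p.Prime] (h7 : 7 ≤ p) (m : ℕ) : 2 * p ≠ 3 * m := by
  intro h
  have h3 : 3 ∣ 2 * p := ⟨m, h⟩
  have h4 : 3 ∣ p := (Nat.Coprime.dvd_mul_left (by norm_num)).1 h3
  rcases (Nat.dvd_prime hp.out).1 h4 with h | h <;> omega

private lemma r_small {p j : ℕ} (h : 3 * j < p) : r p j = (u j : ZMod p) *
    (∑ t ∈ range (3 * j), ((t + 1 : ℕ) : ZMod p)⁻¹ - ∑ t ∈ range j, ((t + 1 : ℕ) : ZMod p)⁻¹) := by
  unfold r
  rw [if_pos h]

private lemma r_mid {p j : ℕ} (h : p ≤ 3 * j) (h' : 3 * j < 2 * p) :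
    r p j = ((u j / p : ℕ) : ZMod p) := by
  unfold r
  rw [if_neg (by omega), if_pos h']

private lemma r_big {p j : ℕ} (h' : 2 * p ≤ 3 * j) : r p j = 0 := by
  unfold r
  rw [if_neg (by omega), if_neg (by omega)]

theorem r_rec {p : ℕ} [hp : Fact p.Prime] (h7 : 7 ≤ p) {j : ℕ} (hj : j + 1 < p) :
    3 * ((j : ZMod p) + 1) ^ 2 * r p (j + 1) -
      9 * (3 * (j : ZMod p) + 1) * (3 * (j : ZMod p) + 2) * r p j =
    27 * (2 * (j : ZMod p) + 1) * (u j : ZMod p) - 2 * ((j : ZMod p) + 1) * (u (j + 1) : ZMod p) := by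
  have hu := w_u_rec p j
  rcases lt_or_ge (3 * (j + 1)) p with h1 | h1
  · -- case 1
    rw [r_small h1, r_small (show 3 * j < p by omega)]
    have e3 : 3 * (j + 1) = 3 * j + 1 + 1 + 1 := by ring
    rw [e3, sum_range_succ, sum_range_succ, sum_range_succ, sum_range_succ]
    have ha : (3 * (j : ZMod p) + 1) * ((3 * j + 1 : ℕ) : ZMod p)⁻¹ = 1 := by
      have h := mul_inv_cancel₀ (w_cast_ne (p := p) (m := 3 * j + 1) (by omega) (by omega))
      push_cast at h ⊢
      exact h
    have hb : (3 * (j : ZMod p) + 2) * ((3 * j + 1 + 1 : ℕ) : ZMod p)⁻¹ = 1 := by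
      have h := mul_inv_cancel₀ (w_cast_ne (p := p) (m := 3 * j + 1 + 1) (by omega) (by omega))
      rw [← h]
      push_cast
      ring
    have hc : 3 * ((j : ZMod p) + 1) * ((3 * j + 1 + 1 + 1 : ℕ) : ZMod p)⁻¹ = 1 := by
      have h := mul_inv_cancel₀ (w_cast_ne (p := p) (m := 3 * j + 1 + 1 + 1) (by omega) (by omega))
      have hcast : ((3 * j + 1 + 1 + 1 : ℕ) : ZMod p) = 3 * ((j : ZMod p) + 1) := by
        push_cast
        ring
      rw [← hcast]
      exact h
    have he : ((j : ZMod p) + 1) * ((j + 1 : ℕ) : ZMod p)⁻¹ = 1 := by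
      have h := mul_inv_cancel₀ (w_cast_ne (p := p) (m := j + 1) (by omega) (by omega))
      push_cast at h ⊢
      exact h
    generalize ((3 * j + 1 : ℕ) : ZMod p)⁻¹ = a at ha ⊢
    generalize ((3 * j + 1 + 1 : ℕ) : ZMod p)⁻¹ = b at hb ⊢
    generalize ((3 * j + 1 + 1 + 1 : ℕ) : ZMod p)⁻¹ = c at hc ⊢
    generalize ((j + 1 : ℕ) : ZMod p)⁻¹ = e at he ⊢
    generalize (∑ t ∈ range (3 * j), ((t + 1 : ℕ) : ZMod p)⁻¹) = H3
    generalize (∑ t ∈ range j, ((t + 1 : ℕ) : ZMod p)⁻¹) = H1
    linear_combination 3 * (H3 - H1 + a + b) * hu + 9 * (3 * (j : ZMod p) + 2) * (u j : ZMod p) * ha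
      + 9 * (3 * (j : ZMod p) + 1) * (u j : ZMod p) * hb
      + ((j : ZMod p) + 1) * (u (j + 1) : ZMod p) * hc
      - 3 * ((j : ZMod p) + 1) * (u (j + 1) : ZMod p) * he
  · have hU' : (u (j + 1) : ZMod p) = 0 := w_u_zero hj h1
    have hN := u_succ j
    have hp0 : 0 < p := by omega
    rcases lt_or_ge (3 * j) p with h2 | h2
    · -- case 2
      rw [r_mid h1 (by omega)]
      obtain ⟨q, hq⟩ := u_dvd hp.out hj h1
      have hq2 : u (j + 1) / p = q := by
        rw [hq, Nat.mul_div_cancel_left _ hp0]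
      rw [hq2]
      have h3 := w_p3 h7 (j + 1)
      have h4 : p = 3 * j + 1 ∨ p = 3 * j + 2 := by omega
      rcases h4 with h4 | h4
      · have z : 3 * (j : ZMod p) + 1 = 0 := by
          have : ((3 * j + 1 : ℕ) : ZMod p) = 0 := by rw [← h4, ZMod.natCast_self]
          push_cast at this
          exact this
        have hqN : (j + 1) ^ 2 * q = 3 * (3 * j + 2) * u j := by
          have h5 : p * ((j + 1) ^ 2 * q) = p * (3 * (3 * j + 2) * u j) := by
            calc p * ((j + 1) ^ 2 * q) = (j + 1) ^ 2 * (p * q) := by ring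
              _ = 3 * (3 * j + 1) * (3 * j + 2) * u j := by rw [← hq, hN]
              _ = p * (3 * (3 * j + 2) * u j) := by
                rw [show 3 * j + 1 = p from h4.symm]; ring
          exact Nat.eq_of_mul_eq_mul_left hp0 h5
        have hqZ : ((j : ZMod p) + 1) ^ 2 * (q : ZMod p) =
            3 * (3 * (j : ZMod p) + 2) * (u j : ZMod p) := by
          have h := congrArg (fun n : ℕ => (n : ZMod p)) hqN
          simpa using h
        linear_combination 3 * hqZ + (-9 * (u j : ZMod p) - 9 * (3 * (j : ZMod p) + 2) * r p j) * z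
          + 2 * ((j : ZMod p) + 1) * hU'
      · have z : 3 * (j : ZMod p) + 2 = 0 := by
          have : ((3 * j + 2 : ℕ) : ZMod p) = 0 := by rw [← h4, ZMod.natCast_self]
          push_cast at this
          exact this
        have hqN : (j + 1) ^ 2 * q = 3 * (3 * j + 1) * u j := by
          have h5 : p * ((j + 1) ^ 2 * q) = p * (3 * (3 * j + 1) * u j) := by
            calc p * ((j + 1) ^ 2 * q) = (j + 1) ^ 2 * (p * q) := by ring
              _ = 3 * (3 * j + 1) * (3 * j + 2) * u j := by rw [← hq, hN]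
              _ = p * (3 * (3 * j + 1) * u j) := by
                rw [show 3 * j + 2 = p from h4.symm]; ring
          exact Nat.eq_of_mul_eq_mul_left hp0 h5
        have hqZ : ((j : ZMod p) + 1) ^ 2 * (q : ZMod p) =
            3 * (3 * (j : ZMod p) + 1) * (u j : ZMod p) := by
          have h := congrArg (fun n : ℕ => (n : ZMod p)) hqN
          simpa using h
        linear_combination 3 * hqZ + (-9 * (u j : ZMod p) - 9 * (3 * (j : ZMod p) + 1) * r p j) * z
          + 2 * ((j : ZMod p) + 1) * hU'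
    · have hU : (u j : ZMod p) = 0 := w_u_zero (by omega) h2
      rcases lt_or_ge (3 * (j + 1)) (2 * p) with h3 | h3
      · -- case 3
        rw [r_mid h1 h3, r_mid h2 (by omega)]
        obtain ⟨q, hq⟩ := u_dvd hp.out hj h1
        obtain ⟨q', hq'⟩ := u_dvd hp.out (show j < p by omega) h2
        have hq2 : u (j + 1) / p = q := by
          rw [hq, Nat.mul_div_cancel_left _ hp0]
        have hq2' : u j / p = q' := by
          rw [hq', Nat.mul_div_cancel_left _ hp0]
        rw [hq2, hq2']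
        have hqN : (j + 1) ^ 2 * q = 3 * (3 * j + 1) * (3 * j + 2) * q' := by
          have h5 : p * ((j + 1) ^ 2 * q) = p * (3 * (3 * j + 1) * (3 * j + 2) * q') := by
            calc p * ((j + 1) ^ 2 * q) = (j + 1) ^ 2 * (p * q) := by ring
              _ = 3 * (3 * j + 1) * (3 * j + 2) * u j := by rw [← hq, hN]
              _ = p * (3 * (3 * j + 1) * (3 * j + 2) * q') := by
                rw [hq']; ring
          exact Nat.eq_of_mul_eq_mul_left hp0 h5
        have hqZ : ((j : ZMod p) + 1) ^ 2 * (q : ZMod p) =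
            3 * (3 * (j : ZMod p) + 1) * (3 * (j : ZMod p) + 2) * (q' : ZMod p) := by
          have h := congrArg (fun n : ℕ => (n : ZMod p)) hqN
          simpa using h
        linear_combination 3 * hqZ - 27 * (2 * (j : ZMod p) + 1) * hU
          + 2 * ((j : ZMod p) + 1) * hU'
      · rw [r_big h3]
        rcases lt_or_ge (3 * j) (2 * p) with h4 | h4
        · -- case 4
          have h5 := w_2p3 h7 (j + 1)
          have z : (3 * (j : ZMod p) + 1) * (3 * (j : ZMod p) + 2) = 0 := by
            have h6 : 2 * p = 3 * j + 1 ∨ 2 * p = 3 * j + 2 := by omega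
            rcases h6 with h6 | h6
            · have : ((3 * j + 1 : ℕ) : ZMod p) = 0 := by
                rw [← h6]; push_cast; rw [ZMod.natCast_self, mul_zero]
              push_cast at this
              rw [this, zero_mul]
            · have : ((3 * j + 2 : ℕ) : ZMod p) = 0 := by
                rw [← h6]; push_cast; rw [ZMod.natCast_self, mul_zero]
              push_cast at this
              rw [this, mul_zero]
          linear_combination (-9) * r p j * z - 27 * (2 * (j : ZMod p) + 1) * hU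
            + 2 * ((j : ZMod p) + 1) * hU'
        · rw [r_big h4]
          linear_combination (-27) * (2 * (j : ZMod p) + 1) * hU
            + 2 * ((j : ZMod p) + 1) * hU'

section poly

variable {p : ℕ}

private lemma w_f_coeff (n : ℕ) : (P p (X : (ZMod p)[X])).coeff n =
    if n < p then (u n : ZMod p) else 0 := by
  unfold P
  rw [finsetSum_coeff]
  have h : ∀ j ∈ range p, ((u j : (ZMod p)[X]) * X ^ j).coeff n =
      if n = j then (u j : ZMod p) else 0 := by
    intro j _
    rw [← C_eq_natCast, coeff_C_mul_X_pow]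
  rw [sum_congr rfl h, sum_ite_eq]
  simp only [mem_range]

private lemma w_rho_coeff (n : ℕ) :
    (∑ j ∈ range p, C (3 * r p j) * X ^ j : (ZMod p)[X]).coeff n =
    if n < p then 3 * r p n else 0 := by
  rw [finsetSum_coeff]
  have h : ∀ j ∈ range p, (C (3 * r p j) * X ^ j : (ZMod p)[X]).coeff n =
      if n = j then 3 * r p j else 0 := by
    intro j _
    rw [coeff_C_mul_X_pow]
  rw [sum_congr rfl h, sum_ite_eq]
  simp only [mem_range]

private lemma w_th_coeff (F : (ZMod p)[X]) (n : ℕ) :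
    (X * derivative F).coeff n = (n : ZMod p) * F.coeff n := by
  rcases n with _ | n
  · simp
  · rw [coeff_X_mul, coeff_derivative]
    push_cast
    ring

private lemma w_th_degree (F : (ZMod p)[X]) (m : ℕ) (h : F.natDegree ≤ m) :
    (X * derivative F).natDegree ≤ m := by
  rw [natDegree_le_iff_coeff_eq_zero] at h ⊢
  intro N hN
  rw [w_th_coeff, h N hN, mul_zero]

private lemma w_ode_f [hp : Fact p.Prime] (h7 : 7 ≤ p) :
    X * derivative (X * derivative (P p (X : (ZMod p)[X]))) =
      X * (27 * (X * derivative (X * derivative (P p (X : (ZMod p)[X])))) +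
        27 * (X * derivative (P p (X : (ZMod p)[X]))) + 6 * P p (X : (ZMod p)[X])) := by
  ext n
  rcases n with _ | n
  · simp
  · rw [w_th_coeff, w_th_coeff, coeff_X_mul, coeff_add, coeff_add, coeff_ofNat_mul,
      coeff_ofNat_mul, coeff_ofNat_mul]
    rw [w_th_coeff, w_th_coeff, w_f_coeff, w_f_coeff]
    have hu := w_u_rec p n
    rcases lt_trichotomy (n + 1) p with h | h | h
    · rw [if_pos h, if_pos (by omega)]
      push_cast
      linear_combination hu
    · rw [if_neg (by omega), if_pos (by omega)]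
      have h0 : (u n : ZMod p) = 0 := w_u_zero (by omega) (by omega)
      rw [h0]
      simp
    · rw [if_neg (by omega), if_neg (by omega)]
      simp

private lemma w_ode_rho [hp : Fact p.Prime] (h7 : 7 ≤ p) :
    X * derivative (X * derivative (∑ j ∈ range p, C (3 * r p j) * X ^ j : (ZMod p)[X])) =
      X * (27 * (X * derivative (X * derivative
          (∑ j ∈ range p, C (3 * r p j) * X ^ j : (ZMod p)[X]))) +
        27 * (X * derivative (∑ j ∈ range p, C (3 * r p j) * X ^ j : (ZMod p)[X])) +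
        6 * (∑ j ∈ range p, C (3 * r p j) * X ^ j : (ZMod p)[X]) +
        54 * (X * derivative (P p (X : (ZMod p)[X]))) + 27 * P p (X : (ZMod p)[X])) -
      2 * (X * derivative (P p (X : (ZMod p)[X]))) := by
  ext n
  rcases n with _ | n
  · simp
  · rw [coeff_sub, w_th_coeff, w_th_coeff, coeff_X_mul, coeff_add, coeff_add, coeff_add, coeff_add,
      coeff_ofNat_mul, coeff_ofNat_mul, coeff_ofNat_mul, coeff_ofNat_mul, coeff_ofNat_mul,
      coeff_ofNat_mul]
    simp only [w_th_coeff, w_f_coeff, w_rho_coeff]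
    rcases lt_trichotomy (n + 1) p with h | h | h
    · rw [if_pos h, if_pos h, if_pos (show n < p by omega), if_pos (show n < p by omega)]
      have hr := r_rec h7 h
      push_cast
      linear_combination hr
    · rw [if_neg (show ¬ n + 1 < p by omega), if_neg (show ¬ n + 1 < p by omega),
        if_pos (show n < p by omega), if_pos (show n < p by omega)]
      have h0 : (u n : ZMod p) = 0 := w_u_zero (by omega) (by omega)
      rw [h0, r_big (show 2 * p ≤ 3 * n by omega)]
      simp
    · rw [if_neg (show ¬ n + 1 < p by omega), if_neg (show ¬ n + 1 < p by omega),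
        if_neg (show ¬ n < p by omega), if_neg (show ¬ n < p by omega)]
      simp

private lemma w_alg {A : Type*} [CommRing A] [IsDomain A] (f g : A[X])
    (hf : X * derivative (X * derivative f) =
      X * (27 * (X * derivative (X * derivative f)) + 27 * (X * derivative f) + 6 * f))
    (hg : X * derivative (X * derivative g) =
      X * (27 * (X * derivative (X * derivative g)) + 27 * (X * derivative g) + 6 * g +
        54 * (X * derivative f) + 27 * f) - 2 * (X * derivative f)) :
    derivative ((1 - 27 * X) * (f * (X * derivative g) - g * (X * derivative f) + f ^ 2)) = 0 := by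
  have h27 : derivative (1 - 27 * X : A[X]) = -27 := by
    rw [derivative_sub, derivative_one, derivative_mul, derivative_X, derivative_ofNat]
    ring
  have hmain : X * derivative ((1 - 27 * X) *
      (f * (X * derivative g) - g * (X * derivative f) + f ^ 2)) = 0 := by
    rw [derivative_mul, h27]
    simp only [derivative_add, derivative_sub, derivative_mul, derivative_X, derivative_pow] at hf hg ⊢
    simp only [Nat.cast_ofNat, C_ofNat, Nat.add_one_sub_one, pow_one] at hf hg ⊢
    linear_combination f * hg - g * hf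
  rcases mul_eq_zero.1 hmain with h | h
  · exact absurd h X_ne_zero
  · exact h

end poly

theorem wronskian {p : ℕ} [Fact p.Prime] (h7 : 7 ≤ p) :
    P p (X : (ZMod p)[X]) * (X * derivative (∑ j ∈ range p, C (3 * r p j) * X ^ j)) -
      (∑ j ∈ range p, C (3 * r p j) * X ^ j) * (X * derivative (P p (X : (ZMod p)[X]))) +
      P p (X : (ZMod p)[X]) ^ 2 = (1 - 27 * X) ^ (p - 1) := by
  have hp : p.Prime := Fact.out
  have hder := w_alg (P p (X : (ZMod p)[X])) (∑ j ∈ range p, C (3 * r p j) * X ^ j)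
    (w_ode_f h7) (w_ode_rho h7)
  have hf0 := w_f_coeff (p := p) 0
  have hdf : (P p (X : (ZMod p)[X])).natDegree ≤ (p - 1) / 3 := by
    rw [natDegree_le_iff_coeff_eq_zero]
    intro N hN
    rw [w_f_coeff]
    split_ifs with h
    · exact w_u_zero h (by omega)
    · rfl
  have hdr : (∑ j ∈ range p, C (3 * r p j) * X ^ j : (ZMod p)[X]).natDegree ≤ (2 * p - 1) / 3 := by
    rw [natDegree_le_iff_coeff_eq_zero]
    intro N hN
    rw [w_rho_coeff]
    split_ifs with h
    · rw [r_big (by omega), mul_zero]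
    · rfl
  generalize hF : P p (X : (ZMod p)[X]) = f at *
  generalize hG : (∑ j ∈ range p, C (3 * r p j) * X ^ j : (ZMod p)[X]) = g at *
  have hdf' := w_th_degree f _ hdf
  have hdr' := w_th_degree g _ hdr
  set w := f * (X * derivative g) - g * (X * derivative f) + f ^ 2 with hw
  have hdw : w.natDegree ≤ p - 1 := by
    have h1 : (f * (X * derivative g)).natDegree ≤ p - 1 :=
      natDegree_mul_le.trans (by omega)
    have h2 : (g * (X * derivative f)).natDegree ≤ p - 1 :=
      natDegree_mul_le.trans (by omega)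
    have h3 : (f ^ 2).natDegree ≤ p - 1 :=
      natDegree_pow_le.trans (by omega)
    refine (natDegree_add_le _ _).trans (max_le ((natDegree_sub_le _ _).trans (max_le h1 h2)) h3)
  have hdW : ((1 - 27 * X) * w).natDegree ≤ p := by
    have h1 : (1 - 27 * X : (ZMod p)[X]).natDegree ≤ 1 := by
      have : (1 - 27 * X : (ZMod p)[X]) = C (-27) * X + C 1 := by
        simp only [map_neg, map_one, map_ofNat]
        ring
      rw [this]
      exact natDegree_linear_le
    exact natDegree_mul_le.trans (by omega)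
  have hW0 : ((1 - 27 * X) * w).coeff 0 = 1 := by
    have hf1 : f.coeff 0 = 1 := by
      rw [hf0, if_pos (by omega), u_zero, Nat.cast_one]
    rw [mul_coeff_zero, hw]
    simp [mul_coeff_zero, hf1, pow_two]
  have hWm : ∀ n, n ≠ 0 → n ≠ p → ((1 - 27 * X) * w).coeff n = 0 := by
    intro n hn hnp
    rcases lt_or_ge n p with h | h
    · obtain ⟨m, rfl⟩ := Nat.exists_eq_succ_of_ne_zero hn
      have h1 := congrArg (fun q : (ZMod p)[X] => q.coeff m) hder
      simp only [coeff_derivative, coeff_zero] at h1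
      rcases mul_eq_zero.1 h1 with h2 | h2
      · exact h2
      · exfalso
        refine w_cast_ne (p := p) (m := m + 1) (by omega) h ?_
        push_cast
        exact h2
    · exact coeff_eq_zero_of_natDegree_lt (lt_of_le_of_lt hdW (lt_of_le_of_ne h (Ne.symm hnp)))
  have hWe : (1 - 27 * X) * w = C 1 + C (((1 - 27 * X) * w).coeff p) * X ^ p := by
    ext n
    rw [coeff_add, coeff_C, coeff_C_mul_X_pow]
    by_cases hn : n = 0
    · subst hn
      rw [if_pos rfl, if_neg hp.pos.ne, hW0, add_zero]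
    · rw [if_neg hn]
      by_cases hnp : n = p
      · rw [if_pos hnp, hnp, zero_add]
      · rw [if_neg hnp, hWm n hn hnp, add_zero]
  have h27 : (27 : ZMod p) ≠ 0 := by
    have h3 : ((3 : ℕ) : ZMod p) ≠ 0 := w_cast_ne (by norm_num) (by omega)
    have : (27 : ZMod p) = ((3 : ℕ) : ZMod p) ^ 3 := by norm_num
    rw [this]
    exact pow_ne_zero _ h3
  have hWp : ((1 - 27 * X) * w).coeff p = -27 := by
    have h1 := congrArg (fun q : (ZMod p)[X] => q.eval (27⁻¹)) hWe
    simp only [eval_mul, eval_sub, eval_one, eval_ofNat, eval_X, mul_inv_cancel₀ h27, sub_self,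
      zero_mul, eval_add, eval_C, eval_pow, ZMod.pow_card] at h1
    have h2 : ((1 - 27 * X) * w).coeff p * 27⁻¹ * 27 = -1 * 27 := by
      congr 1
      linear_combination -h1
    rw [mul_assoc, inv_mul_cancel₀ h27, mul_one] at h2
    rw [h2]; ring
  have hpow : (1 - 27 * X : (ZMod p)[X]) ^ p = C 1 + C (-27) * X ^ p := by
    rw [sub_pow_char, one_pow, mul_pow]
    have h1 : (27 : (ZMod p)[X]) ^ p = C ((27 : ZMod p) ^ p) := by
      rw [C_pow, C_ofNat]
    rw [h1, ZMod.pow_card]
    simp only [map_neg, map_one, map_ofNat]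
    ring
  rw [hWp, ← hpow] at hWe
  have hne : (1 - 27 * X : (ZMod p)[X]) ≠ 0 := by
    intro h
    have := congrArg (fun q : (ZMod p)[X] => q.eval 0) h
    simp at this
  have hps : (1 - 27 * X : (ZMod p)[X]) ^ p = (1 - 27 * X) * (1 - 27 * X) ^ (p - 1) := by
    rw [← pow_succ']
    congr 1
    omega
  rw [hps] at hWe
  exact mul_left_cancel₀ hne hWe

theorem R_ne_zero {p : ℕ} [Fact p.Prime] (h7 : 7 ≤ p) {k : Type*} [Field k] [Algebra (ZMod p) k]
    {b : k} (hP : P p b = 0) (hb : 27 * b ≠ 1) : R p b ≠ 0 := by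
  intro hR
  have h2 : aeval b (P p (X : (ZMod p)[X])) = 0 := by
    have h := map_P (aeval b : (ZMod p)[X] →ₐ[ZMod p] k).toRingHom p (X : (ZMod p)[X])
    rw [← hP]
    simpa using h
  have h3 : aeval b (∑ j ∈ range p, C (3 * r p j) * X ^ j : (ZMod p)[X]) = 0 := by
    have h : aeval b (∑ j ∈ range p, C (3 * r p j) * X ^ j : (ZMod p)[X]) = 3 * R p b := by
      unfold R
      rw [map_sum, mul_sum]
      refine sum_congr rfl fun j _ => ?_
      rw [map_mul, aeval_C, map_pow, aeval_X, map_mul, map_ofNat, mul_assoc]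
    rw [h, hR, mul_zero]
  have key : ∀ f g f' g' : (ZMod p)[X], aeval b f = 0 → aeval b g = 0 →
      aeval b (f * (X * g') - g * (X * f') + f ^ 2) = 0 := by
    intro f g f' g' hf hg
    simp [hf, hg]
  have h1 := key _ _ (derivative (P p (X : (ZMod p)[X])))
    (derivative (∑ j ∈ range p, C (3 * r p j) * X ^ j : (ZMod p)[X])) h2 h3
  rw [wronskian h7] at h1
  have h4 : (1 - 27 * b) ^ (p - 1) = 0 := by
    have h5 : aeval b ((1 - 27 * X : (ZMod p)[X]) ^ (p - 1)) = (1 - 27 * b) ^ (p - 1) := by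
      rw [map_pow, map_sub, map_one, map_mul, aeval_X, map_ofNat]
    rw [← h5, h1]
  have h6 : 1 - 27 * b = 0 := eq_zero_of_pow_eq_zero h4
  exact hb (by linear_combination -h6)

end SC15
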