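import Pool.Agent.SC15.A.Wd
import Pool.Agent.SC15.A.Wron

/-!
# SC15-A-CM: the CM point: `Y(b0) = 0`, and the supersingular case

Notation: `h : W` with `2 h = 1` (`2` is a unit: `π 2 ≠ 0`), `s = r5 r3` (`s^2 = -15`),
`t1 = h(-r5 + r3)`, `t1' = h(-r5 - r3)`, `t1 t1' = 2`, `t1^2 = h(1 - s)`, `t1'^2 = h(1 + s)`;
`5 t0 = -2 r5` (`5` is a unit), `r5 t0 = -2`; `54 b1 = 1 + r5`;
`108 b1 = B(r5) = B(t1) = B(t1')`, `108 b0 = B(t0)`, where `B(t) = t^3 - 3 t + 2`.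
Take `H` from `exists_H`.  `x = (π t1)^2`, `x' = (π t1')^2`: `x + x' = 1`, `x x' = 4`, `x - 1 = -x'`,
`x' - 1 = -x`.  `bt (π t) = π b` if `108 b = B(t)` (`108` is nonzero in `k`).  `(a : k)^p = a` for integers.
(1) `P_b1`: `P_inv` with `x = π r5`, `y = π t0`: `P(π b1) = (π r5)^(p-1) P(π b0)`, and `π r5 ≠ 0`.
(2) `rel`: `D3_inv` with `t = t1`, `t' = -t1'` and `D3_neg`: `-ε (π t1)^(3p-1) D3(t1') = 2 D3(t1)`;
`Y_eq` twice: `(x-1)^p D3(t1) = 108 Y(b1) = (x'-1)^p D3(t1')`.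
So `2 (x'-1)^p D3(t1') = -ε (π t1)^(3p-1) (x-1)^p D3(t1')`, i.e. with `D = D3(t1')`:
`2 x^p D = -ε (π t1)^(3p-1) x'^p D`; as `x = (π t1)^2 ≠ 0`:  `2 D = -ε (π t1)^(p-1) x'^p D`.
(3) `Y_b0`: `P(π b1) ≠ 0`.  `P_inv` with `x = π t1`, `y = -π t1'` and `P_neg`:
`P(π b1) = ε (π t1)^(p-1) P(π b1)`, so `ε (π t1)^(p-1) = 1`.  If `D ≠ 0`: `2 = -x'^p`, so
`(x' + 2)^p = 0`, `x' = -2`, but `x'^2 - x' + 4 = 0`: `10 = 0` in `k`, contradiction (`p ≥ 7`).
So `D = 0`, `108 Y(b1) = 0`; `Y_eq` for `t = r5` (`(π r5)^2 - 1 = 4`): `D3(r5) = 0`;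
`D3_inv` with `t = t0`, `t' = r5`: `D3(t0) = 0`; `Y_eq` for `t0`: `Y(b0) = 0`.
(4) `ss`: `P(π b1) = 0` (by (1)); `π b1 ≠ 0` (`P(0) = 1`), `27 π b1 ≠ 1` (`54 b1 - 2 = r5 - 1`, and
`(r5-1)(r5+1) = 4`), so `R(π b1) ≠ 0` (`R_ne_zero`) and `Y(b1) = 3 (π b1)^p R(π b1) ≠ 0`, hence `D ≠ 0`.
By (2): `2 π t1 = -ε (π t1)^p x'^p`; squaring (`ε^2 = 1`): `4 x = x^p x'^(2p) = (4 x')^p = 4 x'^p`.  So
`x'^p = x`, i.e. `(1 + s)^p = 1 - s` (`2^p = 2`), `s^p = -s`.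
(Checked numerically.)
-/

namespace SC15

variable {p : ℕ} [Fact p.Prime] {W k : Type*} [CommRing W] [Field k] [Algebra (ZMod p) k]

omit [Algebra (ZMod p) k] in
private lemma cm_ne (L : Lift p W k) {n : ℕ} (h0 : 0 < n) (hn : n < p) : (n : k) ≠ 0 := by
  have := L.charP
  intro h
  exact absurd (Nat.le_of_dvd h0 ((CharP.cast_eq_zero_iff k p n).1 h)) (by omega)

omit [Algebra (ZMod p) k] in
private lemma cm_2 (h7 : 7 ≤ p) (L : Lift p W k) : (2 : k) ≠ 0 := by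
  have := cm_ne L (n := 2) (by norm_num) (by omega)
  exact_mod_cast this

omit [Algebra (ZMod p) k] in
private lemma cm_3 (h7 : 7 ≤ p) (L : Lift p W k) : (3 : k) ≠ 0 := by
  have := cm_ne L (n := 3) (by norm_num) (by omega)
  exact_mod_cast this

omit [Algebra (ZMod p) k] in
private lemma cm_5 (h7 : 7 ≤ p) (L : Lift p W k) : (5 : k) ≠ 0 := by
  have := cm_ne L (n := 5) (by norm_num) (by omega)
  exact_mod_cast this

omit [Algebra (ZMod p) k] in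
private lemma cm_108 (h7 : 7 ≤ p) (L : Lift p W k) : (108 : k) ≠ 0 := by
  have h : (108 : k) = 2 ^ 2 * 3 ^ 3 := by norm_num
  rw [h]
  exact mul_ne_zero (pow_ne_zero _ (cm_2 h7 L)) (pow_ne_zero _ (cm_3 h7 L))

omit [Algebra (ZMod p) k] in
private lemma cm_54 (h7 : 7 ≤ p) (L : Lift p W k) : (54 : k) ≠ 0 := by
  have h : (54 : k) = 2 * 3 ^ 3 := by norm_num
  rw [h]
  exact mul_ne_zero (cm_2 h7 L) (pow_ne_zero _ (cm_3 h7 L))

omit [Algebra (ZMod p) k] in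
private lemma cm_data (h7 : 7 ≤ p) (L : Lift p W k) {r5 r3 b0 : W} (h5 : r5 ^ 2 = 5)
    (h3 : r3 ^ 2 = -3) (hb : 54 * 25 * b0 = 25 + 11 * r5) :
    ∃ t1 t1' t0 b1 : W, t1 * t1' = 2 ∧ r5 * t0 = -2 ∧ 54 * b1 = 1 + r5 ∧
      108 * b1 = r5 ^ 3 - 3 * r5 + 2 ∧ 108 * b1 = t1 ^ 3 - 3 * t1 + 2 ∧
      108 * b1 = t1' ^ 3 - 3 * t1' + 2 ∧ 108 * b0 = t0 ^ 3 - 3 * t0 + 2 ∧
      2 * t1 ^ 2 = 1 - r5 * r3 ∧ 2 * t1' ^ 2 = 1 + r5 * r3 := by
  obtain ⟨h, hh⟩ : ∃ h : W, 2 * h = 1 :=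
    (L.unit 2 (by rw [map_ofNat]; exact cm_2 h7 L)).exists_right_inv
  obtain ⟨g, hg⟩ : ∃ g : W, 5 * g = 1 :=
    (L.unit 5 (by rw [map_ofNat]; exact cm_5 h7 L)).exists_right_inv
  obtain ⟨m, hm⟩ : ∃ m : W, 54 * m = 1 :=
    (L.unit 54 (by rw [map_ofNat]; exact cm_54 h7 L)).exists_right_inv
  have hb1 : 54 * (m * (1 + r5)) = 1 + r5 := by linear_combination (1 + r5) * hm
  refine ⟨h * (-r5 + r3), h * (-r5 - r3), -2 * r5 * g, m * (1 + r5), ?_, ?_, hb1, ?_, ?_, ?_, ?_,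
    ?_, ?_⟩
  · linear_combination h ^ 2 * h5 - h ^ 2 * h3 + 2 * (2 * h + 1) * hh
  · linear_combination (-2 * g) * h5 - 2 * hg
  · linear_combination 2 * hb1 - r5 * h5
  · linear_combination 2 * hb1 - (2 * r5 + h * (r5 + 3 * r3) * (2 * h + 1)) * hh -
      h ^ 3 * (-r5 + 3 * r3) * h5 - h ^ 3 * (-3 * r5 + r3) * h3
  · linear_combination 2 * hb1 - (2 * r5 + h * (r5 - 3 * r3) * (2 * h + 1)) * hh -
      h ^ 3 * (-r5 - 3 * r3) * h5 - h ^ 3 * (-3 * r5 - r3) * h3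
  · linear_combination 2 * g ^ 2 * hb + (2 * (5 * g + 1) - 108 * b0 * (5 * g + 1) +
      8 * r5 * g ^ 2 + 6 * r5 * g) * hg + 8 * g ^ 3 * r5 * h5
  · linear_combination 2 * h ^ 2 * h5 + 2 * h ^ 2 * h3 + (1 - r5 * r3) * (2 * h + 1) * hh
  · linear_combination 2 * h ^ 2 * h5 + 2 * h ^ 2 * h3 + (1 + r5 * r3) * (2 * h + 1) * hh

omit [Algebra (ZMod p) k] in
/-- the value of `bt` -/
private lemma cm_bt (h7 : 7 ≤ p) (L : Lift p W k) {b t : W} (h : 108 * b = t ^ 3 - 3 * t + 2) :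
    bt (L.π t) = L.π b := by
  have h1 := congrArg L.π h
  rw [map_mul, map_ofNat, map_add, map_sub, map_mul, map_pow, map_ofNat, map_ofNat] at h1
  rw [bt, ← h1, mul_div_cancel_left₀ _ (cm_108 h7 L)]

omit [Fact p.Prime] [Algebra (ZMod p) k] in
private lemma cm_eps : ((eps p : ℤ) : k) ^ 2 = 1 := by
  rw [eps]
  split_ifs <;> simp

omit [CommRing W] in
private lemma cm_two_pow : (2 : k) ^ p = 2 := by
  have h := congrArg (algebraMap (ZMod p) k) (ZMod.pow_card (2 : ZMod p))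
  rwa [map_pow, map_ofNat] at h

private lemma cm_rel (h7 : 7 ≤ p) (L : Lift p W k) {H : Polynomial (ZMod p)} (hH : IsH p H)
    {t1 t1' b1 : W} (ht : t1 * t1' = 2) (hb : 108 * b1 = t1 ^ 3 - 3 * t1 + 2)
    (hb' : 108 * b1 = t1' ^ 3 - 3 * t1' + 2) (hx : L.π t1 ^ 2 + L.π t1' ^ 2 = 1) :
    2 * D3 L H t1' = -((eps p : k) * L.π t1 ^ (p - 1) * (L.π t1' ^ 2) ^ p * D3 L H t1') := by
  have hp : p.Prime := Fact.out
  have hodd : Odd p := hp.odd_of_ne_two (by omega)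
  have a1 := D3_inv h7 L hH (t := t1) (t' := -t1') (by linear_combination (-1 : W) * ht)
  rw [D3_neg h7 L hH] at a1
  have a2 := Y_eq h7 L hH hb
  have a3 := Y_eq h7 L hH hb'
  have e1 : L.π t1 ^ 2 - 1 = -(L.π t1' ^ 2) := by linear_combination hx
  have e2 : L.π t1' ^ 2 - 1 = -(L.π t1 ^ 2) := by linear_combination hx
  rw [e1, hodd.neg_pow] at a2
  rw [e2, hodd.neg_pow] at a3
  have hne : L.π t1 ≠ 0 := by
    intro h0
    have h2 := congrArg L.π ht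
    rw [map_mul, map_ofNat, h0, zero_mul] at h2
    exact cm_2 h7 L h2.symm
  have e3 : L.π t1 ^ (3 * p - 1) = (L.π t1 ^ 2) ^ p * L.π t1 ^ (p - 1) := by
    rw [← pow_mul, ← pow_add]
    congr 1
    omega
  rw [e3] at a1
  apply mul_left_cancel₀ (pow_ne_zero p (pow_ne_zero 2 hne))
  linear_combination (-(L.π t1' ^ 2) ^ p) * a1 - 2 * a2 + 2 * a3

theorem Y_b0 (h7 : 7 ≤ p) (L : Lift p W k) {r5 r3 b0 : W} (h5 : r5 ^ 2 = 5) (h3 : r3 ^ 2 = -3)
    (hb : 54 * 25 * b0 = 25 + 11 * r5) (hP : L.π (P p b0) ≠ 0) : Y L b0 = 0 := by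
  have hp : p.Prime := Fact.out
  have hchar : CharP k p := L.charP
  obtain ⟨t1, t1', t0, b1, ht, ht0, hb1, q1, q2, q3, q4, s1, s2⟩ := cm_data h7 L h5 h3 hb
  obtain ⟨H, hH⟩ := exists_H (p := p) h7
  have h2 := cm_2 h7 L
  -- the images
  have k5 : L.π r5 ^ 2 = 5 := by rw [← map_pow, h5, map_ofNat]
  have k1 : 2 * L.π t1 ^ 2 = 1 - L.π (r5 * r3) := by
    have := congrArg L.π s1
    rwa [map_mul, map_ofNat, map_pow, map_sub, map_one] at this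
  have k2 : 2 * L.π t1' ^ 2 = 1 + L.π (r5 * r3) := by
    have := congrArg L.π s2
    rwa [map_mul, map_ofNat, map_pow, map_add, map_one] at this
  have kt : L.π t1 * L.π t1' = 2 := by rw [← map_mul, ht, map_ofNat]
  have kt0 : L.π r5 * L.π t0 = -2 := by rw [← map_mul, ht0, map_neg, map_ofNat]
  have hx : L.π t1 ^ 2 + L.π t1' ^ 2 = 1 := by
    apply mul_left_cancel₀ h2
    linear_combination k1 + k2
  have hr5 : L.π r5 ≠ 0 := by
    intro h0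
    rw [h0] at k5
    exact cm_5 h7 L (by rw [← k5]; ring)
  have hrel := cm_rel h7 L hH ht q2 q3 hx
  have hPb1 : P p (L.π b1) ≠ 0 := by
    have h1 := P_inv (p := p) h7 kt0
    rw [cm_bt h7 L q1, cm_bt h7 L q4] at h1
    rw [h1]
    refine mul_ne_zero (pow_ne_zero _ hr5) ?_
    rwa [← map_P]
  have heps : (eps p : k) * L.π t1 ^ (p - 1) = 1 := by
    have h1 := P_inv (p := p) h7 (x := L.π t1) (y := -L.π t1') (by rw [mul_neg, kt])
    rw [P_neg h7, cm_bt h7 L q2, cm_bt h7 L q3] at h1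
    apply mul_right_cancel₀ hPb1
    linear_combination (-1 : k) * h1
  have hD : D3 L H t1' = 0 := by
    by_contra hD
    rw [heps, one_mul] at hrel
    have h1 : (2 : k) = -((L.π t1' ^ 2) ^ p) := by
      apply mul_right_cancel₀ hD
      linear_combination hrel
    have h3 : (L.π t1' ^ 2 + 2) ^ p = 0 := by
      rw [add_pow_char]
      have h4 : (2 : k) ^ p = 2 := cm_two_pow
      rw [h4]
      linear_combination h1
    have h4 : L.π t1' ^ 2 = -2 := by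
      have := pow_eq_zero_iff (hp.ne_zero) |>.1 h3
      linear_combination this
    have h6 : L.π t1 ^ 2 * L.π t1' ^ 2 = 4 := by
      rw [← mul_pow, kt]; norm_num
    have h7' : (2 : k) * 5 = 0 := by
      have : L.π t1 ^ 2 = 3 := by linear_combination hx - h4
      rw [this, h4] at h6
      linear_combination (-1 : k) * h6
    exact mul_ne_zero h2 (cm_5 h7 L) h7'
  have hY1 : Y L b1 = 0 := by
    have h1 := Y_eq h7 L hH q3
    rw [hD, mul_zero] at h1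
    exact (mul_eq_zero.1 h1).resolve_left (cm_108 h7 L)
  have hD5 : D3 L H r5 = 0 := by
    have h1 := Y_eq h7 L hH q1
    rw [hY1, mul_zero, k5] at h1
    refine (mul_eq_zero.1 h1.symm).resolve_left (pow_ne_zero _ ?_)
    have : (5 : k) - 1 = 2 * 2 := by norm_num
    rw [this]
    exact mul_ne_zero h2 h2
  have hD0 : D3 L H t0 = 0 := by
    have h1 := D3_inv h7 L hH (t := t0) (t' := r5) (by rw [mul_comm]; exact ht0)
    rw [hD5, mul_zero] at h1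
    exact (mul_eq_zero.1 h1.symm).resolve_left h2
  have h1 := Y_eq h7 L hH q4
  rw [hD0, mul_zero] at h1
  exact (mul_eq_zero.1 h1).resolve_left (cm_108 h7 L)

theorem ss (h7 : 7 ≤ p) (L : Lift p W k) {r5 r3 b0 : W} (h5 : r5 ^ 2 = 5) (h3 : r3 ^ 2 = -3)
    (hb : 54 * 25 * b0 = 25 + 11 * r5) (hP : L.π (P p b0) = 0) :
    L.π (r5 * r3) ^ p = -L.π (r5 * r3) := by
  have hp : p.Prime := Fact.out
  have hchar : CharP k p := L.charP
  obtain ⟨t1, t1', t0, b1, ht, ht0, hb1, q1, q2, q3, q4, s1, s2⟩ := cm_data h7 L h5 h3 hb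
  obtain ⟨H, hH⟩ := exists_H (p := p) h7
  have h2 := cm_2 h7 L
  -- the images
  have k5 : L.π r5 ^ 2 = 5 := by rw [← map_pow, h5, map_ofNat]
  have k1 : 2 * L.π t1 ^ 2 = 1 - L.π (r5 * r3) := by
    have := congrArg L.π s1
    rwa [map_mul, map_ofNat, map_pow, map_sub, map_one] at this
  have k2 : 2 * L.π t1' ^ 2 = 1 + L.π (r5 * r3) := by
    have := congrArg L.π s2
    rwa [map_mul, map_ofNat, map_pow, map_add, map_one] at this
  have kb : 54 * L.π b1 = 1 + L.π r5 := by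
    have := congrArg L.π hb1
    rwa [map_mul, map_ofNat, map_add, map_one] at this
  have kt : L.π t1 * L.π t1' = 2 := by rw [← map_mul, ht, map_ofNat]
  have kt0 : L.π r5 * L.π t0 = -2 := by rw [← map_mul, ht0, map_neg, map_ofNat]
  have hx : L.π t1 ^ 2 + L.π t1' ^ 2 = 1 := by
    apply mul_left_cancel₀ h2
    linear_combination k1 + k2
  have hrel := cm_rel h7 L hH ht q2 q3 hx
  have hPb1 : P p (L.π b1) = 0 := by
    have h1 := P_inv (p := p) h7 kt0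
    rw [cm_bt h7 L q1, cm_bt h7 L q4, ← map_P L.π p b0, hP, mul_zero] at h1
    exact h1
  have h4 : (2 : k) * 2 ≠ 0 := mul_ne_zero h2 h2
  have hb0 : L.π b1 ≠ 0 := by
    intro h0
    rw [h0, mul_zero] at kb
    have : L.π r5 = -1 := by linear_combination (-1 : k) * kb
    rw [this] at k5
    apply h4
    linear_combination (-1 : k) * k5
  have hb27 : 27 * L.π b1 ≠ 1 := by
    intro h0
    have : L.π r5 = 1 := by linear_combination (-1 : k) * kb + 2 * h0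
    rw [this] at k5
    apply h4
    linear_combination (-1 : k) * k5
  have hR := R_ne_zero (p := p) h7 hPb1 hb27
  have hY : 108 * Y L b1 ≠ 0 := by
    rw [Y, hPb1, mul_zero, sub_zero]
    exact mul_ne_zero (cm_108 h7 L) (mul_ne_zero (mul_ne_zero (cm_3 h7 L) (pow_ne_zero _ hb0)) hR)
  have hD : D3 L H t1' ≠ 0 := by
    intro h0
    apply hY
    rw [Y_eq h7 L hH q3, h0, mul_zero]
  have h2p : (2 : k) ^ p = 2 := cm_two_pow
  have e1 : (2 : k) = -((eps p : k) * L.π t1 ^ (p - 1) * (L.π t1' ^ 2) ^ p) := by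
    apply mul_right_cancel₀ hD
    linear_combination hrel
  have ee := cm_eps (p := p) (k := k)
  have hne : L.π t1 ≠ 0 := by
    intro h0
    rw [h0, zero_mul] at kt
    exact h2 kt.symm
  have e2 : L.π t1 ^ p = L.π t1 ^ (p - 1) * L.π t1 := by
    rw [← pow_succ]
    congr 1
    have := hp.pos
    omega
  -- square
  have e3 : 4 * L.π t1 ^ 2 = (L.π t1 ^ 2) ^ p * ((L.π t1' ^ 2) ^ p) ^ 2 := by
    have e4 : 2 * L.π t1 = -((eps p : k) * L.π t1 ^ p * (L.π t1' ^ 2) ^ p) := by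
      rw [e2]
      linear_combination L.π t1 * e1
    have e5 : (2 * L.π t1) ^ 2 = (-((eps p : k) * L.π t1 ^ p * (L.π t1' ^ 2) ^ p)) ^ 2 := by
      rw [e4]
    have e6 : (L.π t1 ^ 2) ^ p = (L.π t1 ^ p) ^ 2 := by rw [← pow_mul, ← pow_mul, mul_comm]
    rw [e6]
    linear_combination e5 + (L.π t1 ^ p) ^ 2 * ((L.π t1' ^ 2) ^ p) ^ 2 * ee
  have e7 : (L.π t1 ^ 2) ^ p * (L.π t1' ^ 2) ^ p = 4 := by
    rw [← mul_pow, ← mul_pow, kt]
    have : ((2 : k) ^ 2) ^ p = (2 ^ p) ^ 2 := by rw [← pow_mul, ← pow_mul, mul_comm]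
    rw [this, h2p]
    norm_num
  have e8 : L.π t1 ^ 2 = (L.π t1' ^ 2) ^ p := by
    apply mul_left_cancel₀ h4
    linear_combination e3 + (L.π t1' ^ 2) ^ p * e7
  have e9 : (2 * L.π t1' ^ 2) ^ p = 1 + L.π (r5 * r3) ^ p := by
    rw [k2, add_pow_char, one_pow]
  rw [mul_pow, h2p, ← e8, k1] at e9
  linear_combination (-1 : k) * e9

end SC15
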