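import Pool.Agent.SC15.A.Refl

/-!
# SC15-A-Claus: `∑_{j<p} C(2j,j) u_j (b (1 - 27 b))^j = P(b)^2` modulo `p^2`

PLAN. Enough in `(ZMod (p^2))[X]` with `b = X` (then use `exists_hom` and evaluate).  Let
`z = X - 27 X^2`, `z' = 1 - 54 X`, so `z'^2 = 1 - 108 z`, `z'' = -54`.  Consider the linear operator
`M Y = (z (z Y')')' - 24 z Y' - 12 z' Y`.
(a) `f = P p X` satisfies `(z f')' = 6 f` (`P_ode`), hence `Y = f^2` satisfies `M Y = 0`:
`(zY')' = 2 z f'^2 + 12 f^2`, `z (zY')' = 2 (z f')^2 + 12 z f^2`, whose derivative is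
`24 z f f' + 12 z' f^2 + 24 z f f' = 24 z Y' + 12 z' Y`.
(b) `T = ∑_{k<p} g_k X^k`, `g_k = C(2k,k) u_k`, `(k+1)^3 g_{k+1} = 6 (2k+1)(3k+1)(3k+2) g_k`, satisfies
`(X H)' = 24 X T' + 12 T` with `H = X (1 - 108 X) T'' + (1 - 162 X) T'` (coefficient of `X^(k-1)`:
`k^3 g_k - 6(2k-1)(3k-1)(3k-2) g_{k-1}`; for `k = p` it is `0` since `p^2 ∣ u_{p-1}`).  Then
`Y = T.comp z` satisfies `M Y = 0`: `(z Y')' = H.comp z` and `(z * H.comp z)' = z' * (X H)'.comp z`.
(c) the coefficients of degree `≥ p` of both sides are `0`: `T.comp z`: `g_k = 0` for `2 k > p`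
(`p ∣ C(2k,k)` and `p ∣ u_k`), and `z^k` has degree `2 k < p` otherwise; `f^2`: if `i + j ≥ p`,
`i, j < p` then either one of them is `> 2p/3` (`p^2 ∣ u_i`), or both are `> p/3` (`p ∣ u_i`,
`p ∣ u_j`).
(d) The difference `D = T.comp z - f^2` has `M D = 0`, `D(0) = 0`.  If `D ≠ 0` let `n` be its least
exponent, `1 ≤ n < p`; the coefficient of `X^(n-1)` in `M D` is `n^3 D_n`, so `D_n = 0` as `n` is a
unit.  Contradiction.
(Checked numerically for `p ≤ 23`.)
-/

namespace SC15

open Finset

section aux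

open Polynomial

variable {R : Type*} [CommRing R]

/-- the third order operator -/
private noncomputable def MM (Y : R[X]) : R[X] :=
  derivative ((X - 27 * X ^ 2) * derivative ((X - 27 * X ^ 2) * derivative Y)) -
    24 * (X - 27 * X ^ 2) * derivative Y - 12 * (1 - 54 * X) * Y

private lemma dz : derivative (X - 27 * X ^ 2 : R[X]) = 1 - 54 * X := by
  simp only [derivative_sub, derivative_X, derivative_mul, derivative_ofNat, zero_mul,
    derivative_X_pow, zero_add, Nat.cast_ofNat, Nat.add_one_sub_one, pow_one, map_ofNat]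
  ring

private lemma MM_sub (Y Z : R[X]) : MM (Y - Z) = MM Y - MM Z := by
  unfold MM
  simp only [derivative_sub, mul_sub]
  ring

private lemma MM_sq (f : R[X]) (hf : derivative ((X - 27 * X ^ 2) * derivative f) = 6 * f) :
    MM (f * f) = 0 := by
  unfold MM
  have h1 : (X - 27 * X ^ 2) * derivative (f * f) =
      2 * (f * ((X - 27 * X ^ 2) * derivative f)) := by
    rw [derivative_mul]; ring
  have h2 : derivative (2 * (f * ((X - 27 * X ^ 2) * derivative f))) =
      2 * (derivative f * ((X - 27 * X ^ 2) * derivative f)) + 12 * (f * f) := by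
    rw [derivative_mul, derivative_ofNat, zero_mul, zero_add, derivative_mul, hf]
    ring
  have h3 : (X - 27 * X ^ 2) *
      (2 * (derivative f * ((X - 27 * X ^ 2) * derivative f)) + 12 * (f * f)) =
      2 * (((X - 27 * X ^ 2) * derivative f) * ((X - 27 * X ^ 2) * derivative f)) +
        12 * ((X - 27 * X ^ 2) * (f * f)) := by ring
  have h4 : derivative (2 * (((X - 27 * X ^ 2) * derivative f) *
      ((X - 27 * X ^ 2) * derivative f)) + 12 * ((X - 27 * X ^ 2) * (f * f))) =
      24 * (X - 27 * X ^ 2) * derivative (f * f) + 12 * (1 - 54 * X) * (f * f) := by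
    rw [derivative_add, derivative_mul, derivative_mul (f := (12 : R[X])),
      derivative_mul (f := (X - 27 * X ^ 2) * derivative f), hf,
      derivative_mul (f := (X - 27 * X ^ 2)) (g := f * f), dz,
      derivative_mul (f := f) (g := f), derivative_ofNat, derivative_ofNat]
    ring
  rw [h1, h2, h3, h4]
  ring

private lemma MM_comp (T : R[X]) (hT : derivative (X * (-54 * (X * derivative T) +
    (1 - 108 * X) * derivative (X * derivative T))) = 24 * (X * derivative T) + 12 * T) :
    MM (T.comp (X - 27 * X ^ 2)) = 0 := by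
  unfold MM
  have hofn : ∀ (n : ℕ) [n.AtLeastTwo], (OfNat.ofNat n : R[X]).comp (X - 27 * X ^ 2) =
      OfNat.ofNat n := by
    intro n _
    exact map_ofNat (compRingHom (X - 27 * X ^ 2 : R[X])) n
  have h1 : (X - 27 * X ^ 2) * derivative (T.comp (X - 27 * X ^ 2)) =
      (1 - 54 * X) * (X * derivative T).comp (X - 27 * X ^ 2) := by
    rw [derivative_comp, dz, mul_comp, X_comp]; ring
  have h2 : derivative ((1 - 54 * X) * (X * derivative T).comp (X - 27 * X ^ 2)) =
      (-54 * (X * derivative T) +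
        (1 - 108 * X) * derivative (X * derivative T)).comp (X - 27 * X ^ 2) := by
    rw [derivative_mul, derivative_comp, dz]
    simp only [add_comp, mul_comp, sub_comp, neg_comp, X_comp, one_comp, hofn, derivative_sub,
      derivative_one, derivative_mul, derivative_ofNat, derivative_X]
    ring
  have h3 : (X - 27 * X ^ 2) * (-54 * (X * derivative T) +
        (1 - 108 * X) * derivative (X * derivative T)).comp (X - 27 * X ^ 2) =
      (X * (-54 * (X * derivative T) +
        (1 - 108 * X) * derivative (X * derivative T))).comp (X - 27 * X ^ 2) := by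
    rw [mul_comp, X_comp]
  have h4 : 24 * (X - 27 * X ^ 2) * derivative (T.comp (X - 27 * X ^ 2)) =
      24 * ((X - 27 * X ^ 2) * derivative (T.comp (X - 27 * X ^ 2))) := by ring
  rw [h4, h1, h2, h3, derivative_comp, hT, dz]
  simp only [add_comp, mul_comp, X_comp, hofn]
  ring

/-- lowest coefficient of `MM (X^(m+1) * E)` -/
private lemma MM_low (m : ℕ) (E : R[X]) :
    (MM (X ^ (m + 1) * E)).coeff m = ((m : R) + 1) ^ 3 * E.coeff 0 := by
  have hd : ∀ F : R[X], derivative (X ^ (m + 1) * F) =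
      X ^ m * (((m : R[X]) + 1) * F + X * derivative F) := by
    intro F
    rw [derivative_mul, derivative_X_pow, Nat.add_sub_cancel, map_natCast]
    push_cast
    ring
  have hz : ∀ F : R[X], (X - 27 * X ^ 2) * (X ^ m * F) = X ^ (m + 1) * ((1 - 27 * X) * F) := by
    intro F; ring
  have hc : ∀ F : R[X], ((((m : R[X]) + 1) * F + X * derivative F)).coeff 0 =
      ((m : R) + 1) * F.coeff 0 := by
    intro F
    rw [coeff_add, coeff_X_mul_zero, add_zero, mul_coeff_zero, coeff_add, coeff_one_zero,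
      coeff_natCast_ite, if_pos rfl]
  have hc' : ∀ F : R[X], (((1 - 27 * X) * F)).coeff 0 = F.coeff 0 := by
    intro F
    rw [sub_mul, one_mul, coeff_sub, mul_assoc, mul_comm (27 : R[X]), mul_assoc,
      coeff_X_mul_zero, sub_zero]
  unfold MM
  rw [hd, hz, hd, hz, hd]
  set E1 : R[X] := ((m : R[X]) + 1) * E + X * derivative E
  set E2 : R[X] := ((m : R[X]) + 1) * ((1 - 27 * X) * E1) + X * derivative ((1 - 27 * X) * E1)
  set E3 : R[X] := ((m : R[X]) + 1) * ((1 - 27 * X) * E2) + X * derivative ((1 - 27 * X) * E2)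
  have h : X ^ m * E3 - 24 * (X - 27 * X ^ 2) * (X ^ m * E1) -
      12 * (1 - 54 * X) * (X ^ (m + 1) * E) =
      X ^ m * (E3 - X * (24 * (1 - 27 * X) * E1 + 12 * (1 - 54 * X) * E)) := by ring
  rw [h, coeff_X_pow_mul', if_pos le_rfl, Nat.sub_self, coeff_sub, coeff_X_mul_zero, sub_zero,
    hc, hc', hc, hc', hc]
  ring

private lemma MM_unique {p : ℕ} (hu : ∀ m, m + 1 < p → IsUnit ((m : R) + 1)) (D : R[X])
    (hM : MM D = 0) (h0 : D.coeff 0 = 0) (hdeg : ∀ n, p ≤ n → D.coeff n = 0) : D = 0 := by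
  have key : ∀ n, n ≤ p → X ^ n ∣ D := by
    intro n
    induction n with
    | zero => intro _; simp
    | succ n ih =>
      intro hn
      obtain ⟨E, hE⟩ := ih (by omega)
      rcases n with _ | m
      · rw [X_pow_dvd_iff]
        intro d hd
        have : d = 0 := by omega
        rw [this, h0]
      · have h1 := MM_low m E
        rw [← hE, hM, coeff_zero] at h1
        have h2 : E.coeff 0 = 0 := by
          have := (hu m (by omega)).pow 3
          exact (this.mul_right_eq_zero).1 h1.symm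
        obtain ⟨F, hF⟩ := X_dvd_iff.2 h2
        exact ⟨F, by rw [hE, hF]; ring⟩
  ext n
  rw [coeff_zero]
  by_cases hn : n < p
  · exact X_pow_dvd_iff.1 (key p le_rfl) n hn
  · exact hdeg n (by omega)

private lemma coeff_theta (T : R[X]) (n : ℕ) :
    (X * derivative T).coeff n = (n : R) * T.coeff n := by
  rcases n with _ | n
  · simp
  · rw [coeff_X_mul, coeff_derivative, mul_comm]
    push_cast
    ring

private lemma hyp_ode (T : R[X]) (hT : ∀ n : ℕ, ((n : R) + 1) ^ 3 * T.coeff (n + 1) =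
    6 * (2 * n + 1) * (3 * n + 1) * (3 * n + 2) * T.coeff n) :
    derivative (X * (-54 * (X * derivative T) +
      (1 - 108 * X) * derivative (X * derivative T))) = 24 * (X * derivative T) + 12 * T := by
  have h1 : X * (-54 * (X * derivative T) +
      (1 - 108 * X) * derivative (X * derivative T)) =
      X * (derivative (X * derivative T) - 54 * (X * derivative T) -
        108 * (X * derivative (X * derivative T))) := by ring
  ext n
  rw [h1, coeff_derivative, coeff_X_mul, coeff_sub, coeff_sub, coeff_ofNat_mul, coeff_ofNat_mul,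
    coeff_theta, coeff_theta, coeff_theta, coeff_derivative, coeff_theta, coeff_add,
    coeff_ofNat_mul, coeff_ofNat_mul, coeff_theta]
  have h2 := hT n
  push_cast
  linear_combination h2

variable {p : ℕ}

/-- the polynomial `T` -/
private noncomputable def TT (p : ℕ) : (ZMod (p ^ 2))[X] :=
  ∑ k ∈ range p, C (((Nat.centralBinom k * u k : ℕ) : ZMod (p ^ 2))) * X ^ k

private lemma coeff_TT (n : ℕ) : (TT p).coeff n =
    if n < p then ((Nat.centralBinom n * u n : ℕ) : ZMod (p ^ 2)) else 0 := by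
  rw [TT, finsetSum_coeff]
  simp only [coeff_C_mul_X_pow]
  rw [Finset.sum_ite_eq]
  simp only [mem_range]

private lemma coeff_PX (n : ℕ) : (P p (X : (ZMod (p ^ 2))[X])).coeff n =
    if n < p then ((u n : ℕ) : ZMod (p ^ 2)) else 0 := by
  rw [P, finsetSum_coeff]
  simp only [← C_eq_natCast, coeff_C_mul_X_pow]
  rw [Finset.sum_ite_eq]
  simp only [mem_range]

private lemma cast_zero_of {m : ℕ} (h : p ^ 2 ∣ m) : (m : ZMod (p ^ 2)) = 0 :=
  (ZMod.natCast_eq_zero_iff m (p ^ 2)).2 h

private lemma dvd_cb {k : ℕ} (hp : p.Prime) (hk : k < p) (h : p ≤ 2 * k) :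
    p ∣ Nat.centralBinom k := by
  rw [Nat.centralBinom_eq_two_mul_choose, two_mul]
  exact hp.dvd_choose_add hk hk (by omega)

private lemma g_zero {k : ℕ} (hp : p.Prime) (hk : k < p) (h : p ≤ 2 * k) :
    ((Nat.centralBinom k * u k : ℕ) : ZMod (p ^ 2)) = 0 := by
  refine cast_zero_of ?_
  rw [pow_two]
  exact mul_dvd_mul (dvd_cb hp hk h) (u_dvd hp hk (by omega))

private lemma TT_rec [Fact p.Prime] (h7 : 7 ≤ p) (n : ℕ) :
    ((n : ZMod (p ^ 2)) + 1) ^ 3 * (TT p).coeff (n + 1) =
    6 * (2 * n + 1) * (3 * n + 1) * (3 * n + 2) * (TT p).coeff n := by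
  have hp : p.Prime := Fact.out
  rw [coeff_TT, coeff_TT]
  have hrec : (n + 1) ^ 3 * (Nat.centralBinom (n + 1) * u (n + 1)) =
      6 * (2 * n + 1) * (3 * n + 1) * (3 * n + 2) * (Nat.centralBinom n * u n) := by
    have h1 := Nat.succ_mul_centralBinom_succ n
    have h2 := u_succ n
    calc (n + 1) ^ 3 * (Nat.centralBinom (n + 1) * u (n + 1)) =
        ((n + 1) * Nat.centralBinom (n + 1)) * ((n + 1) ^ 2 * u (n + 1)) := by ring
      _ = _ := by rw [h1, h2]; ring
  by_cases hn : n + 1 < p
  · rw [if_pos hn, if_pos (by omega)]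
    have := congrArg (fun m : ℕ => (m : ZMod (p ^ 2))) hrec
    push_cast at this ⊢
    exact this
  · rw [if_neg hn, mul_zero]
    by_cases hn' : n < p
    · rw [if_pos hn']
      have hz : ((Nat.centralBinom n * u n : ℕ) : ZMod (p ^ 2)) = 0 :=
        cast_zero_of ((u_dvd_sq hp hn' (by omega)).mul_left _)
      rw [hz, mul_zero]
    · rw [if_neg hn', mul_zero]

private lemma TT_comp (q : (ZMod (p ^ 2))[X]) : (TT p).comp q =
    ∑ k ∈ range p, C (((Nat.centralBinom k * u k : ℕ) : ZMod (p ^ 2))) * q ^ k := by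
  rw [TT, ← coe_compRingHom_apply, map_sum]
  refine Finset.sum_congr rfl fun k _ => ?_
  rw [coe_compRingHom_apply, mul_comp, C_comp, pow_comp, X_comp]

private lemma poly_eq [Fact p.Prime] (h7 : 7 ≤ p) :
    (TT p).comp (X - 27 * X ^ 2) =
      P p (X : (ZMod (p ^ 2))[X]) * P p (X : (ZMod (p ^ 2))[X]) := by
  have hp : p.Prime := Fact.out
  rw [← sub_eq_zero]
  refine MM_unique (p := p) ?_ _ ?_ ?_ ?_
  · intro m hm
    have h1 : IsUnit (((m + 1 : ℕ)) : ZMod (p ^ 2)) := by
      refine (ZMod.isUnit_iff_coprime _ _).2 (Nat.Coprime.pow_right 2 ?_)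
      rw [Nat.coprime_comm, hp.coprime_iff_not_dvd]
      intro hd
      have := Nat.le_of_dvd (by omega) hd
      omega
    push_cast at h1
    exact h1
  · rw [MM_sub, MM_comp _ (hyp_ode _ (TT_rec h7)), MM_sq _ (P_ode h7), sub_zero]
  · rw [coeff_sub, mul_coeff_zero, coeff_PX, if_pos hp.pos, coeff_zero_eq_eval_zero, eval_comp]
    have h0 : eval 0 (X - 27 * X ^ 2 : (ZMod (p ^ 2))[X]) = 0 := by simp
    rw [h0, ← coeff_zero_eq_eval_zero, coeff_TT, if_pos hp.pos, u_zero, Nat.centralBinom_zero]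
    simp
  · intro n hn
    have h1 : ((TT p).comp (X - 27 * X ^ 2)).coeff n = 0 := by
      rw [TT_comp, finsetSum_coeff]
      refine Finset.sum_eq_zero fun k hk => ?_
      have hk' : k < p := mem_range.1 hk
      by_cases h2 : p ≤ 2 * k
      · rw [g_zero hp hk' h2, map_zero, zero_mul, coeff_zero]
      · refine coeff_eq_zero_of_natDegree_lt ?_
        have h3 : natDegree (X - 27 * X ^ 2 : (ZMod (p ^ 2))[X]) ≤ 2 := by compute_degree
        have h4 : natDegree ((X - 27 * X ^ 2 : (ZMod (p ^ 2))[X]) ^ k) ≤ k * 2 :=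
          natDegree_pow_le_of_le k h3
        have h5 := natDegree_C_mul_le (((Nat.centralBinom k * u k : ℕ) : ZMod (p ^ 2)))
          ((X - 27 * X ^ 2 : (ZMod (p ^ 2))[X]) ^ k)
        omega
    rw [coeff_sub, h1, zero_sub, neg_eq_zero, coeff_mul]
    refine Finset.sum_eq_zero fun x hx => ?_
    have hx' : x.1 + x.2 = n := mem_antidiagonal.1 hx
    rw [coeff_PX, coeff_PX]
    by_cases hx1 : x.1 < p
    · by_cases hx2 : x.2 < p
      · rw [if_pos hx1, if_pos hx2, ← Nat.cast_mul]
        refine cast_zero_of ?_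
        by_cases h3 : 2 * p ≤ 3 * x.1
        · exact (u_dvd_sq hp hx1 h3).mul_right _
        · by_cases h4 : 2 * p ≤ 3 * x.2
          · exact (u_dvd_sq hp hx2 h4).mul_left _
          · rw [pow_two]
            exact mul_dvd_mul (u_dvd hp hx1 (by omega)) (u_dvd hp hx2 (by omega))
      · rw [if_neg hx2, mul_zero]
    · rw [if_neg hx1, zero_mul]

end aux

theorem clausen {p : ℕ} [Fact p.Prime] (h7 : 7 ≤ p) {A : Type*} [CommRing A]
    (hA : (p : A) ^ 2 = 0) (b : A) :
    ∑ j ∈ range p, (Nat.centralBinom j : A) * (u j : A) * (b * (1 - 27 * b)) ^ j =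
      P p b ^ 2 := by
  obtain ⟨f, -⟩ := exists_hom hA
  have h := congrArg (Polynomial.eval₂RingHom f b) (poly_eq (p := p) h7)
  have hX : Polynomial.eval₂RingHom f b Polynomial.X = b := by simp
  rw [map_mul, map_P, hX, ← pow_two] at h
  rw [← h, TT_comp, map_sum]
  refine Finset.sum_congr rfl fun j _ => ?_
  rw [map_mul, map_pow, map_sub, map_mul, map_pow, hX, map_ofNat]
  congr 1
  · simp
  · ring

end SC15
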