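import Pool.Agent.SC15.A.Fac

/-!
# SC15-A-LG: the coefficients of the shifted Legendre polynomial modulo `p^2`

`lp_coeff`: `coeff_comp_C_mul_X` / `comp_C_mul_X_coeff` and `coeff_shiftedLegendre`.

PLAN for `S2L`.  Put `N = (p^2-1)/3` (`3 N + 1 = p^2` since `p^2 = 1` modulo `3`), `M = p/3`
(`3 M + 1 = p` if `p = 1` mod 3, `3 M + 2 = p` if `p = 2` mod 3), `χ(t) = 1, -1, 0` for
`t = 1, 2, 0` modulo `3`.  For every `K`
   `(K!)^2 C(N,K) C(N+K,N) (-1)^K = ∏_{l=1}^{K} (l - 1 - N)(l + N)`   (valid for all `K`), hence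
   `(K!)^3 (Lp N).coeff K = ∏_{t=1}^{3K} (t - χ(t) p^2)`  (the factors `t = 3l-2, 3l-1, 3l` are
   `3(l-1-N)`, `3(l+N)`, `3l`), and in the same way
   `(i!)^3 (Lp M).coeff i = ∏_{t=1}^{3i} (t - χ(p t) p)`  (two cases `p = 1, 2` modulo `3`).
With `K = p i + j`, `c = 3j/p`, separate `p ∤ t` from `t = p t'`, `1 ≤ t' ≤ 3i + c`:
`p t' - χ(p t') p^2 = p (t' - χ(p t') p)`.  With `fact_pf` and cancelling:
   `pf(K)^3 (Lp N).coeff K = E p^c (Lp M).coeff i ∏_{l=1}^{c} (3i + l - χ(p(3i+l)) p)`,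
   `E = ∏_{t ≤ 3K, p ∤ t} (t - χ(t) p^2) = pf(3K)` modulo `p^2`.
Apply `LU` with `q` the last product (`= 3 i + 1` modulo `p` for `c = 1`).
(Checked numerically for `p ≤ 23`.)
-/

namespace SC15

open Polynomial

theorem lp_coeff (N k : ℕ) :
    (Lp N).coeff k = (-27) ^ k * ((N.choose k : ℕ) : ℤ) * (((N + k).choose N : ℕ) : ℤ) := by
  rw [Lp, comp_C_mul_X_coeff, coeff_shiftedLegendre]
  have h : (-27 : ℤ) ^ k = (-1) ^ k * 27 ^ k := by rw [← mul_pow]; norm_num
  rw [h]; ring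

private def chi (t : ℕ) : ℤ := if t % 3 = 1 then 1 else if t % 3 = 2 then -1 else 0

private lemma lp_rec (N K : ℕ) : (Lp N).coeff (K + 1) * ((K : ℤ) + 1) ^ 2 =
    27 * (((K : ℤ) - N) * (K + N + 1)) * (Lp N).coeff K := by
  rw [lp_coeff, lp_coeff]
  have h1 : ((N.choose (K + 1) : ℕ) : ℤ) * ((K : ℤ) + 1) = ((N.choose K : ℕ) : ℤ) * (N - K) := by
    rcases le_or_gt K N with h | h
    · have := Nat.choose_succ_right_eq N K
      have h2 : ((N.choose (K + 1) * (K + 1) : ℕ) : ℤ) = ((N.choose K * (N - K) : ℕ) : ℤ) := by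
        rw [this]
      push_cast [h] at h2
      exact h2
    · rw [Nat.choose_eq_zero_of_lt h, Nat.choose_eq_zero_of_lt (by omega)]; simp
  have h2 : (((N + (K + 1)).choose N : ℕ) : ℤ) * ((K : ℤ) + 1) =
      (((N + K).choose N : ℕ) : ℤ) * (K + N + 1) := by
    have := Nat.choose_mul_succ_eq (N + K) N
    have h3 : N + K + 1 - N = K + 1 := by omega
    rw [h3] at this
    have h4 : (((N + K).choose N * (N + K + 1) : ℕ) : ℤ) =
        (((N + K + 1).choose N * (K + 1) : ℕ) : ℤ) := by rw [this]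
    push_cast at h4
    rw [← add_assoc]
    linear_combination -h4
  rw [pow_succ]
  linear_combination (-27 : ℤ) ^ K * (-27) * (((N + (K + 1)).choose N : ℕ) : ℤ) * (K + 1) * h1 +
    (-27 : ℤ) ^ K * (-27) * ((N.choose K : ℕ) : ℤ) * (N - K) * h2

private lemma chi1 (K : ℕ) : chi (3 * K + 1) = 1 := by
  unfold chi; rw [if_pos (by omega)]
private lemma chi2 (K : ℕ) : chi (3 * K + 2) = -1 := by
  unfold chi; rw [if_neg (by omega), if_pos (by omega)]
private lemma chi3 (K : ℕ) : chi (3 * K + 3) = 0 := by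
  unfold chi; rw [if_neg (by omega), if_neg (by omega)]

private def F (D : ℤ) (m : ℕ) : ℤ := ∏ t ∈ Finset.range m, (((t + 1 : ℕ) : ℤ) - chi (t + 1) * D)

private lemma F_three (N : ℕ) (D : ℤ) (hD : D = 3 * N + 1 ∨ D = -(3 * N + 2)) (K : ℕ) :
    ((K.factorial : ℕ) : ℤ) ^ 3 * (Lp N).coeff K = F D (3 * K) := by
  induction K with
  | zero => rw [lp_coeff]; simp [F]
  | succ K ih =>
    have h1 : F D (3 * (K + 1)) = F D (3 * K) * ((((3 * K + 1 : ℕ) : ℤ) - D) *
        (((3 * K + 2 : ℕ) : ℤ) + D) * ((3 * K + 3 : ℕ) : ℤ)) := by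
      rw [show 3 * (K + 1) = 3 * K + 1 + 1 + 1 by ring]
      unfold F
      rw [Finset.prod_range_succ, Finset.prod_range_succ, Finset.prod_range_succ]
      rw [show 3 * K + 1 + 1 + 1 = 3 * K + 3 by ring, show 3 * K + 1 + 1 = 3 * K + 2 by ring,
        chi1, chi2, chi3]
      ring
    rw [h1, ← ih, Nat.factorial_succ]
    have h2 := lp_rec N K
    have h3 : (((3 * K + 1 : ℕ) : ℤ) - D) * (((3 * K + 2 : ℕ) : ℤ) + D) =
        9 * (((K : ℤ) - N) * (K + N + 1)) := by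
      rcases hD with h | h <;> (rw [h]; push_cast; ring)
    rw [h3]
    push_cast
    linear_combination ((K.factorial : ℕ) : ℤ) ^ 3 * (K + 1) * h2

private lemma split (p : ℕ) (g : ℕ → ℤ) (m : ℕ) :
    ∏ t ∈ Finset.range m, g (t + 1) =
      (∏ t ∈ (Finset.range m).filter (fun t => ¬ p ∣ t + 1), g (t + 1)) *
        ∏ s ∈ Finset.range (m / p), g (p * (s + 1)) := by
  induction m with
  | zero => simp
  | succ m ih =>
    rw [Finset.prod_range_succ, ih, Nat.succ_div, Finset.range_add_one, Finset.filter_insert]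
    by_cases h : p ∣ m + 1
    · rw [if_neg (by simpa using h), if_pos h, Finset.prod_range_succ]
      have h2 : p * (m / p + 1) = m + 1 := by
        have h3 := Nat.succ_div (a := m) (b := p)
        rw [if_pos h] at h3
        rw [← h3, Nat.mul_div_cancel' h]
      rw [h2]; ring
    · rw [if_pos h, if_neg h, Finset.prod_insert (by simp), add_zero]
      ring

private lemma pf_eq (p n : ℕ) :
    pf p n = ∏ t ∈ (Finset.range n).filter (fun t => ¬ p ∣ t + 1), (t + 1) := by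
  rw [pf, Finset.prod_filter, Finset.prod_filter, Finset.prod_range_succ']
  simp

private lemma chi_mul {p : ℕ} (s : ℕ) : chi (p * s) = chi p * chi s := by
  unfold chi
  rw [Nat.mul_mod]
  have h1 : p % 3 = 0 ∨ p % 3 = 1 ∨ p % 3 = 2 := by omega
  have h2 : s % 3 = 0 ∨ s % 3 = 1 ∨ s % 3 = 2 := by omega
  rcases h1 with h1 | h1 | h1 <;> rcases h2 with h2 | h2 | h2 <;> simp [h1, h2]

private lemma F_add (D : ℤ) (a b : ℕ) : F D (a + b) = F D a *
    ∏ l ∈ Finset.range b, (((a + l + 1 : ℕ) : ℤ) - chi (a + l + 1) * D) := by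
  unfold F
  rw [Finset.prod_range_add]

theorem S2L {p : ℕ} [Fact p.Prime] (h7 : 7 ≤ p) {i j : ℕ} (hj : j < p) :
    (((Lp ((p ^ 2 - 1) / 3)).coeff (p * i + j) : ℤ) : ZMod (p ^ 2)) =
      (((Lp (p / 3)).coeff i : ℤ) : ZMod (p ^ 2)) * ((u j : ZMod (p ^ 2)) +
        3 * (p : ZMod (p ^ 2)) * (i : ZMod (p ^ 2)) * (rt p j : ZMod (p ^ 2))) := by
  have hp : p.Prime := Fact.out
  have hp0 : 0 < p := hp.pos
  have hp3 : p % 3 = 1 ∨ p % 3 = 2 := by
    have h : ¬ (3 ∣ p) := fun h => by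
      rcases (Nat.dvd_prime hp).1 h with h | h <;> omega
    omega
  have hsq : p ^ 2 % 3 = 1 := by
    rw [Nat.pow_mod]
    rcases hp3 with h | h <;> simp [h]
  have hsq1 : 1 ≤ p ^ 2 := Nat.one_le_pow _ _ hp0
  have hN : (p : ℤ) ^ 2 = 3 * (((p ^ 2 - 1) / 3 : ℕ) : ℤ) + 1 := by
    have h : p ^ 2 = 3 * ((p ^ 2 - 1) / 3) + 1 := by omega
    exact_mod_cast h
  have hM : chi p * (p : ℤ) = 3 * ((p / 3 : ℕ) : ℤ) + 1 ∨
      chi p * (p : ℤ) = -(3 * ((p / 3 : ℕ) : ℤ) + 2) := by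
    rcases hp3 with h | h
    · left
      have h2 : p = 3 * (p / 3) + 1 := by omega
      have h3 : chi p = 1 := by unfold chi; rw [if_pos h]
      rw [h3, one_mul]
      exact_mod_cast h2
    · right
      have h2 : p = 3 * (p / 3) + 2 := by omega
      have h3 : chi p = -1 := by unfold chi; rw [if_neg (by omega), if_pos h]
      rw [h3]
      have h4 : (p : ℤ) = 3 * ((p / 3 : ℕ) : ℤ) + 2 := by exact_mod_cast h2
      linear_combination -h4
  have e1 := F_three ((p ^ 2 - 1) / 3) ((p : ℤ) ^ 2) (Or.inl hN) (p * i + j)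
  have e2 := F_three (p / 3) (chi p * (p : ℤ)) hM i
  have hc : 3 * (p * i + j) / p = 3 * i + 3 * j / p := by
    rw [show 3 * (p * i + j) = 3 * j + p * (3 * i) by ring, Nat.add_mul_div_left _ _ hp0]
    ring
  set q : ℤ := ∏ l ∈ Finset.range (3 * j / p),
    (((3 * i + l + 1 : ℕ) : ℤ) - chi (3 * i + l + 1) * (chi p * (p : ℤ))) with hq
  set E : ℤ := ∏ t ∈ (Finset.range (3 * (p * i + j))).filter (fun t => ¬ p ∣ t + 1),
    (((t + 1 : ℕ) : ℤ) - chi (t + 1) * (p : ℤ) ^ 2) with hE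
  have e3 : F ((p : ℤ) ^ 2) (3 * (p * i + j)) = E * ((p : ℤ) ^ (3 * i + 3 * j / p) *
      (F (chi p * (p : ℤ)) (3 * i) * q)) := by
    rw [hq, ← F_add (chi p * (p : ℤ)) (3 * i) (3 * j / p)]
    unfold F
    rw [split p (fun t => ((t : ℕ) : ℤ) - chi t * (p : ℤ) ^ 2), hc]
    congr 1
    rw [← Finset.card_range (3 * i + 3 * j / p), ← Finset.prod_const, Finset.card_range,
      ← Finset.prod_mul_distrib]
    refine Finset.prod_congr rfl (fun s _ => ?_)
    rw [chi_mul]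
    push_cast
    ring
  have e4 : (((p * i + j).factorial : ℕ) : ℤ) =
      (pf p (p * i + j) : ℤ) * (p : ℤ) ^ i * ((i.factorial : ℕ) : ℤ) := by
    rw [fact_pf hp i hj]; push_cast; ring
  have e5 : (pf p (p * i + j) : ℤ) ^ 3 * (Lp ((p ^ 2 - 1) / 3)).coeff (p * i + j) =
      E * (p : ℤ) ^ (3 * j / p) * ((Lp (p / 3)).coeff i * q) := by
    rw [e4, e3, ← e2] at e1
    have h0 : ((p : ℤ) ^ i * ((i.factorial : ℕ) : ℤ)) ^ 3 ≠ 0 := by
      apply pow_ne_zero
      apply mul_ne_zero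
      · exact pow_ne_zero _ (by exact_mod_cast hp0.ne')
      · exact_mod_cast (Nat.factorial_pos i).ne'
    apply mul_left_cancel₀ h0
    rw [pow_add, mul_comm 3 i, pow_mul] at e1
    linear_combination e1
  have hp2 : ((p : ℕ) : ZMod (p ^ 2)) ^ 2 = 0 := by
    have := ZMod.natCast_self (p ^ 2)
    rw [← this]; push_cast; rfl
  have e6 : ((E : ℤ) : ZMod (p ^ 2)) = ((pf p (3 * (p * i + j)) : ℕ) : ZMod (p ^ 2)) := by
    rw [hE, pf_eq]
    push_cast
    refine Finset.prod_congr rfl (fun t _ => ?_)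
    rw [hp2]; ring
  refine LU h7 hj _ _ q ?_ ?_ ?_
  · have := congrArg (fun z : ℤ => (z : ZMod (p ^ 2))) e5
    simp only [Int.cast_mul, Int.cast_pow, Int.cast_natCast] at this
    rw [this, e6]
  · intro h
    rw [hq, Nat.div_eq_of_lt h]; simp
  · intro h1 h2
    have h3 : 3 * j / p = 1 := by
      rw [Nat.div_eq_iff hp0]; omega
    rw [hq, h3]
    simp only [Finset.range_one, Finset.prod_singleton, add_zero]
    push_cast
    simp

end SC15
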