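import Pool.Agent.SC15.A.CC
import Pool.Agent.SC15.A.LG

/-!
# SC15-A-Ev: evaluation of `c_{np}` and `Lp` in a ring with `p^2 = 0`

PLAN. Write `K = p i + j` with `j < p` (`Finset.sum` over `range (n*p)` as a double sum, e.g.
`Finset.sum_range_mul`-type lemma / `Finset.sum_nbij'` with `Nat.div_add_mod`), use `S2`
(transported to `A` with `exists_hom` / `natCast_eq_of`) and `b^(p i + j) = (b^p)^i b^j`:
`∑_{i<n} ∑_{j<p} cc(n,i) (u_j + 3 p i rt_j) (b^p)^i b^j`.
For `Lp`: `aeval b F = ∑_{K < m} F.coeff K b^K` for every `m > natDegree F`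
(`Polynomial.aeval_eq_sum_range'`, `natDegree (Lp N) ≤ N`); take `m = p m'` with `m'` large (for
instance `m' = p^2`); `aeval (b^p) (Lp M) = ∑_{i<m'} ...` and
`b^p * aeval (b^p) (derivative (Lp M)) = ∑_{i<m'} i (Lp M).coeff i (b^p)^i`.
`c_mod_p`: from `S2` modulo `p` (or directly), and `cc p i = u i` modulo `p` for `i < p`:
`cc p i = C(2i,i) C(p-1-i,2i)`, `C(p-1-i,2i) = C(-1-i,2i) = C(3i,2i)` modulo `p`.
-/

namespace SC15

open Finset Polynomial

private lemma sum_double {M : Type*} [AddCommMonoid M] (f : ℕ → M) (n p : ℕ) :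
    ∑ K ∈ range (n * p), f K = ∑ i ∈ range n, ∑ j ∈ range p, f (p * i + j) := by
  induction n with
  | zero => simp
  | succ n ih =>
    rw [Nat.succ_mul, sum_range_add, ih, sum_range_succ, Nat.mul_comm n p]

private lemma double_eval {A : Type*} [CommRing A] (n p : ℕ) (b : A) (f : ℕ → A) (g : ℕ → A)
    (h : ∀ i < n, ∀ j < p, f (p * i + j) =
      g i * ((u j : A) + 3 * (p : A) * (i : A) * (rt p j : A))) :
    ∑ K ∈ range (n * p), f K * b ^ K = (∑ i ∈ range n, g i * (b ^ p) ^ i) * P p b +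
      3 * p * (∑ i ∈ range n, (i : A) * g i * (b ^ p) ^ i) * Rt p b := by
  rw [sum_double, P, Rt, sum_mul_sum, mul_assoc, sum_mul_sum, mul_sum, ← sum_add_distrib]
  refine sum_congr rfl (fun i hi => ?_)
  rw [mul_sum, ← sum_add_distrib]
  refine sum_congr rfl (fun j hj => ?_)
  rw [h i (mem_range.1 hi) j (mem_range.1 hj), pow_add, pow_mul]
  ring

theorem c_eval {p : ℕ} [Fact p.Prime] (h7 : 7 ≤ p) {A : Type*} [CommRing A]
    (hA : (p : A) ^ 2 = 0) {n : ℕ} (hn : p ∣ n) (b : A) :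
    c (n * p) b = c n (b ^ p) * P p b + 3 * p * thc n (b ^ p) * Rt p b := by
  obtain ⟨φ, -⟩ := exists_hom hA
  refine double_eval n p b (fun K => (cc (n * p) K : A)) (fun i => (cc n i : A)) ?_
  intro i hi j hj
  have h1 : p * i + j < n * p := by
    have h2 : p * (i + 1) ≤ p * n := Nat.mul_le_mul_left _ hi
    rw [Nat.mul_add, Nat.mul_comm p n] at h2
    omega
  have h2 := congrArg φ (S2 h7 hn hj h1)
  have h3 : φ 3 = 3 := map_ofNat φ 3
  simpa [h3] using h2

private lemma lp_natDegree (N : ℕ) : (Lp N).natDegree ≤ N := by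
  rw [natDegree_le_iff_coeff_eq_zero]
  intro k hk
  rw [lp_coeff, Nat.choose_eq_zero_of_lt hk]
  simp

private lemma aeval_sum {A : Type*} [CommRing A] {F : ℤ[X]} {m : ℕ} (h : F.natDegree < m) (b : A) :
    aeval b F = ∑ i ∈ range m, ((F.coeff i : ℤ) : A) * b ^ i := by
  rw [aeval_eq_sum_range' h]
  refine sum_congr rfl (fun i _ => ?_)
  rw [zsmul_eq_mul]

private lemma aeval_deriv_sum {A : Type*} [CommRing A] {F : ℤ[X]} {m : ℕ} (h : F.natDegree < m)
    (b : A) : b * aeval b (derivative F) =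
      ∑ i ∈ range m, (i : A) * ((F.coeff i : ℤ) : A) * b ^ i := by
  conv_lhs => rw [as_sum_range' F m h]
  rw [derivative_sum, map_sum, mul_sum]
  refine sum_congr rfl (fun i _ => ?_)
  rw [derivative_monomial, aeval_monomial]
  rcases i with _ | i
  · simp
  · rw [Nat.add_sub_cancel, pow_succ]
    simp only [algebraMap_int_eq, eq_intCast, Int.cast_mul, Int.cast_natCast]
    ring

theorem Lp_eval {p : ℕ} [Fact p.Prime] (h7 : 7 ≤ p) {A : Type*} [CommRing A]
    (hA : (p : A) ^ 2 = 0) (b : A) :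
    aeval b (Lp ((p ^ 2 - 1) / 3)) = aeval (b ^ p) (Lp (p / 3)) * P p b +
      3 * p * (b ^ p * aeval (b ^ p) (derivative (Lp (p / 3)))) * Rt p b := by
  obtain ⟨φ, -⟩ := exists_hom hA
  have hM : (Lp (p / 3)).natDegree < p := lt_of_le_of_lt (lp_natDegree _) (by omega)
  have hN : (Lp ((p ^ 2 - 1) / 3)).natDegree < p * p := by
    refine lt_of_le_of_lt (lp_natDegree _) ?_
    have h1 : 0 < p * p := by positivity
    have h2 : p ^ 2 = p * p := pow_two p
    omega
  rw [aeval_sum hN, aeval_sum hM, aeval_deriv_sum hM]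
  refine double_eval p p b (fun K => (((Lp ((p ^ 2 - 1) / 3)).coeff K : ℤ) : A))
    (fun i => (((Lp (p / 3)).coeff i : ℤ) : A)) ?_
  intro i hi j hj
  have h2 := congrArg φ (S2L h7 (i := i) hj)
  have h3 : φ 3 = 3 := map_ofNat φ 3
  simpa [h3] using h2

private lemma cc_prod' {N K : ℕ} (h : K < N) :
    ((K.factorial : ℕ) : ℤ) ^ 2 * ((cc N K : ℕ) : ℤ) =
      ∏ t ∈ Ico (K + 1) (3 * K + 1), ((N : ℤ) - (t : ℤ)) := by
  have h1 : K.factorial ^ 2 * cc N K = (N - 1 - K).descFactorial (2 * K) := by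
    rw [cc, Nat.descFactorial_eq_factorial_mul_choose]
    have h2 := Nat.choose_mul_factorial_mul_factorial (show K ≤ 2 * K by omega)
    rw [show 2 * K - K = K by omega] at h2
    rw [← h2, Nat.centralBinom]
    ring
  have h3 : ∏ t ∈ Ico (K + 1) (3 * K + 1), ((N : ℤ) - (t : ℤ)) =
      ∏ s ∈ range (2 * K), ((N : ℤ) - ((K + 1 + s : ℕ) : ℤ)) := by
    rw [prod_Ico_eq_prod_range, show 3 * K + 1 - (K + 1) = 2 * K by omega]
  rw [h3]
  have h4 : ((K.factorial : ℕ) : ℤ) ^ 2 * ((cc N K : ℕ) : ℤ) =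
      (((N - 1 - K).descFactorial (2 * K) : ℕ) : ℤ) := by
    rw [← h1]; push_cast; ring
  rw [h4]
  by_cases h5 : 2 * K ≤ N - 1 - K
  · rw [Nat.descFactorial_eq_prod_range, Nat.cast_prod]
    refine prod_congr rfl (fun s hs => ?_)
    have := mem_range.1 hs
    omega
  · rw [Nat.descFactorial_eq_zero_iff_lt.2 (by omega), Nat.cast_zero]
    refine (prod_eq_zero (i := N - 1 - K) (mem_range.2 (by omega)) ?_).symm
    omega

private lemma cc_eq_u {p : ℕ} [Fact p.Prime] {i : ℕ} (hi : i < p) :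
    ((cc p i : ℕ) : ZMod p) = ((u i : ℕ) : ZMod p) := by
  have hp : p.Prime := Fact.out
  have h1 := congrArg (Int.cast : ℤ → ZMod p) (cc_prod' hi)
  have h2 : ((i.factorial : ℕ) : ZMod p) ≠ 0 := by
    rw [Ne, ZMod.natCast_eq_zero_iff, hp.dvd_factorial]
    omega
  have h3 : ∏ t ∈ Ico (i + 1) (3 * i + 1), (((p : ℤ) - (t : ℤ) : ℤ) : ZMod p) =
      ∏ t ∈ Ico (i + 1) (3 * i + 1), ((t : ℕ) : ZMod p) := by
    have h4 : ∀ t ∈ Ico (i + 1) (3 * i + 1), (((p : ℤ) - (t : ℤ) : ℤ) : ZMod p) =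
        (-1) * ((t : ℕ) : ZMod p) := by
      intro t _
      push_cast
      rw [ZMod.natCast_self]
      ring
    rw [prod_congr rfl h4, prod_mul_distrib, prod_const, Nat.card_Ico,
      show 3 * i + 1 - (i + 1) = 2 * i by omega, pow_mul]
    simp
  have h5 : i.factorial * ∏ t ∈ Ico (i + 1) (3 * i + 1), t = (3 * i).factorial := by
    rw [← prod_Ico_id_eq_factorial, ← prod_Ico_id_eq_factorial]
    exact prod_Ico_consecutive _ (by omega) (by omega)
  rw [Int.cast_prod, h3, ← Nat.cast_prod] at h1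
  have h6 := congrArg (Nat.cast : ℕ → ZMod p) h5
  rw [← u_fact i] at h6
  push_cast at h1 h6
  refine mul_left_cancel₀ (pow_ne_zero 3 h2) ?_
  calc (i.factorial : ZMod p) ^ 3 * (cc p i : ZMod p)
      = (i.factorial : ZMod p) * ((i.factorial : ZMod p) ^ 2 * (cc p i : ZMod p)) := by ring
    _ = (i.factorial : ZMod p) * ∏ t ∈ Ico (i + 1) (3 * i + 1), (t : ZMod p) := by rw [h1]
    _ = (i.factorial : ZMod p) ^ 3 * (u i : ZMod p) := by rw [h6]; ring

theorem c_mod_p {p : ℕ} [Fact p.Prime] (h7 : 7 ≤ p) {A : Type*} [CommRing A]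
    (hA : (p : A) = 0) (b : A) : c p b = P p b := by
  have : CharP A (ringChar A) := ringChar.charP A
  obtain ⟨φ, hφ⟩ : ∃ φ : ZMod p →+* A, φ = ZMod.castHom (ringChar.dvd hA) A := ⟨_, rfl⟩
  rw [c, P]
  refine sum_congr rfl (fun i hi => ?_)
  have h2 := congrArg φ (cc_eq_u (mem_range.1 hi))
  rw [map_natCast, map_natCast] at h2
  rw [h2]

end SC15
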