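import Pool.Agent.SC15.A.U

/-!
# SC15-A-Fac: factorials without the multiples of `p`, modulo `p^2`

`pf p n` is the product of the `j ≤ n`, `j ≥ 1`, prime to `p`.

PLAN. `fact_pf`: `(p n + r)! = pf p (p n + r) * p^n * n!` for `r < p` (induction on `p n + r`, or on `n`
with `r = 0` first and then on `r`).
`pf_mod`: in `ZMod (p^2)`: `pf p (p n + r) = w^n * (r! + p n e(r))`, `w = (p-1)!`,
`e(r) = ∑_{t<r} r!/(t+1)` (natural numbers), because `∏_{j=1}^{r} (p i + j) = r! + p i e(r)` modulo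
`p^2` and `p ∣ e(p-1)` (in `ZMod p`: `∑_{t=1}^{p-1} 1/t = 0`, pair `t` with `p - t`).
`LU`, with `K = p i + j`, `3 j = p c + ρ`:
* `3 j < p`: `c = 0`, `pf(K) = w^i (j! + p i e(j))`, `pf(3K) = w^(3i) ((3j)! + 3 p i e(3j))`, so
  `pf(K)^3 A = pf(3K) B` gives `A = B (3j)!/(j!)^3 (1 + 3 p i (H_{3j} - H_j))` with
  `(3j)!/(j!)^3 = u_j` (`u_fact`), and `r p j = u_j (H_{3j} - H_j)` in `ZMod p`, which is all that
  matters since it is multiplied by `p`.
* `p < 3 j < 2 p`: `c = 1`; everything is multiplied by `p`, so it is enough to know modulo `p`: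
  `pf(K) = w^i j!`, `pf(3K) = w^(3i+1) ρ!`, `(u_j/p) (j!)^3 = (3j)!/p = pf(3j) = w ρ!`; so
  `A = B p (u_j/p) q = B p (u_j/p) (1 + 3 i)`, and `u_j = p (u_j/p)`, `rt_j = u_j/p` modulo `p`.
* `2 p < 3 j`: both sides are `0` (`c = 2`, `u_dvd_sq`, `r p j = 0`).
`3 j = p` and `3 j = 2 p` are impossible as `p ≥ 7` is prime.
-/

namespace SC15

open Finset

/-- The product of the numbers `≤ n` prime to `p`. -/
def pf (p n : ℕ) : ℕ := ∏ j ∈ (range (n + 1)).filter (fun j => ¬ p ∣ j), j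

private lemma pf_zero (p : ℕ) : pf p 0 = 1 := by
  simp [pf, Finset.filter_singleton]

private lemma pf_succ_of_not {p n : ℕ} (h : ¬ p ∣ n + 1) : pf p (n + 1) = pf p n * (n + 1) := by
  unfold pf
  rw [Finset.range_add_one (n := n + 1), filter_insert, if_pos h, prod_insert (by simp), mul_comm]

private lemma pf_succ_of_dvd {p n : ℕ} (h : p ∣ n + 1) : pf p (n + 1) = pf p n := by
  unfold pf
  rw [Finset.range_add_one (n := n + 1), filter_insert, if_neg (by simpa using h)]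

private lemma fact_pf' (p m : ℕ) : m.factorial = pf p m * p ^ (m / p) * (m / p).factorial := by
  induction m with
  | zero => simp [pf_zero]
  | succ m ih =>
    by_cases h : p ∣ m + 1
    · have h1 : p * (m / p + 1) = m + 1 := by
        have h2 := Nat.mul_div_cancel' h
        rwa [Nat.succ_div, if_pos h] at h2
      rw [Nat.factorial_succ, Nat.succ_div, if_pos h, pf_succ_of_dvd h, pow_succ,
        Nat.factorial_succ]
      calc (m + 1) * m.factorial = (p * (m / p + 1)) * (pf p m * p ^ (m / p) * (m / p).factorial) := by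
            rw [← ih, h1]
        _ = _ := by ring
    · rw [Nat.factorial_succ, Nat.succ_div, if_neg h, add_zero, pf_succ_of_not h]
      calc (m + 1) * m.factorial = (m + 1) * (pf p m * p ^ (m / p) * (m / p).factorial) := by
            rw [← ih]
        _ = _ := by ring

theorem fact_pf {p : ℕ} (hp : p.Prime) (n : ℕ) {r : ℕ} (hr : r < p) :
    (p * n + r).factorial = pf p (p * n + r) * p ^ n * n.factorial := by
  have h := fact_pf' p (p * n + r)
  have hd : (p * n + r) / p = n := by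
    rw [Nat.mul_add_div hp.pos, Nat.div_eq_of_lt hr, add_zero]
  rwa [hd] at h

theorem pf_coprime {p : ℕ} (hp : p.Prime) (n : ℕ) : Nat.Coprime (pf p n) p := by
  unfold pf
  refine Nat.Coprime.prod_left fun j hj => ?_
  exact ((hp.coprime_iff_not_dvd).2 (mem_filter.1 hj).2).symm

section

variable {p : ℕ}

private lemma fac_psq (p : ℕ) : (p : ZMod (p ^ 2)) ^ 2 = 0 := by
  have := ZMod.natCast_self (p ^ 2)
  push_cast at this
  exact this

private lemma fac_unit {m : ℕ} (h : Nat.Coprime m p) :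
    IsUnit (m : ZMod (p ^ 2)) := (ZMod.isUnit_iff_coprime m (p ^ 2)).2 (h.pow_right 2)

/-- harmonic numbers in `ZMod N` -/
private def HN (N r : ℕ) : ZMod N := ∑ t ∈ range r, ((t + 1 : ℕ) : ZMod N)⁻¹

private lemma fac_cop [hp : Fact p.Prime] {t : ℕ} (h : t + 1 < p) : Nat.Coprime (t + 1) p :=
  ((hp.out.coprime_iff_not_dvd).2 fun h' => absurd (Nat.le_of_dvd (by omega) h') (by omega)).symm

private lemma fac_unit_fact [hp : Fact p.Prime] {r : ℕ} (h : r < p) :
    IsUnit (r.factorial : ZMod (p ^ 2)) :=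
  fac_unit ((hp.out.coprime_iff_not_dvd).2 fun h' =>
    absurd (hp.out.dvd_factorial.1 h') (by omega)).symm

private lemma fac_prod [hp : Fact p.Prime] (x : ZMod (p ^ 2)) (r : ℕ) (hr : r < p) :
    ∏ t ∈ range r, ((p : ZMod (p ^ 2)) * x + ((t + 1 : ℕ) : ZMod (p ^ 2))) =
      (r.factorial : ZMod (p ^ 2)) * (1 + (p : ZMod (p ^ 2)) * x * HN (p ^ 2) r) := by
  induction r with
  | zero => simp [HN]
  | succ r ih =>
    have hu : IsUnit (((r + 1 : ℕ)) : ZMod (p ^ 2)) := fac_unit (fac_cop hr)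
    have hi : ((r + 1 : ℕ) : ZMod (p ^ 2)) * ((r + 1 : ℕ) : ZMod (p ^ 2))⁻¹ = 1 :=
      ZMod.mul_inv_of_unit _ hu
    have hH : HN (p ^ 2) (r + 1) = HN (p ^ 2) r + ((r + 1 : ℕ) : ZMod (p ^ 2))⁻¹ := by
      rw [HN, sum_range_succ]
      rfl
    rw [prod_range_succ, ih (by omega), hH, Nat.factorial_succ, Nat.cast_mul]
    have h2 := fac_psq p
    generalize ((r + 1 : ℕ) : ZMod (p ^ 2)) = a at *
    generalize a⁻¹ = b at *
    linear_combination (-(r.factorial : ZMod (p ^ 2)) * p * x) * hi +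
      (r.factorial : ZMod (p ^ 2)) * x ^ 2 * HN (p ^ 2) r * h2

private lemma fac_H [hp : Fact p.Prime] (h3 : 3 ≤ p) : (p : ZMod (p ^ 2)) * HN (p ^ 2) (p - 1) = 0 := by
  have h1 := fac_prod (p := p) (-1) (p - 1) (by omega)
  have h2 : ∏ t ∈ range (p - 1), ((p : ZMod (p ^ 2)) * (-1) + ((t + 1 : ℕ) : ZMod (p ^ 2))) =
      ((p - 1).factorial : ZMod (p ^ 2)) := by
    have e1 : ∀ t ∈ range (p - 1), ((p : ZMod (p ^ 2)) * (-1) + ((t + 1 : ℕ) : ZMod (p ^ 2))) =
        (-1) * (((p - 1 - 1 - t + 1 : ℕ)) : ZMod (p ^ 2)) := by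
      intro t ht
      have ht' := mem_range.1 ht
      have : ((p - 1 - 1 - t + 1 : ℕ) : ZMod (p ^ 2)) = (p : ZMod (p ^ 2)) - ((t + 1 : ℕ) : ZMod (p ^ 2)) := by
        rw [eq_sub_iff_add_eq, ← Nat.cast_add]
        congr 1
        omega
      rw [this]
      ring
    rw [prod_congr rfl e1, prod_mul_distrib, prod_const, card_range,
      prod_range_reflect (fun t => ((t + 1 : ℕ) : ZMod (p ^ 2))) (p - 1)]
    have he : Even (p - 1) := by
      have := hp.out.eq_two_or_odd'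
      rcases this with h | h
      · omega
      · exact Nat.Odd.sub_odd h odd_one
    rw [he.neg_one_pow, one_mul, ← Nat.cast_prod, prod_range_add_one_eq_factorial]
  rw [h2] at h1
  have hu := fac_unit_fact (p := p) (r := p - 1) (by omega)
  have h3 : ((p - 1).factorial : ZMod (p ^ 2)) * ((p : ZMod (p ^ 2)) * HN (p ^ 2) (p - 1)) = 0 := by
    linear_combination h1
  exact (hu.mul_right_eq_zero).1 h3

private lemma fac_pf0 (n r : ℕ) (hr : r < p) :
    (pf p (p * n + r) : ZMod (p ^ 2)) = (pf p (p * n) : ZMod (p ^ 2)) *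
      ∏ t ∈ range r, ((p : ZMod (p ^ 2)) * (n : ZMod (p ^ 2)) + ((t + 1 : ℕ) : ZMod (p ^ 2))) := by
  induction r with
  | zero => simp
  | succ r ih =>
    have hnd : ¬ p ∣ p * n + r + 1 := by
      intro h
      have : p ∣ r + 1 := by
        have h' : p ∣ p * n + (r + 1) := by rwa [← add_assoc]
        exact (Nat.dvd_add_right (dvd_mul_right p n)).1 h'
      exact absurd (Nat.le_of_dvd (by omega) this) (by omega)
    rw [← add_assoc, pf_succ_of_not hnd, Nat.cast_mul, ih (by omega), prod_range_succ, mul_assoc]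
    congr 2
    push_cast
    ring

private lemma fac_pf1 [hp : Fact p.Prime] (h3 : 3 ≤ p) (n : ℕ) :
    (pf p (p * n) : ZMod (p ^ 2)) = ((p - 1).factorial : ZMod (p ^ 2)) ^ n := by
  induction n with
  | zero => simp [pf_zero]
  | succ n ih =>
    have h1 : p * (n + 1) = p * n + (p - 1) + 1 := by
      have := hp.out.pos
      have : p * (n + 1) = p * n + p := by ring
      omega
    rw [h1, pf_succ_of_dvd (by rw [← h1]; exact dvd_mul_right _ _), fac_pf0 n (p - 1) (Nat.sub_lt hp.out.pos one_pos),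
      fac_prod _ (p - 1) (Nat.sub_lt hp.out.pos one_pos), ih,
      pow_succ ((p - 1).factorial : ZMod (p ^ 2)) n]
    have hH := fac_H (p := p) h3
    generalize HN (p ^ 2) (p - 1) = H at *
    linear_combination (((p - 1).factorial : ZMod (p ^ 2)) ^ n * ((p - 1).factorial : ZMod (p ^ 2)) *
      (n : ZMod (p ^ 2))) * hH

private lemma fac_pf [hp : Fact p.Prime] (h3 : 3 ≤ p) (n r : ℕ) (hr : r < p) :
    (pf p (p * n + r) : ZMod (p ^ 2)) = ((p - 1).factorial : ZMod (p ^ 2)) ^ n *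
      ((r.factorial : ZMod (p ^ 2)) *
        (1 + (p : ZMod (p ^ 2)) * (n : ZMod (p ^ 2)) * HN (p ^ 2) r)) := by
  rw [fac_pf0 n r hr, fac_pf1 h3, fac_prod _ r hr]

/-- the reduction modulo `p` -/
private def fac_phi (p : ℕ) : ZMod (p ^ 2) →+* ZMod p :=
  ZMod.castHom (dvd_pow_self p two_ne_zero) (ZMod p)

private lemma fac_red [hp : Fact p.Prime] (x y : ZMod (p ^ 2)) (h : fac_phi p x = fac_phi p y) :
    (p : ZMod (p ^ 2)) * x = p * y := by
  have hn : NeZero (p ^ 2) := ⟨pow_ne_zero _ hp.out.ne_zero⟩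
  have hx : ((x.val : ℕ) : ZMod (p ^ 2)) = x := ZMod.natCast_zmod_val x
  have hy : ((y.val : ℕ) : ZMod (p ^ 2)) = y := ZMod.natCast_zmod_val y
  rw [← hx, ← hy, map_natCast, map_natCast, ZMod.natCast_eq_natCast_iff] at h
  have h2 := Nat.ModEq.mul_left' p h
  rw [← pow_two, ← ZMod.natCast_eq_natCast_iff, Nat.cast_mul, Nat.cast_mul, hx, hy] at h2
  exact h2

private lemma fac_phi_H [hp : Fact p.Prime] (r : ℕ) (hr : r < p) :
    fac_phi p (HN (p ^ 2) r) = ∑ t ∈ range r, ((t + 1 : ℕ) : ZMod p)⁻¹ := by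
  rw [HN, map_sum]
  refine sum_congr rfl fun t ht => ?_
  have ht' := mem_range.1 ht
  have hu : IsUnit (((t + 1 : ℕ)) : ZMod (p ^ 2)) := fac_unit (fac_cop (by omega))
  have hi : ((t + 1 : ℕ) : ZMod (p ^ 2)) * ((t + 1 : ℕ) : ZMod (p ^ 2))⁻¹ = 1 :=
    ZMod.mul_inv_of_unit _ hu
  have h2 := congrArg (fac_phi p) hi
  rw [map_mul, map_one, map_natCast] at h2
  exact eq_inv_of_mul_eq_one_right h2

private lemma fac_rt [hp : Fact p.Prime] (j : ℕ) : ((rt p j : ℕ) : ZMod p) = r p j := by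
  rw [rt, ZMod.natCast_zmod_val]

end

theorem LU {p : ℕ} [Fact p.Prime] (h7 : 7 ≤ p) {i j : ℕ} (hj : j < p) (A B q : ℤ)
    (h : ((pf p (p * i + j) : ZMod (p ^ 2))) ^ 3 * (A : ZMod (p ^ 2)) =
      (pf p (3 * (p * i + j)) : ZMod (p ^ 2)) * (p : ZMod (p ^ 2)) ^ (3 * j / p) *
        ((B : ZMod (p ^ 2)) * (q : ZMod (p ^ 2))))
    (h0 : 3 * j < p → q = 1)
    (h1 : p < 3 * j → 3 * j < 2 * p → (q : ZMod p) = 3 * (i : ZMod p) + 1) :
    (A : ZMod (p ^ 2)) = (B : ZMod (p ^ 2)) * ((u j : ZMod (p ^ 2)) +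
      3 * (p : ZMod (p ^ 2)) * (i : ZMod (p ^ 2)) * (rt p j : ZMod (p ^ 2))) := by
  have hp : p.Prime := Fact.out
  have hsq := fac_psq p
  have hw : IsUnit ((p - 1).factorial : ZMod (p ^ 2)) := fac_unit_fact (by omega)
  have hjf : IsUnit (j.factorial : ZMod (p ^ 2)) := fac_unit_fact hj
  have hK := fac_pf (p := p) (by omega) i j hj
  have hua : IsUnit (((p - 1).factorial : ZMod (p ^ 2)) ^ (3 * i) * (j.factorial : ZMod (p ^ 2)) ^ 3) :=
    (hw.pow _).mul (hjf.pow _)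
  have hK3 : ((pf p (p * i + j) : ZMod (p ^ 2))) ^ 3 =
      (((p - 1).factorial : ZMod (p ^ 2)) ^ (3 * i) * (j.factorial : ZMod (p ^ 2)) ^ 3) *
        (1 + 3 * (p : ZMod (p ^ 2)) * (i : ZMod (p ^ 2)) * HN (p ^ 2) j) := by
    rw [hK]
    generalize HN (p ^ 2) j = H at *
    rw [mul_pow, mul_pow, ← pow_mul, mul_comm i 3]
    linear_combination (((p - 1).factorial : ZMod (p ^ 2)) ^ (3 * i) * (j.factorial : ZMod (p ^ 2)) ^ 3) *
      (3 * (i : ZMod (p ^ 2)) ^ 2 * H ^ 2 + (p : ZMod (p ^ 2)) * (i : ZMod (p ^ 2)) ^ 3 * H ^ 3) * hsq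
  have hphA : ∀ n : ℕ, fac_phi p (n : ZMod (p ^ 2)) = (n : ZMod p) := fun n => map_natCast _ n
  rcases lt_or_ge (3 * j) p with hc | hc
  · -- case 3 j < p
    rw [h0 hc, Nat.div_eq_of_lt hc, pow_zero, mul_one, hK3,
      show 3 * (p * i + j) = p * (3 * i) + 3 * j by ring,
      fac_pf (by omega) (3 * i) (3 * j) hc, ← u_fact j] at h
    have hr : (p : ZMod (p ^ 2)) * (rt p j : ZMod (p ^ 2)) = (p : ZMod (p ^ 2)) *
        ((u j : ZMod (p ^ 2)) * (HN (p ^ 2) (3 * j) - HN (p ^ 2) j)) := by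
      apply fac_red
      rw [hphA, fac_rt, map_mul, map_sub, hphA, fac_phi_H _ hc, fac_phi_H _ hj, r, if_pos hc]
    push_cast at h
    generalize HN (p ^ 2) (3 * j) = H3 at *
    generalize HN (p ^ 2) j = Hj at *
    have hc2 : (1 + 3 * (p : ZMod (p ^ 2)) * (i : ZMod (p ^ 2)) * Hj) * (A : ZMod (p ^ 2)) =
        (u j : ZMod (p ^ 2)) * (1 + 3 * (p : ZMod (p ^ 2)) * (i : ZMod (p ^ 2)) * H3) *
          (B : ZMod (p ^ 2)) := by
      apply hua.mul_left_cancel
      linear_combination h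
    linear_combination (1 - 3 * (p : ZMod (p ^ 2)) * (i : ZMod (p ^ 2)) * Hj) * hc2 +
      (9 * (i : ZMod (p ^ 2)) ^ 2 * Hj ^ 2 * (A : ZMod (p ^ 2)) -
        9 * (i : ZMod (p ^ 2)) ^ 2 * Hj * H3 * (u j : ZMod (p ^ 2)) * (B : ZMod (p ^ 2))) * hsq -
      3 * (i : ZMod (p ^ 2)) * (B : ZMod (p ^ 2)) * hr
  · rcases lt_or_ge (3 * j) (2 * p) with hc' | hc'
    · -- case p < 3 j < 2 p
      have hne : p ≠ 3 * j := by
        intro he
        have hd : p ∣ 3 * j := ⟨1, by omega⟩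
        rcases (hp.dvd_mul).1 hd with h3 | h3
        · exact absurd (Nat.le_of_dvd (by norm_num) h3) (by omega)
        · rcases Nat.eq_zero_or_pos j with hj0 | hj0
          · omega
          · exact absurd (Nat.le_of_dvd hj0 h3) (by omega)
      have hlt : p < 3 * j := lt_of_le_of_ne hc hne
      obtain ⟨rho, hrho⟩ : ∃ rho, 3 * j = p * 1 + rho := ⟨3 * j - p, by omega⟩
      have hrp : rho < p := by omega
      have hq := h1 hlt hc'
      have hdiv : 3 * j / p = 1 := by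
        rw [hrho, Nat.mul_add_div hp.pos, Nat.div_eq_of_lt hrp]
      obtain ⟨u', hu'⟩ := u_dvd hp hj hc
      have hnat : pf p (p * 1 + rho) = u' * j.factorial ^ 3 := by
        have e1 := fact_pf hp 1 hrp
        rw [← hrho, ← u_fact j, hu', pow_one, Nat.factorial_one, mul_one] at e1
        rw [← hrho]
        apply Nat.eq_of_mul_eq_mul_right hp.pos
        rw [← e1]
        ring
      have hpf := fac_pf (p := p) (by omega) 1 rho hrp
      rw [hnat] at hpf
      rw [hdiv, pow_one, hK3,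
        show 3 * (p * i + j) = p * (3 * i + 1) + rho by rw [mul_add, hrho]; ring,
        fac_pf (by omega) (3 * i + 1) rho hrp] at h
      have hr : (p : ZMod (p ^ 2)) * (rt p j : ZMod (p ^ 2)) = (p : ZMod (p ^ 2)) *
          (u' : ZMod (p ^ 2)) := by
        apply fac_red
        rw [hphA, fac_rt, hphA, r, if_neg (by omega), if_pos hc', hu', Nat.mul_div_cancel_left _ hp.pos]
      have hq2 : (p : ZMod (p ^ 2)) * (q : ZMod (p ^ 2)) = (p : ZMod (p ^ 2)) *
          (3 * (i : ZMod (p ^ 2)) + 1) := by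
        apply fac_red
        rw [map_intCast, hq, map_add, map_mul, hphA, map_one]
        congr 2
        exact (map_ofNat (fac_phi p) 3).symm
      have huj : (u j : ZMod (p ^ 2)) = (p : ZMod (p ^ 2)) * (u' : ZMod (p ^ 2)) := by
        rw [hu', Nat.cast_mul]
      push_cast at h hpf
      generalize HN (p ^ 2) rho = Hr at *
      generalize HN (p ^ 2) j = Hj at *
      rw [huj]
      have hp2 : (p : ZMod (p ^ 2)) * (((p - 1).factorial : ZMod (p ^ 2)) * (rho.factorial : ZMod (p ^ 2))) =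
          (p : ZMod (p ^ 2)) * ((u' : ZMod (p ^ 2)) * (j.factorial : ZMod (p ^ 2)) ^ 3) := by
        linear_combination (-(p : ZMod (p ^ 2))) * hpf -
          (((p - 1).factorial : ZMod (p ^ 2)) * (rho.factorial : ZMod (p ^ 2))) * Hr * hsq
      have hc2 : (1 + 3 * (p : ZMod (p ^ 2)) * (i : ZMod (p ^ 2)) * Hj) * (A : ZMod (p ^ 2)) =
          (p : ZMod (p ^ 2)) * (u' : ZMod (p ^ 2)) * (B : ZMod (p ^ 2)) * (q : ZMod (p ^ 2)) := by
        apply hua.mul_left_cancel
        rw [pow_succ _ (3 * i)] at h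
        linear_combination h + ((p - 1).factorial : ZMod (p ^ 2)) ^ (3 * i) *
          (1 + (p : ZMod (p ^ 2)) * (3 * (i : ZMod (p ^ 2)) + 1) * Hr) *
            (B : ZMod (p ^ 2)) * (q : ZMod (p ^ 2)) * hp2 +
          ((p - 1).factorial : ZMod (p ^ 2)) ^ (3 * i) *
            (3 * (i : ZMod (p ^ 2)) + 1) * Hr *
            (B : ZMod (p ^ 2)) * (q : ZMod (p ^ 2)) *
            ((u' : ZMod (p ^ 2)) * (j.factorial : ZMod (p ^ 2)) ^ 3) * hsq
      linear_combination (1 - 3 * (p : ZMod (p ^ 2)) * (i : ZMod (p ^ 2)) * Hj) * hc2 +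
        (9 * (i : ZMod (p ^ 2)) ^ 2 * Hj ^ 2 * (A : ZMod (p ^ 2)) -
          3 * (i : ZMod (p ^ 2)) * Hj * (u' : ZMod (p ^ 2)) * (B : ZMod (p ^ 2)) *
            (q : ZMod (p ^ 2))) * hsq +
        (u' : ZMod (p ^ 2)) * (B : ZMod (p ^ 2)) * hq2 -
        3 * (i : ZMod (p ^ 2)) * (B : ZMod (p ^ 2)) * hr
    · -- case 2 p < 3 j
      have hdiv : 2 ≤ 3 * j / p := (Nat.le_div_iff_mul_le hp.pos).2 hc'
      have hz : (p : ZMod (p ^ 2)) ^ (3 * j / p) = 0 := pow_eq_zero_of_le hdiv hsq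
      rw [hz, mul_zero, zero_mul, hK3] at h
      have hun : IsUnit (((pf p (p * i + j) : ZMod (p ^ 2))) ^ 3) :=
        (fac_unit (pf_coprime hp _)).pow _
      rw [← hK3] at h
      have hA : (A : ZMod (p ^ 2)) = 0 := (hun.mul_right_eq_zero).1 h
      have hu0 : (u j : ZMod (p ^ 2)) = 0 := by
        rw [ZMod.natCast_eq_zero_iff]
        exact u_dvd_sq hp hj hc'
      have hr0 : rt p j = 0 := by
        rw [rt, r, if_neg (by omega), if_neg (by omega), ZMod.val_zero]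
      rw [hA, hu0, hr0]
      simp

end SC15
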