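import Pool.Agent.SC15.A.CM
import Pool.Agent.SC15.A.Claus

/-!
# SC15, part A: the final statements (A1) - (A5)
-/

namespace SC15

open Finset Polynomial

variable {p : ℕ} [Fact p.Prime] {W k : Type*} [CommRing W] [Field k]

/-- (A1) -/
theorem A1 (h7 : 7 ≤ p) (b : W) :
    (p : W) ^ 2 ∣ ∑ j ∈ range p, (Nat.centralBinom j : W) * (u j : W) * (b * (1 - 27 * b)) ^ j -
      P p b ^ 2 := by
  have h0 : ((p : ℕ) : W ⧸ Ideal.span {(p : W) ^ 2}) ^ 2 = 0 := by
    rw [← map_natCast (Ideal.Quotient.mk (Ideal.span {(p : W) ^ 2})), ← map_pow]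
    exact Ideal.Quotient.eq_zero_iff_mem.2 (Ideal.mem_span_singleton_self _)
  have h := clausen h7 h0 (Ideal.Quotient.mk _ b)
  rw [← Ideal.mem_span_singleton, ← Ideal.Quotient.eq_zero_iff_mem, map_sub, sub_eq_zero, map_pow,
    map_P, ← h, map_sum]
  refine sum_congr rfl (fun j _ => ?_)
  rw [map_mul, map_pow, map_mul, map_mul, map_sub, map_mul, map_ofNat, map_one, map_natCast,
    map_natCast]

/-- (A2) -/
theorem A2 (h7 : 7 ≤ p) {b b' : W} (h : 27 * (b + b') = 1) :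
    (p : W) ^ 2 ∣ P p b' - (eps p : W) * P p b := by
  have h0 : ((p : ℕ) : W ⧸ Ideal.span {(p : W) ^ 2}) ^ 2 = 0 := by
    rw [← map_natCast (Ideal.Quotient.mk (Ideal.span {(p : W) ^ 2})), ← map_pow]
    exact Ideal.Quotient.eq_zero_iff_mem.2 (Ideal.mem_span_singleton_self _)
  have h1 : 27 * (Ideal.Quotient.mk (Ideal.span {(p : W) ^ 2}) b +
      Ideal.Quotient.mk (Ideal.span {(p : W) ^ 2}) b') = 1 := by
    rw [← map_add, ← map_ofNat (Ideal.Quotient.mk (Ideal.span {(p : W) ^ 2})) 27, ← map_mul, h,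
      map_one]
  have h2 := P_refl h7 h0 h1
  rw [← Ideal.mem_span_singleton, ← Ideal.Quotient.eq_zero_iff_mem, map_sub, sub_eq_zero, map_P,
    h2, map_mul, map_P, map_intCast]

/-- `c_p = P` in characteristic `p`. -/
theorem pi_c (h7 : 7 ≤ p) (L : Lift p W k) (b : W) : L.π (c p b) = L.π (P p b) := by
  rw [map_c, map_P, c_mod_p h7 L.natCast_p]

/-- (A3) -/
theorem A3 (h7 : 7 ≤ p) (L : Lift p W k) (b : W) :
    L.π (c (p ^ 2) b) = L.π (P p b) ^ (p + 1) := by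
  have hp0 := L.natCast_p
  have := L.charP
  have h := c_eval h7 (A := k) (by rw [hp0]; ring) (dvd_refl p) (L.π b)
  rw [hp0] at h
  rw [map_c, map_P, sq, h, c_mod_p h7 hp0, pow_succ, mul_zero, zero_mul, zero_mul, add_zero]
  congr 1
  rw [P, P, sum_pow_char]
  refine sum_congr rfl (fun j _ => ?_)
  rw [mul_pow, ← pow_mul, ← pow_mul, mul_comm p j]
  congr 1
  have h2 := congrArg (ZMod.castHom (dvd_refl p) k) (ZMod.pow_card (u j : ZMod p))
  rw [map_pow, map_natCast] at h2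
  exact h2.symm

/-- A number not divisible by `p` is nonzero in `k`. -/
lemma natCast_ne_zero' (L : Lift p W k) {m : ℕ} (hm : ¬ p ∣ m) : (m : k) ≠ 0 := by
  have := L.charP
  exact fun h => hm ((CharP.cast_eq_zero_iff k p m).1 h)

lemma five_ne (h7 : 7 ≤ p) (L : Lift p W k) : (5 : k) ≠ 0 := by
  have h := natCast_ne_zero' L (m := 5) (fun h => by
    have := Nat.le_of_dvd (by norm_num) h
    omega)
  simpa using h

lemma two_ne (h7 : 7 ≤ p) (L : Lift p W k) : (2 : k) ≠ 0 := by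
  have h := natCast_ne_zero' L (m := 2) (fun h => by
    have := Nat.le_of_dvd (by norm_num) h
    omega)
  simpa using h

lemma three_ne (h7 : 7 ≤ p) (L : Lift p W k) : (3 : k) ≠ 0 := by
  have h := natCast_ne_zero' L (m := 3) (fun h => by
    have := Nat.le_of_dvd (by norm_num) h
    omega)
  simpa using h

lemma sigma_sigma_r5 (h7 : 7 ≤ p) (L : Lift p W k) {r5 : W} (h5 : r5 ^ 2 = 5) :
    L.σ (L.σ r5) = r5 := by
  have h1 : (L.σ r5 - r5) * (L.σ r5 + r5) = 0 := by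
    have : L.σ r5 ^ 2 = 5 := by rw [← map_pow, h5, map_ofNat]
    linear_combination this - h5
  by_cases ha : L.π (L.σ r5 - r5) = 0
  · have hb : L.π (L.σ r5 + r5) ≠ 0 := by
      intro hb
      have h2 : (2 : k) * L.π r5 = 0 := by
        rw [map_sub] at ha
        rw [map_add] at hb
        linear_combination hb - ha
      have h3 : L.π r5 = 0 := (mul_eq_zero.1 h2).resolve_left (two_ne h7 L)
      have h4 : L.π r5 ^ 2 = 5 := by rw [← map_pow, h5, map_ofNat]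
      rw [h3] at h4
      exact five_ne h7 L (by rw [← h4]; ring)
    have h2 : L.σ r5 - r5 = 0 := ((L.unit _ hb).mul_left_eq_zero).1 h1
    have h3 : L.σ r5 = r5 := sub_eq_zero.1 h2
    rw [h3, h3]
  · have h2 : L.σ r5 + r5 = 0 := ((L.unit _ ha).mul_right_eq_zero).1 h1
    have h3 : L.σ r5 = -r5 := by linear_combination h2
    rw [h3, map_neg, h3, neg_neg]

lemma sigma_sigma_b0 (h7 : 7 ≤ p) (L : Lift p W k) {r5 b0 : W} (h5 : r5 ^ 2 = 5)
    (hb : 54 * 25 * b0 = 25 + 11 * r5) : L.σ (L.σ b0) = b0 := by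
  have h1 := congrArg L.σ (congrArg L.σ hb)
  simp only [map_mul, map_add, map_ofNat] at h1
  rw [sigma_sigma_r5 h7 L h5, ← hb] at h1
  have hu : IsUnit (54 * 25 : W) := by
    refine L.unit _ ?_
    have h2 := two_ne h7 L
    have h3 := three_ne h7 L
    have h5' := five_ne h7 L
    have : L.π (54 * 25) = 2 * 3 ^ 3 * 5 ^ 2 := by
      rw [map_mul, map_ofNat, map_ofNat]
      norm_num
    rw [this]
    positivity
  exact hu.mul_left_cancel h1

lemma comp_aux (h7 : 7 ≤ p) {A : Type*} [CommRing A] (hA : (p : A) ^ 2 = 0) {b d y s : A}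
    (hs : s = b ^ p + p * d) (hy : 3 * b ^ p * Rt p b - d * P p b = p * y)
    {n : ℕ} (hn : p ∣ n) : c (n * p) b = c n s * P p b := by
  have h1 := c_eval h7 hA hn b
  have h2 := aeval_add_mul hA (cP n) (b ^ p) d
  have h5 := aeval_thc n (b ^ p)
  rw [aeval_cP, aeval_cP, ← hs] at h2
  rw [h1, h2, ← h5]
  linear_combination ((p : A) * aeval (b ^ p) (derivative (cP n))) * hy +
    (y * aeval (b ^ p) (derivative (cP n))) * hA

/-- Composition relation: `c_{np}(b0) = P(b0) c_n(σ b0)` modulo `p^2` if `p ∣ n`. -/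
lemma comp_rel (h7 : 7 ≤ p) (L : Lift p W k) {b0 : W} [Algebra (ZMod p) k] (hY : Y L b0 = 0)
    {n : ℕ} (hn : p ∣ n) : (p : W) ^ 2 ∣ c (n * p) b0 - c n (L.σ b0) * P p b0 := by
  have h0 : ((p : ℕ) : W ⧸ Ideal.span {(p : W) ^ 2}) ^ 2 = 0 := by
    rw [← map_natCast (Ideal.Quotient.mk (Ideal.span {(p : W) ^ 2})), ← map_pow]
    exact Ideal.Quotient.eq_zero_iff_mem.2 (Ideal.mem_span_singleton_self _)
  have hz : (p : W) ∣ 3 * b0 ^ p * Rt p b0 - L.d b0 * P p b0 := by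
    rw [← L.ker]
    rw [Y, R_eq, ← map_Rt, ← map_P] at hY
    rw [map_sub, map_mul, map_mul, map_mul, map_ofNat, map_pow, hY]
  obtain ⟨y, hy⟩ := hz
  have h4 := congrArg (Ideal.Quotient.mk (Ideal.span {(p : W) ^ 2})) hy
  rw [map_sub, map_mul, map_mul, map_mul, map_ofNat, map_pow, map_Rt, map_P, map_mul,
    map_natCast] at h4
  have h3 : Ideal.Quotient.mk (Ideal.span {(p : W) ^ 2}) (L.σ b0) =
      Ideal.Quotient.mk (Ideal.span {(p : W) ^ 2}) b0 ^ p +
      ((p : ℕ) : W ⧸ Ideal.span {(p : W) ^ 2}) *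
        Ideal.Quotient.mk (Ideal.span {(p : W) ^ 2}) (L.d b0) := by
    rw [L.d_spec b0, map_add, map_mul, map_pow, map_natCast]
  have h5 := comp_aux h7 h0 h3 h4 hn
  rw [← Ideal.mem_span_singleton, ← Ideal.Quotient.eq_zero_iff_mem, map_sub, map_mul, map_c,
    map_c, map_P, h5, sub_self]

/-- (A4) -/
theorem A4 (h7 : 7 ≤ p) (L : Lift p W k) {r5 r3 b0 : W} (h5 : r5 ^ 2 = 5) (h3 : r3 ^ 2 = -3)
    (hb : 54 * 25 * b0 = 25 + 11 * r5) (hP : L.π (P p b0) ≠ 0) :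
    (p : W) ^ 2 ∣ c (p ^ 3) b0 - c p b0 * P p (L.σ b0) * P p b0 := by
  have := L.charP
  let _ := ZMod.algebra k p
  have hY := Y_b0 h7 L h5 h3 hb hP
  have h1 := comp_rel h7 L hY (n := p ^ 2) (dvd_pow_self p two_ne_zero)
  have h2 := comp_rel h7 L hY (n := p) dvd_rfl
  have h2' : (p : W) ^ 2 ∣ L.σ (c (p * p) b0 - c p (L.σ b0) * P p b0) := by
    have := map_dvd L.σ h2
    rwa [map_pow, map_natCast] at this
  rw [map_sub, map_mul, map_c, map_c, map_P, sigma_sigma_b0 h7 L h5 hb, ← sq] at h2'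
  have h4 : p ^ 3 = p ^ 2 * p := by ring
  rw [h4]
  have h6 : c (p ^ 2 * p) b0 - c p b0 * P p (L.σ b0) * P p b0 =
      (c (p ^ 2 * p) b0 - c (p ^ 2) (L.σ b0) * P p b0) +
      (c (p ^ 2) (L.σ b0) - c p b0 * P p (L.σ b0)) * P p b0 := by ring
  rw [h6]
  exact dvd_add h1 (h2'.mul_right _)

/-- (A5) -/
theorem A5 (h7 : 7 ≤ p) (L : Lift p W k) {r5 r3 b0 : W} (h5 : r5 ^ 2 = 5) (h3 : r3 ^ 2 = -3)
    (hb : 54 * 25 * b0 = 25 + 11 * r5) (hP : L.π (P p b0) = 0) :
    L.π (r5 * r3) ^ p = -L.π (r5 * r3) := by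
  have := L.charP
  let _ := ZMod.algebra k p
  exact ss h7 L h5 h3 hb hP

end SC15
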