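import Pool.Agent.SC15.A.U

/-!
# SC15-A-Refl: `P(1/27 - b) = ε P(b)` modulo `p^2`

PLAN. `P_ode`: in `(ZMod (p^2))[X]` (or any ring of polynomials over a ring with `p^2 = 0`), `f = P p X`
satisfies `((X - 27 X^2) f')' = 6 f`: the coefficient of `X^j` is
`(j+1)^2 u_{j+1} - 27 j (j+1) u_j - 6 u_j = (j+1)^2 u_{j+1} - 3 (3j+1)(3j+2) u_j`, which is `0` by
`u_succ` for `j + 1 < p`; at `j = p-1` it is `- 3 (3p-2)(3p-1) u_{p-1} = 0` because `p^2 ∣ u_{p-1}`
(`u_dvd_sq`).
`ode_unique`: if `y` has degree `< p` and satisfies the same equation then `y = C (y.coeff 0) * f`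
(the `(j+1)^2`, `j + 1 < p`, are units of `ZMod (p^2)`).
`P_refl`: enough in `R = ZMod (p^2)` for the polynomial ring: let `c0 = 27⁻¹ ∈ R`; `y = f.comp (C c0 - X)`
has degree `< p` and satisfies the equation (`z = X - 27 X^2` is invariant under
`X ↦ c0 - X`), so `y = C y(0) * f` with `y(0) = P p c0 =: e`; apply the substitution again:
`f = C e * y = C (e^2) f`, the constant coefficient gives `e^2 = 1`.  As `p` is odd, `e = 1` or
`e = -1` (`(e-1)(e+1) = 0` in `ZMod (p^2)` and `p` cannot divide both; or: `e = ±1` modulo `p` and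
then `e ∓ 1` times the unit `e ± 1` is `0`).  Sign: modulo `p` the polynomial `f` has degree
`m = p / 3` (`u_dvd`, `u_not_dvd`), comparing the coefficients of `X^m` in `f(c0 - X) = e f(X)`
modulo `p`: `(-1)^m u_m = e u_m`, so `e = (-1)^m` modulo `p`, and `(-1)^(p/3) = eps p` for an odd
prime `p` (`p = 3m+1`: `m` even, `p = 3m+2`: `m` odd).
For a general ring `A` with `p^2 = 0` and `27 (b + b') = 1`: `27` is a unit of `A`
(`isUnit_natCast`), `exists_hom` gives `ZMod (p^2) →+* A`, evaluate the polynomial identity at `b`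
(the image of `c0` is the inverse of `27`, so `c0 - b = b'`).
(Checked numerically for `p ≤ 23`.)
-/

namespace SC15

open Polynomial

theorem eps_eq {p : ℕ} [Fact p.Prime] (h7 : 7 ≤ p) : eps p = (-1) ^ (p / 3) := by
  have hp : p.Prime := Fact.out
  have hodd : p % 2 = 1 := by
    rcases hp.eq_two_or_odd with h | h
    · omega
    · exact h
  have h3 : p % 3 ≠ 0 := by
    intro h
    have h4 : 3 ∣ p := Nat.dvd_of_mod_eq_zero h
    rcases (Nat.dvd_prime hp).1 h4 with h5 | h5 <;> omega
  rw [eps]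
  by_cases h1 : p % 3 = 1
  · rw [if_pos h1]
    have h2 : Even (p / 3) := by
      rw [Nat.even_iff]
      omega
    exact h2.neg_one_pow.symm
  · rw [if_neg h1]
    have h2 : Odd (p / 3) := by
      rw [Nat.odd_iff]
      omega
    exact h2.neg_one_pow.symm

private theorem coeff_P {R : Type*} [CommRing R] (p j : ℕ) :
    (P p (X : R[X])).coeff j = if j < p then ((u j : ℕ) : R) else 0 := by
  rw [P, finsetSum_coeff]
  have h : ∀ k ∈ Finset.range p, (((u k : ℕ) : R[X]) * X ^ k).coeff j =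
      if j = k then ((u k : ℕ) : R) else 0 := by
    intro k _
    rw [← C_eq_natCast, coeff_C_mul, coeff_X_pow]
    split <;> simp
  rw [Finset.sum_congr rfl h, Finset.sum_ite_eq]
  simp

private theorem coeff_L {R : Type*} [CommRing R] (y : R[X]) (j : ℕ) :
    (derivative ((X - 27 * X ^ 2) * derivative y)).coeff j =
      ((j : R) + 1) * (((j : R) + 1) * y.coeff (j + 1) - 27 * (j : R) * y.coeff j) := by
  rw [coeff_derivative, sub_mul, coeff_sub, coeff_X_mul, coeff_derivative]
  have h : ((27 * X ^ 2 * derivative y : R[X])).coeff (j + 1) = 27 * (j : R) * y.coeff j := by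
    rw [show (27 * X ^ 2 * derivative y : R[X]) = C 27 * (X * (X * derivative y)) by
      rw [map_ofNat]; ring, coeff_C_mul, coeff_X_mul]
    rcases j with _ | j
    · simp
    · rw [coeff_X_mul, coeff_derivative]
      push_cast
      ring
  rw [h]
  ring

private theorem ode_iff {R : Type*} [CommRing R] (y : R[X]) :
    derivative ((X - 27 * X ^ 2) * derivative y) = 6 * y ↔
      ∀ j : ℕ, ((j : R) + 1) ^ 2 * y.coeff (j + 1) =
        3 * (3 * (j : R) + 1) * (3 * (j : R) + 2) * y.coeff j := by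
  constructor
  · intro h j
    have h1 := congrArg (fun f => coeff f j) h
    simp only [coeff_L] at h1
    rw [show (6 * y : R[X]) = C 6 * y by rw [map_ofNat], coeff_C_mul] at h1
    linear_combination h1
  · intro h
    ext j
    rw [coeff_L, show (6 * y : R[X]) = C 6 * y by rw [map_ofNat], coeff_C_mul]
    linear_combination h j

theorem P_ode {p : ℕ} [Fact p.Prime] (h7 : 7 ≤ p) :
    derivative ((X - 27 * X ^ 2) * derivative (P p (X : (ZMod (p ^ 2))[X]))) =
      6 * P p (X : (ZMod (p ^ 2))[X]) := by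
  have hp : p.Prime := Fact.out
  rw [ode_iff]
  intro j
  rw [coeff_P, coeff_P]
  by_cases h1 : j + 1 < p
  · rw [if_pos h1, if_pos (by omega)]
    have h2 := congrArg (Nat.cast : ℕ → ZMod (p ^ 2)) (u_succ j)
    push_cast at h2
    linear_combination h2
  · rw [if_neg h1, mul_zero]
    by_cases h2 : j < p
    · rw [if_pos h2]
      have h3 : ((u j : ℕ) : ZMod (p ^ 2)) = 0 := by
        rw [ZMod.natCast_eq_zero_iff]
        exact u_dvd_sq hp h2 (by omega)
      rw [h3, mul_zero]
    · rw [if_neg h2, mul_zero]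

private theorem isUnit_sq {p : ℕ} [Fact p.Prime] {m : ℕ} (h : ¬ p ∣ m) :
    IsUnit ((m : ℕ) : ZMod (p ^ 2)) := by
  have hp : p.Prime := Fact.out
  rw [ZMod.isUnit_iff_coprime]
  exact ((Nat.Prime.coprime_iff_not_dvd hp).2 h).symm.pow_right 2

private theorem ode_unique {p : ℕ} [Fact p.Prime] {y : (ZMod (p ^ 2))[X]}
    (hy : derivative ((X - 27 * X ^ 2) * derivative y) = 6 * y)
    (hd : ∀ j, p ≤ j → y.coeff j = 0) : y = C (y.coeff 0) * P p X := by
  rw [ode_iff] at hy
  ext j
  rw [coeff_C_mul, coeff_P]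
  by_cases h1 : j < p
  · rw [if_pos h1]
    induction j with
    | zero => rw [u_zero]; simp
    | succ j ih =>
      have h2 := ih (by omega)
      have h3 := hy j
      have h4 := congrArg (Nat.cast : ℕ → ZMod (p ^ 2)) (u_succ j)
      push_cast at h4
      have h5 : IsUnit ((((j : ZMod (p ^ 2)) + 1)) ^ 2) := by
        have h6 : IsUnit (((j + 1 : ℕ)) : ZMod (p ^ 2)) :=
          isUnit_sq (fun h => by have := Nat.le_of_dvd (by omega) h; omega)
        push_cast at h6
        exact h6.pow 2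
      refine h5.mul_left_cancel ?_
      rw [h3, h2]
      linear_combination (-(y.coeff 0)) * h4
  · rw [if_neg h1, mul_zero, hd j (by omega)]

private theorem P_comp {R : Type*} [CommRing R] (p : ℕ) (g : R[X]) :
    (P p (X : R[X])).comp g = P p g := by
  have h := map_P (compRingHom g) p (X : R[X])
  rw [coe_compRingHom_apply, coe_compRingHom_apply, X_comp] at h
  exact h

private theorem P_symm {p : ℕ} [Fact p.Prime] (h7 : 7 ≤ p) {c0 : ZMod (p ^ 2)}
    (hc : 27 * c0 = 1) :
    P p (C c0 - X) = C ((eps p : ℤ) : ZMod (p ^ 2)) * P p (X : (ZMod (p ^ 2))[X]) := by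
  have hp : p.Prime := Fact.out
  have hC : (27 : (ZMod (p ^ 2))[X]) * C c0 = 1 := by
    rw [show (27 : (ZMod (p ^ 2))[X]) = C 27 by rw [map_ofNat], ← C_mul, hc, C_1]
  obtain ⟨f, hf⟩ : ∃ f, f = P p (X : (ZMod (p ^ 2))[X]) := ⟨_, rfl⟩
  obtain ⟨g, hg⟩ : ∃ g : (ZMod (p ^ 2))[X], g = C c0 - X := ⟨_, rfl⟩
  have hdg : derivative g = -1 := by rw [hg]; simp
  have hode : derivative ((X - 27 * X ^ 2) * derivative f) = 6 * f := by
    rw [hf]
    exact P_ode h7
  have hzg : (X - 27 * X ^ 2 : (ZMod (p ^ 2))[X]).comp g = X - 27 * X ^ 2 := by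
    rw [sub_comp, X_comp, mul_comp, X_pow_comp, show (27 : (ZMod (p ^ 2))[X]) = C 27 by
      rw [map_ofNat], C_comp, show (C 27 : (ZMod (p ^ 2))[X]) = 27 by rw [map_ofNat], hg]
    linear_combination (2 * X - C c0) * hC
  have hy : derivative ((X - 27 * X ^ 2) * derivative (f.comp g)) = 6 * f.comp g := by
    have h1 : (X - 27 * X ^ 2) * derivative (f.comp g) =
        -((X - 27 * X ^ 2) * derivative f).comp g := by
      rw [derivative_comp, hdg, mul_comp, hzg]
      ring
    rw [h1, derivative_neg, derivative_comp, hdg, hode, mul_comp,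
      show (6 : (ZMod (p ^ 2))[X]) = C 6 by rw [map_ofNat], C_comp]
    ring
  have hdf : f.natDegree ≤ p - 1 := by
    rw [natDegree_le_iff_coeff_eq_zero]
    intro j hj
    rw [hf, coeff_P, if_neg (by omega)]
  have hdg1 : g.natDegree ≤ 1 := by
    rw [hg]
    refine (natDegree_sub_le _ _).trans ?_
    rw [natDegree_C]
    exact max_le (Nat.zero_le _) natDegree_X_le
  have hdy : ∀ j, p ≤ j → (f.comp g).coeff j = 0 := by
    intro j hj
    refine coeff_eq_zero_of_natDegree_lt ?_
    have h1 : (f.comp g).natDegree ≤ f.natDegree * g.natDegree := natDegree_comp_le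
    have h2 : f.natDegree * g.natDegree ≤ (p - 1) * 1 := Nat.mul_le_mul hdf hdg1
    have := hp.pos
    omega
  have hyf := ode_unique hy hdy
  rw [← hf] at hyf
  obtain ⟨e, he⟩ : ∃ e, e = (f.comp g).coeff 0 := ⟨_, rfl⟩
  rw [← he] at hyf
  -- e ^ 2 = 1
  have hgg : g.comp g = X := by
    rw [hg, sub_comp, C_comp, X_comp]
    ring
  have hf0 : f.coeff 0 = 1 := by
    rw [hf, coeff_P, if_pos hp.pos, u_zero, Nat.cast_one]
  have he2 : e ^ 2 = 1 := by
    have h1 : f = C e * (C e * f) := by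
      calc f = f.comp (g.comp g) := by rw [hgg, comp_X]
        _ = (f.comp g).comp g := (comp_assoc _ _ _).symm
        _ = C e * (C e * f) := by rw [hyf, mul_comp, C_comp, hyf]
    have h2 := congrArg (fun q => coeff q 0) h1
    simp only [coeff_C_mul, hf0] at h2
    rw [h2]
    ring
  -- sign modulo p
  have hdvd : p ∣ p ^ 2 := dvd_pow_self p two_ne_zero
  obtain ⟨π, hπ⟩ : ∃ π : ZMod (p ^ 2) →+* ZMod p, π = ZMod.castHom hdvd (ZMod p) := ⟨_, rfl⟩
  have h3p : p % 3 ≠ 0 := by
    intro h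
    have h4 : 3 ∣ p := Nat.dvd_of_mod_eq_zero h
    rcases (Nat.dvd_prime hp).1 h4 with h5 | h5 <;> omega
  have hcf : ∀ j, (f.map π).coeff j = if j < p then ((u j : ℕ) : ZMod p) else 0 := by
    intro j
    rw [coeff_map, hf, coeff_P]
    split
    · rw [map_natCast]
    · rw [map_zero]
  have hm0 : (f.map π).coeff (p / 3) ≠ 0 := by
    rw [hcf, if_pos (by omega)]
    intro h
    rw [ZMod.natCast_eq_zero_iff] at h
    exact u_not_dvd hp (by omega) h
  have hdeg : (f.map π).natDegree = p / 3 := by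
    refine natDegree_eq_of_le_of_coeff_ne_zero ?_ hm0
    rw [natDegree_le_iff_coeff_eq_zero]
    intro j hj
    rw [hcf]
    split
    · next h1 =>
      rw [ZMod.natCast_eq_zero_iff]
      exact u_dvd hp h1 (by omega)
    · rfl
  have hgm : g.map π = -(X - C (π c0)) := by
    rw [hg, Polynomial.map_sub, map_C, map_X]
    ring
  have hlg : (g.map π).leadingCoeff = -1 := by
    rw [hgm, leadingCoeff_neg, leadingCoeff_X_sub_C]
  have hdgm : (g.map π).natDegree ≠ 0 := by
    rw [hgm, natDegree_neg, natDegree_X_sub_C]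
    exact one_ne_zero
  have hpe : π e = (-1) ^ (p / 3) := by
    have h1 : (f.map π).comp (g.map π) = C (π e) * f.map π := by
      rw [← map_comp, hyf, Polynomial.map_mul, map_C]
    have h2 := congrArg leadingCoeff h1
    rw [leadingCoeff_comp hdgm, leadingCoeff_mul, leadingCoeff_C, hlg, hdeg] at h2
    have h3 : (f.map π).leadingCoeff ≠ 0 := by
      rw [leadingCoeff, hdeg]
      exact hm0
    have h4 : (f.map π).leadingCoeff * (-1) ^ (p / 3) = (f.map π).leadingCoeff * π e := by
      rw [h2]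
      ring
    exact (mul_left_cancel₀ h3 h4).symm
  have hes : e = (-1) ^ (p / 3) := by
    have h1 : (e + (-1) ^ (p / 3)) * (e - (-1) ^ (p / 3)) = 0 := by
      have h2 : ((-1 : ZMod (p ^ 2)) ^ (p / 3)) ^ 2 = 1 := by
        rw [← pow_mul, Nat.mul_comm, pow_mul]
        simp
      linear_combination he2 - h2
    have h3 : IsUnit (e + (-1) ^ (p / 3)) := by
      have h4 : π (e + (-1) ^ (p / 3)) ≠ 0 := by
        rw [map_add, hpe, map_pow, map_neg, map_one, ← two_mul]
        refine mul_ne_zero ?_ (pow_ne_zero _ (neg_ne_zero.2 one_ne_zero))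
        intro h5
        have h6 : ((2 : ℕ) : ZMod p) = 0 := by exact_mod_cast h5
        rw [ZMod.natCast_eq_zero_iff] at h6
        have := Nat.le_of_dvd (by norm_num) h6
        omega
      have : NeZero (p ^ 2) := ⟨pow_ne_zero 2 hp.pos.ne'⟩
      rw [← ZMod.natCast_zmod_val (e + (-1) ^ (p / 3))] at h4 ⊢
      refine isUnit_sq (fun h7 => h4 ?_)
      rw [map_natCast, ZMod.natCast_eq_zero_iff]
      exact h7
    have h8 := h3.mul_right_eq_zero.1 h1
    exact sub_eq_zero.1 h8
  rw [← P_comp, ← hf, ← hg, hyf, hes, eps_eq h7]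
  push_cast
  rfl

theorem P_refl {p : ℕ} [Fact p.Prime] (h7 : 7 ≤ p) {A : Type*} [CommRing A]
    (hA : (p : A) ^ 2 = 0) {b b' : A} (h : 27 * (b + b') = 1) :
    P p b' = (eps p : A) * P p b := by
  obtain ⟨φ, -⟩ := exists_hom hA
  have hp : p.Prime := Fact.out
  have hu : IsUnit (((27 : ℕ)) : ZMod (p ^ 2)) := by
    refine isUnit_sq (fun h1 => ?_)
    have h2 : p ∣ 3 := hp.dvd_of_dvd_pow (show p ∣ 3 ^ 3 by norm_num; exact h1)
    have := Nat.le_of_dvd (by norm_num) h2
    omega
  obtain ⟨v, hv⟩ := hu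
  have hc : (27 : ZMod (p ^ 2)) * (↑v⁻¹ : ZMod (p ^ 2)) = 1 := by
    have h1 : ((27 : ℕ) : ZMod (p ^ 2)) = 27 := by norm_num
    rw [← h1, ← hv]
    exact v.mul_inv
  have h1 := congrArg (eval₂RingHom φ b) (P_symm h7 hc)
  rw [map_mul, map_P, map_P] at h1
  have h2 : φ (↑v⁻¹ : ZMod (p ^ 2)) = b + b' := by
    have h3 := congrArg φ hc
    rw [map_mul, map_ofNat, map_one] at h3
    calc φ (↑v⁻¹ : ZMod (p ^ 2)) = φ (↑v⁻¹ : ZMod (p ^ 2)) * (27 * (b + b')) := by rw [h, mul_one]
      _ = (27 * φ (↑v⁻¹ : ZMod (p ^ 2))) * (b + b') := by ring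
      _ = b + b' := by rw [h3, one_mul]
  simp only [coe_eval₂RingHom, eval₂_sub, eval₂_C, eval₂_X, h2, map_intCast] at h1
  rw [add_sub_cancel_left] at h1
  exact h1

end SC15
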