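import Pool.Agent.SC15.A.Tw
import Pool.Agent.SC15.A.Refl

/-!
# SC15-A-QRev: `Q(t) = t^(p-1) Q(-2/t)` in `F_p[t]`

PLAN. Let `y = Q p = f.comp β`, `f = P p X ∈ F_p[X]`, `β = btP p`.  `natDegree y < p`: `u_j = 0` modulo
`p` for `p ≤ 3j` (`u_dvd`), so `y = ∑_{3j<p} u_j β^j`.
(1) ODE.  Reduce `P_ode` modulo `p`: `((X - 27X^2) f')' = 6 f` in `F_p[X]`.  With
`w = (X^2-1)(4-X^2)`: `β' = (X^2-1)/36`, `(z).comp β = (X^2-1)^2 (4-X^2)/432`, so
`w y' = 12 (z f').comp β` and `(w y')' = 12 * 6 f(β) β' = 2 (X^2-1) y`.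
(2) Coefficients: for all `i`:  `4 (i+1)(i+2) y_{i+2} = (5 i^2 + 5 i + 2) y_i - i (i-1) y_{i-2}`
(`y_{i-2} = 0` for `i < 2`).  Conversely this recursion is the ODE.
(3) `y* = tw (p-1) y`, `y*_i = y_{p-1-i} (-2)^(p-1-i)` satisfies the same recursion: put `i = p-1-i'`
in (2), i.e. `i = -1-i'` in `ZMod p`, and multiply by `(-2)^(p-1-i')`:
`i(i-1) = (i'+1)(i'+2)`, `(i+1)(i+2) = i'(i'-1)`, `5i^2+5i+2` is invariant (`i' ≤ p-1`; the boundary
values `i' = p-1, p-2` and `i' > p-1` are immediate because of the factors `(i'+1)(i'+2)`).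
(4) `y(1) = P(β(1)) = P(0) = 1`, `y*(1) = ∑ y_j (-2)^j = y(-2) = P(β(-2)) = P(0) = 1`.
(5) Uniqueness: `D = y* - y` satisfies the ODE, `natDegree D < p`, `D(1) = 0`.  If `D ≠ 0`,
`D = (X-1)^m E`, `E(1) ≠ 0`, `1 ≤ m < p` (`Polynomial.exists_eq_pow_rootMultiplicity_mul_and_not_dvd`);
`w = (X-1) w1`, `w1(1) = 6`; `(w D')'` is `m^2 w1 E (X-1)^(m-1)` modulo `(X-1)^m`, and
`2 (X^2-1) D` is `0` modulo `(X-1)^m`; so `6 m^2 E(1) = 0`, contradiction.
(Checked numerically for `p ≤ 23`.)
-/

namespace SC15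

open Polynomial

lemma qrev_two {p : ℕ} [Fact p.Prime] (h7 : 7 ≤ p) : (2 : ZMod p) ≠ 0 := by
  intro h
  have h2 : ((2 : ℕ) : ZMod p) = 0 := by exact_mod_cast h
  rw [ZMod.natCast_eq_zero_iff] at h2
  have := Nat.le_of_dvd (by norm_num) h2
  omega

lemma qrev_three {p : ℕ} [Fact p.Prime] (h7 : 7 ≤ p) : (3 : ZMod p) ≠ 0 := by
  intro h
  have h2 : ((3 : ℕ) : ZMod p) = 0 := by exact_mod_cast h
  rw [ZMod.natCast_eq_zero_iff] at h2
  have := Nat.le_of_dvd (by norm_num) h2
  omega

lemma qrev_108 {p : ℕ} [Fact p.Prime] (h7 : 7 ≤ p) : (108 : ZMod p) ≠ 0 := by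
  have h : (108 : ZMod p) = 2 ^ 2 * 3 ^ 3 := by norm_num
  rw [h]
  exact mul_ne_zero (pow_ne_zero _ (qrev_two h7)) (pow_ne_zero _ (qrev_three h7))

lemma qrev_36 {p : ℕ} [Fact p.Prime] (h7 : 7 ≤ p) : (36 : (ZMod p)[X]) ≠ 0 := by
  have h : (36 : (ZMod p)[X]) = C (2 ^ 2 * 3 ^ 2) := by
    rw [C_mul, C_pow, C_pow]
    simp only [map_ofNat]
    norm_num
  rw [h, Ne, C_eq_zero]
  exact mul_ne_zero (pow_ne_zero _ (qrev_two h7)) (pow_ne_zero _ (qrev_three h7))

lemma qrev_P_zero {A : Type*} [CommRing A] {p : ℕ} (hp : 0 < p) : P p (0 : A) = 1 := by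
  unfold P
  rw [Finset.sum_eq_single 0]
  · simp [u_zero]
  · intro j _ hj
    simp [hj]
  · intro h
    exact absurd (Finset.mem_range.2 hp) h

theorem Q_natDegree {p : ℕ} [Fact p.Prime] (h7 : 7 ≤ p) : (Q p).natDegree < p := by
  have hp : p.Prime := Fact.out
  have hb : (btP p).natDegree ≤ 3 := by
    unfold btP
    refine (natDegree_C_mul_le _ _).trans ?_
    compute_degree
  have h : (Q p).natDegree ≤ p - 1 := by
    unfold Q P
    refine natDegree_sum_le_of_forall_le _ _ (fun j hj => ?_)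
    rw [Finset.mem_range] at hj
    by_cases h3 : p ≤ 3 * j
    · have h0 : ((u j : ℕ) : (ZMod p)[X]) = 0 := by
        obtain ⟨c, hc⟩ := u_dvd hp hj h3
        rw [hc, Nat.cast_mul, CharP.cast_eq_zero, zero_mul]
      rw [h0, zero_mul]
      simp
    · have h1 : ((u j : (ZMod p)[X]) * btP p ^ j).natDegree ≤ 3 * j := by
        refine natDegree_mul_le.trans ?_
        rw [natDegree_natCast, zero_add]
        refine natDegree_pow_le.trans ?_
        nlinarith
      omega
  omega

/-- The differential equation of `f = P(X)` modulo `p`. -/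
lemma qrev_ode0 {p : ℕ} [Fact p.Prime] (h7 : 7 ≤ p) :
    derivative ((X - 27 * X ^ 2) * derivative (P p (X : (ZMod p)[X]))) =
      6 * P p (X : (ZMod p)[X]) := by
  have h := P_ode (p := p) h7
  have hφ : p ∣ p ^ 2 := dvd_pow_self p two_ne_zero
  have hF : (P p (X : (ZMod (p ^ 2))[X])).map (ZMod.castHom hφ (ZMod p)) =
      P p (X : (ZMod p)[X]) := by
    have := map_P (mapRingHom (ZMod.castHom hφ (ZMod p))) p (X : (ZMod (p ^ 2))[X])
    simpa only [coe_mapRingHom, map_X] using this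
  have h2 := congrArg (Polynomial.map (ZMod.castHom hφ (ZMod p))) h
  rw [← derivative_map, Polynomial.map_mul, ← derivative_map, Polynomial.map_sub,
    Polynomial.map_mul, Polynomial.map_mul, Polynomial.map_pow, map_X, hF,
    Polynomial.map_ofNat, Polynomial.map_ofNat] at h2
  exact h2

lemma qrev_comp (p : ℕ) [Fact p.Prime] : (P p (X : (ZMod p)[X])).comp (btP p) = Q p := by
  have := map_P (compRingHom (btP p)) p (X : (ZMod p)[X])
  rw [coe_compRingHom_apply, coe_compRingHom_apply, X_comp] at this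
  exact this

lemma qrev_ode {p : ℕ} [Fact p.Prime] (h7 : 7 ≤ p) :
    derivative ((X ^ 2 - 1) * (4 - X ^ 2) * derivative (Q p)) = 2 * (X ^ 2 - 1) * Q p := by
  have hf := qrev_ode0 (p := p) h7
  set f := P p (X : (ZMod p)[X]) with hfdef
  have hy : f.comp (btP p) = Q p := qrev_comp p
  have h108 : (108 : (ZMod p)[X]) * btP p = X ^ 3 - 3 * X + 2 := by
    have e : (108 : (ZMod p)[X]) = C 108 := by simp only [map_ofNat]
    rw [btP, e, ← mul_assoc, ← C_mul, mul_inv_cancel₀ (qrev_108 h7), C_1, one_mul]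
  have hd : (36 : (ZMod p)[X]) * derivative (btP p) = X ^ 2 - 1 := by
    have h1 := congrArg derivative h108
    have e1 : derivative ((108 : (ZMod p)[X]) * btP p) = 108 * derivative (btP p) := by
      rw [derivative_mul]
      have : derivative (108 : (ZMod p)[X]) = 0 := derivative_ofNat 108
      rw [this, zero_mul, zero_add]
    have e2 : derivative ((X : (ZMod p)[X]) ^ 3 - 3 * X + 2) = 3 * (X ^ 2 - 1) := by
      have d3 : derivative (3 : (ZMod p)[X]) = 0 := derivative_ofNat 3
      have d2 : derivative (2 : (ZMod p)[X]) = 0 := derivative_ofNat 2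
      rw [derivative_add, derivative_sub, derivative_mul, derivative_X_pow, derivative_X, d3, d2]
      simp only [map_natCast]
      push_cast
      ring
    rw [e1, e2] at h1
    have h3 : (3 : (ZMod p)[X]) ≠ 0 := by
      have e : (3 : (ZMod p)[X]) = C 3 := by simp only [map_ofNat]
      rw [e, Ne, C_eq_zero]
      exact qrev_three h7
    refine mul_left_cancel₀ h3 ?_
    rw [← h1]
    ring
  have hz : (X ^ 2 - 1) * (4 - X ^ 2) * derivative (btP p) =
      12 * ((X - 27 * X ^ 2 : (ZMod p)[X]).comp (btP p)) := by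
    have ec : (X - 27 * X ^ 2 : (ZMod p)[X]).comp (btP p) = btP p - 27 * btP p ^ 2 := by
      simp only [sub_comp, mul_comp, pow_comp, X_comp, ofNat_comp]
      norm_num
    rw [ec]
    refine mul_left_cancel₀ (qrev_36 h7) ?_
    refine mul_left_cancel₀ (qrev_36 h7) ?_
    have e1 : (36 : (ZMod p)[X]) * (36 * ((X ^ 2 - 1) * (4 - X ^ 2) * derivative (btP p))) =
        36 * ((X ^ 2 - 1) * (4 - X ^ 2)) * (36 * derivative (btP p)) := by ring
    have e2 : (36 : (ZMod p)[X]) * (36 * (12 * (btP p - 27 * btP p ^ 2))) =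
        144 * (108 * btP p) - 36 * (108 * btP p) ^ 2 := by ring
    rw [e1, e2, hd, h108]
    ring
  have hy' : derivative (Q p) = derivative (btP p) * (derivative f).comp (btP p) := by
    rw [← hy, derivative_comp]
  have e3 : (X ^ 2 - 1) * (4 - X ^ 2) * derivative (Q p) =
      12 * (((X - 27 * X ^ 2) * derivative f).comp (btP p)) := by
    rw [hy', ← mul_assoc, hz, mul_comp, mul_assoc]
  have e4 : derivative (12 * (((X - 27 * X ^ 2) * derivative f).comp (btP p))) =
      12 * derivative (((X - 27 * X ^ 2) * derivative f).comp (btP p)) := by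
    rw [derivative_mul]
    have : derivative (12 : (ZMod p)[X]) = 0 := derivative_ofNat 12
    rw [this, zero_mul, zero_add]
  rw [e3, e4, derivative_comp, hf, mul_comp, hy, ofNat_comp, ← hd]
  ring

/-- The differential operator. -/
noncomputable def qL {A : Type*} [CommRing A] (y : A[X]) : A[X] :=
  derivative ((X ^ 2 - 1) * (4 - X ^ 2) * derivative y) - 2 * (X ^ 2 - 1) * y

lemma qL_sub {A : Type*} [CommRing A] (y z : A[X]) : qL (y - z) = qL y - qL z := by
  unfold qL
  rw [derivative_sub, mul_sub, derivative_sub]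
  ring

lemma qrev_theta {A : Type*} [CommRing A] (y : A[X]) (i : ℕ) :
    (X * derivative y).coeff i = i * y.coeff i := by
  rcases i with _ | i
  · simp
  · rw [coeff_X_mul, coeff_derivative]
    push_cast
    ring

lemma qL_coeff {A : Type*} [CommRing A] (y : A[X]) (i : ℕ) :
    (qL y).coeff i = (5 * (i : A) ^ 2 + 5 * i + 2) * y.coeff i -
      i * (i - 1) * y.coeff (i - 2) - 4 * (i + 1) * (i + 2) * y.coeff (i + 2) := by
  have e : qL y = derivative (C 5 * (X * (X * derivative y)) - X ^ 3 * (X * derivative y) -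
      C 4 * derivative y) - C 2 * (X ^ 2 * y) + C 2 * y := by
    unfold qL
    simp only [map_ofNat]
    have : (X ^ 2 - 1) * (4 - X ^ 2) * derivative y =
      (5 * (X * (X * derivative y)) - X ^ 3 * (X * derivative y) -
      4 * derivative y) := by ring
    rw [this]
    ring
  rw [e, coeff_add, coeff_sub, coeff_derivative, coeff_sub, coeff_sub, coeff_C_mul, coeff_C_mul,
    coeff_C_mul, coeff_C_mul, coeff_X_mul, qrev_theta, coeff_derivative]
  rcases i with _ | _ | i
  · rw [coeff_X_pow_mul', coeff_X_pow_mul', if_neg (by norm_num), if_neg (by norm_num)]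
    push_cast
    ring
  · rw [coeff_X_pow_mul', coeff_X_pow_mul', if_neg (by norm_num), if_neg (by norm_num)]
    push_cast
    ring
  · have e1 : i + 1 + 1 + 1 = i + 3 := rfl
    have e2 : i + 1 + 1 = i + 2 := rfl
    rw [e1, e2, coeff_X_pow_mul, coeff_X_pow_mul, qrev_theta, Nat.add_sub_cancel]
    push_cast
    ring

/-- The twisted reversal preserves the kernel of the operator. -/
lemma qL_tw {p : ℕ} [Fact p.Prime] (h7 : 7 ≤ p) {y : (ZMod p)[X]} (hy : qL y = 0) :
    qL (tw (p - 1) y) = 0 := by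
  have hp : p.Prime := Fact.out
  have hrec : ∀ i : ℕ, (5 * (i : ZMod p) ^ 2 + 5 * i + 2) * y.coeff i -
      i * (i - 1) * y.coeff (i - 2) - 4 * (i + 1) * (i + 2) * y.coeff (i + 2) = 0 := by
    intro i
    rw [← qL_coeff, hy, coeff_zero]
  ext i
  rw [qL_coeff, coeff_zero, tw_coeff, tw_coeff, tw_coeff]
  by_cases hi : i ≤ p - 1
  · obtain ⟨k, hk⟩ : ∃ k, i + k = p - 1 := ⟨p - 1 - i, by omega⟩
    have hk' : p - 1 - i = k := by omega
    have hc : (i : ZMod p) = -1 - k := by
      have h1 : ((i + k + 1 : ℕ) : ZMod p) = 0 := by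
        have : i + k + 1 = p := by omega
        rw [this, CharP.cast_eq_zero]
      push_cast at h1
      linear_combination h1
    have hr := hrec k
    have h0 : (if i ≤ p - 1 then y.coeff (p - 1 - i) * (-2) ^ (p - 1 - i) else 0) =
        y.coeff k * (-2) ^ k := by rw [if_pos hi, hk']
    have ha : (i : ZMod p) * (i - 1) *
        (if i - 2 ≤ p - 1 then y.coeff (p - 1 - (i - 2)) * (-2) ^ (p - 1 - (i - 2)) else 0) =
        4 * (k + 1) * (k + 2) * y.coeff (k + 2) * (-2) ^ k := by
      by_cases h2 : 2 ≤ i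
      · have e1 : p - 1 - (i - 2) = k + 2 := by omega
        rw [if_pos (by omega), e1, hc, pow_add]
        ring
      · have hz : (i : ZMod p) * (i - 1) = 0 := by
          have : i = 0 ∨ i = 1 := by omega
          rcases this with h | h <;> simp [h]
        have hz2 : ((k : ZMod p) + 1) * (k + 2) = 0 := by
          rw [← hz, hc]
          ring
        rw [hz, zero_mul]
        linear_combination (-4 * y.coeff (k + 2) * (-2) ^ k) * hz2
    have hb : 4 * ((i : ZMod p) + 1) * (i + 2) *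
        (if i + 2 ≤ p - 1 then y.coeff (p - 1 - (i + 2)) * (-2) ^ (p - 1 - (i + 2)) else 0) =
        k * (k - 1) * y.coeff (k - 2) * (-2) ^ k := by
      by_cases h2 : 2 ≤ k
      · obtain ⟨l, rfl⟩ : ∃ l, k = l + 2 := ⟨k - 2, by omega⟩
        have e1 : p - 1 - (i + 2) = l := by omega
        rw [if_pos (by omega), e1, hc, pow_add, Nat.add_sub_cancel]
        push_cast
        ring
      · have hz : (k : ZMod p) * (k - 1) = 0 := by
          have : k = 0 ∨ k = 1 := by omega
          rcases this with h | h <;> simp [h]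
        have hz2 : ((i : ZMod p) + 1) * (i + 2) = 0 := by
          rw [← hz, hc]
          ring
        rw [hz, zero_mul, zero_mul]
        rw [mul_assoc 4, hz2]
        ring
    rw [h0, ha, hb, hc]
    linear_combination ((-2) ^ k) * hr
  · have hi2 : ¬ i + 2 ≤ p - 1 := by omega
    rw [if_neg hi, if_neg hi2, mul_zero, mul_zero, sub_zero, zero_sub, neg_eq_zero]
    by_cases h2 : i - 2 ≤ p - 1
    · have hz : (i : ZMod p) * (i - 1) = 0 := by
        have : i = p ∨ i = p + 1 := by omega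
        rcases this with h | h <;> simp [h]
      rw [hz, zero_mul]
    · rw [if_neg h2, mul_zero]

/-- Uniqueness. -/
lemma qL_unique {p : ℕ} [Fact p.Prime] (h7 : 7 ≤ p) {D : (ZMod p)[X]} (hD : qL D = 0)
    (hdeg : D.natDegree < p) (h1 : D.eval 1 = 0) : D = 0 := by
  by_contra hne
  obtain ⟨E, hE, hndvd⟩ := exists_eq_pow_rootMultiplicity_mul_and_not_dvd D hne 1
  have hmpos : 0 < D.rootMultiplicity 1 := (rootMultiplicity_pos hne).2 h1
  have hmle : D.rootMultiplicity 1 ≤ D.natDegree := by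
    have h2 := natDegree_le_of_dvd (pow_rootMultiplicity_dvd D 1) hne
    rwa [natDegree_pow, natDegree_X_sub_C, mul_one] at h2
  obtain ⟨n, hn⟩ : ∃ n, D.rootMultiplicity 1 = n + 1 := ⟨D.rootMultiplicity 1 - 1, by omega⟩
  rw [hn] at hE hmle
  have hmp : ((n : ZMod p) + 1) ≠ 0 := by
    intro h
    have h2 : ((n + 1 : ℕ) : ZMod p) = 0 := by exact_mod_cast h
    rw [ZMod.natCast_eq_zero_iff] at h2
    have := Nat.le_of_dvd (by omega) h2
    omega
  apply hndvd
  rw [dvd_iff_isRoot, IsRoot.def]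
  have hX : (X - C (1 : ZMod p)) ≠ 0 := X_sub_C_ne_zero 1
  have hd : derivative (X - C (1 : ZMod p)) = 1 := derivative_X_sub_C 1
  have e1 : (X ^ 2 - 1) * (4 - X ^ 2) * derivative D =
      (X - C (1 : ZMod p)) ^ (n + 1) * ((X + 1) * (4 - X ^ 2) *
        (((n : (ZMod p)[X]) + 1) * E + (X - C 1) * derivative E)) := by
    rw [hE, derivative_mul, derivative_pow_succ, hd]
    simp only [map_add, map_natCast, map_one]
    ring
  have e2 : derivative ((X ^ 2 - 1) * (4 - X ^ 2) * derivative D) =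
      (X - C (1 : ZMod p)) ^ n * (((n : (ZMod p)[X]) + 1) * ((X + 1) * (4 - X ^ 2) *
        (((n : (ZMod p)[X]) + 1) * E + (X - C 1) * derivative E)) + (X - C 1) *
        derivative ((X + 1) * (4 - X ^ 2) *
        (((n : (ZMod p)[X]) + 1) * E + (X - C 1) * derivative E))) := by
    rw [e1, derivative_mul, derivative_pow_succ, hd]
    simp only [map_add, map_natCast, map_one]
    ring
  have e3 : 2 * (X ^ 2 - 1) * D = (X - C (1 : ZMod p)) ^ n *
      (2 * (X + 1) * (X - C 1) ^ 2 * E) := by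
    rw [hE]
    simp only [map_one]
    ring
  unfold qL at hD
  rw [e2, e3, ← mul_sub] at hD
  have h5 := (mul_eq_zero.1 hD).resolve_left (pow_ne_zero _ hX)
  have h6 := congrArg (eval 1) h5
  simp only [eval_sub, eval_mul, eval_add, eval_pow, eval_X, eval_C, eval_one, eval_natCast,
    eval_ofNat, eval_zero] at h6
  have h7' : (2 : ZMod p) * 3 * ((n : ZMod p) + 1) * ((n : ZMod p) + 1) * E.eval 1 = 0 := by
    linear_combination h6
  have h8 : (2 : ZMod p) * 3 * ((n : ZMod p) + 1) * ((n : ZMod p) + 1) ≠ 0 :=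
    mul_ne_zero (mul_ne_zero (mul_ne_zero (qrev_two h7) (qrev_three h7)) hmp) hmp
  exact (mul_eq_zero.1 h7').resolve_left h8

theorem Q_tw {p : ℕ} [Fact p.Prime] (h7 : 7 ≤ p) : tw (p - 1) (Q p) = Q p := by
  have hp : p.Prime := Fact.out
  have hQ : qL (Q p) = 0 := by
    unfold qL
    rw [qrev_ode h7, sub_self]
  have hdeg := Q_natDegree (p := p) h7
  have hev : ∀ a : ZMod p, a ^ 3 - 3 * a + 2 = 0 → (Q p).eval a = 1 := by
    intro a ha
    have h := map_P (evalRingHom a) p (btP p)
    rw [coe_evalRingHom] at h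
    have hb : (btP p).eval a = 0 := by
      unfold btP
      simp [ha]
    rw [hb, qrev_P_zero hp.pos] at h
    exact h
  have h1 : (Q p).eval 1 = 1 := hev 1 (by norm_num)
  have h2 : (tw (p - 1) (Q p)).eval 1 = 1 := by
    have h := aeval_tw (k := ZMod p) (m := p - 1) (f := Q p) (by omega) (one_ne_zero)
    rw [one_pow, one_mul, div_one, coe_aeval_eq_eval, coe_aeval_eq_eval,
      hev (-2) (by norm_num)] at h
    exact h
  have h3 : qL (tw (p - 1) (Q p) - Q p) = 0 := by
    rw [qL_sub, hQ, qL_tw h7 hQ, sub_self]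
  have h4 : (tw (p - 1) (Q p) - Q p).natDegree < p := by
    have := natDegree_sub_le (tw (p - 1) (Q p)) (Q p)
    have h5 := natDegree_tw_le (p - 1) (Q p)
    have h6 : max (tw (p - 1) (Q p)).natDegree (Q p).natDegree < p := by
      rw [max_lt_iff]
      constructor
      · omega
      · exact hdeg
    omega
  have h5 : (tw (p - 1) (Q p) - Q p).eval 1 = 0 := by
    rw [eval_sub, h1, h2, sub_self]
  exact sub_eq_zero.1 (qL_unique h7 h3 h4 h5)

end SC15
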