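import Pool.Agent.SC15.A.OddB
import Pool.Agent.SC15.A.QRev

/-!
# SC15-A-Hpoly: the polynomial `H = G / (t^2-1)^p`

PLAN.
(1) By `kap_eq`, `G = (X-1)^p * G1`,
`G1 = 3 (X-1)^p (X+2)^p Rt(β) - (C q (X-1)^p (X+2)^p + 2 hk_1 (X+2)^p + hk_{-2} (X-1)^p) Q`.
(2) `G_odd` and `(X-1)^p ∣ G` give `(X+1)^p ∣ G` (substitute `-X`); `(X-1)^p`, `(X+1)^p` are coprime,
so `(X+1)^p ∣ G1`: `G1 = (X+1)^p H`, and `(X^2-1)^p H = G`.
(3) Degrees: `Rt p (btP p)` has degree `≤ 2p-1` (`rt p j = 0` for `2p ≤ 3j`; `btP` has degree 3),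
`Q` has degree `< p`, `hk` degree `< p` (`hh_natDegree`); so `natDegree G1 ≤ 4p-1`, `natDegree H ≤ 3p-1`
(`natDegree_mul` in a domain; if `H = 0` trivial).
(4) `odd`: `((X^2-1)^p).comp (-X) = (X^2-1)^p`, cancel it in `G_odd`.
(5) `cusp`: characteristic `p`: `(X + a)^p = (X - b)^p + (a + b)^p`, `(n : ZMod p)^p = n`.
`c = 1`: modulo `(X-1)^p`: `(X+1)^p = 2`, `(X+2)^p = 3`, so `2 H = (X+1)^p H = G1 = -6 hk_1 Q`.
`c = -2`: modulo `(X+2)^p`: `(X+1)^p = -1`, `(X-1)^p = -3`, so `-H = G1 = 3 hk_{-2} Q`.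
`c = -1, 2`: substitute `-X` in the statements for `c = 1, -2`, using `odd`, `Q_refl`
and `hk_neg` (`(hk p c).comp (-X) = - hk p (-c)`); `eps p` is a unit (`±1`).
(Checked numerically for `p ≤ 23`.)
-/

namespace SC15

open Polynomial

/-- The properties of `H`. -/
structure IsH (p : ℕ) [Fact p.Prime] (H : (ZMod p)[X]) : Prop where
  deg : H.natDegree < 3 * p
  eq : (X ^ 2 - 1) ^ p * H = G p
  odd : H.comp (-X) = -((eps p : (ZMod p)[X]) * H)
  cusp : ∀ c : ℤ, (c = 1 ∨ c = -1 ∨ c = 2 ∨ c = -2) →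
    (X - C (c : ZMod p)) ^ p ∣ H + 3 * hk p c * Q p

private theorem eps_sq (p : ℕ) : (eps p : (ZMod p)[X]) * (eps p : (ZMod p)[X]) = 1 := by
  unfold eps
  split_ifs <;> simp

private theorem hk_natDegree {p : ℕ} [Fact p.Prime] (h7 : 7 ≤ p) (c : ℤ) :
    (hk p c).natDegree < p :=
  lt_of_le_of_lt natDegree_map_le (hh_natDegree h7 c)

private theorem rt_zero {p j : ℕ} (h : 2 * p ≤ 3 * j) : rt p j = 0 := by
  unfold rt r
  rw [if_neg (by omega), if_neg (by omega)]
  exact ZMod.val_zero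

private theorem btP_natDegree (p : ℕ) [Fact p.Prime] : (btP p).natDegree ≤ 3 := by
  unfold btP
  compute_degree

private theorem Rt_natDegree {p : ℕ} [Fact p.Prime] (h7 : 7 ≤ p) :
    (Rt p (btP p)).natDegree ≤ 2 * p - 1 := by
  unfold Rt
  refine natDegree_sum_le_of_forall_le _ _ fun j _ => ?_
  by_cases h : 2 * p ≤ 3 * j
  · rw [rt_zero h]; simp
  · refine natDegree_mul_le.trans ?_
    rw [natDegree_natCast, zero_add]
    refine natDegree_pow_le.trans ?_
    have := Nat.mul_le_mul_left j (btP_natDegree p)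
    omega

private theorem two_pow {p : ℕ} [Fact p.Prime] (n : ℕ) : ((n : (ZMod p)[X])) ^ p = n := by
  have h : (n : (ZMod p)[X]) = C (n : ZMod p) := by simp
  rw [h, ← C_pow, ZMod.pow_card]

private theorem two_inv {p : ℕ} [Fact p.Prime] (h7 : 7 ≤ p) :
    (C (2⁻¹ : ZMod p)) * 2 = (1 : (ZMod p)[X]) := by
  have h2 : (2 : ZMod p) ≠ 0 := by
    intro h
    have h3 : ((2 : ℕ) : ZMod p) = 0 := by exact_mod_cast h
    rw [ZMod.natCast_eq_zero_iff] at h3
    have := Nat.le_of_dvd (by norm_num) h3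
    omega
  have h3 : (2 : (ZMod p)[X]) = C 2 := (map_ofNat C 2).symm
  rw [h3, ← C_mul, inv_mul_cancel₀ h2, C_1]

private theorem neg_one_sq_pow (p : ℕ) : ((-1 : (ZMod p)[X]) ^ p) * (-1) ^ p = 1 := by
  rw [← mul_pow]; simp

private theorem cusp_neg {p : ℕ} [Fact p.Prime] (h7 : 7 ≤ p) {H : (ZMod p)[X]}
    (hodd : H.comp (-X) = -((eps p : (ZMod p)[X]) * H)) (c : ℤ)
    (h : (X - C (c : ZMod p)) ^ p ∣ H + 3 * hk p c * Q p) :
    (X - C ((-c : ℤ) : ZMod p)) ^ p ∣ H + 3 * hk p (-c) * Q p := by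
  obtain ⟨K, hK⟩ := h
  have h1 := congrArg (fun f => f.comp (-X)) hK
  simp only [add_comp, mul_comp, pow_comp, sub_comp, X_comp, C_comp, ofNat_comp] at h1
  have h2 : (hk p c).comp (-X) = -hk p (-c) := by
    have := hk_neg h7 (-c)
    rwa [neg_neg] at this
  rw [hodd, h2, Q_refl h7] at h1
  have h3 : (-X - C (c : ZMod p)) ^ p = (-1) ^ p * (X - C ((-c : ℤ) : ZMod p)) ^ p := by
    rw [← mul_pow]
    congr 1
    push_cast
    rw [C_neg]
    ring
  rw [h3] at h1
  refine ⟨-(eps p : (ZMod p)[X]) * (-1) ^ p * K.comp (-X), ?_⟩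
  linear_combination (-(eps p : (ZMod p)[X])) * h1 - (H + 3 * hk p (-c) * Q p) * eps_sq p

theorem exists_H {p : ℕ} [Fact p.Prime] (h7 : 7 ≤ p) : ∃ H : (ZMod p)[X], IsH p H := by
  have hp : p.Prime := Fact.out
  set q : (ZMod p)[X] := C (fq p 108) with hq
  set G1 : (ZMod p)[X] := 3 * ((X - 1) ^ p * (X + 2) ^ p) * Rt p (btP p) -
    (q * ((X - 1) ^ p * (X + 2) ^ p) + 2 * hk p 1 * (X + 2) ^ p + hk p (-2) * (X - 1) ^ p) * Q p
    with hG1
  have hG : G p = (X - 1) ^ p * G1 := by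
    unfold G
    rw [kap_eq, hG1]
    ring
  have hcop : IsCoprime ((X + 1 : (ZMod p)[X]) ^ p) ((X - 1) ^ p) := by
    apply IsCoprime.pow
    refine ⟨C (2⁻¹ : ZMod p), -C (2⁻¹ : ZMod p), ?_⟩
    linear_combination two_inv h7
  have hdvd : (X + 1 : (ZMod p)[X]) ^ p ∣ G1 := by
    apply hcop.dvd_of_dvd_mul_left
    rw [← hG]
    have h1 := G_odd h7
    have h2 := congrArg (fun f => f.comp (-X)) hG
    simp only [mul_comp, pow_comp, sub_comp, X_comp, one_comp] at h2
    rw [h1] at h2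
    refine ⟨-(eps p : (ZMod p)[X]) * (-1) ^ p * G1.comp (-X), ?_⟩
    have h3 : (-X - 1 : (ZMod p)[X]) ^ p = (-1) ^ p * (X + 1) ^ p := by
      rw [← mul_pow]; congr 1; ring
    rw [h3] at h2
    linear_combination (-(eps p : (ZMod p)[X])) * h2 - (G p) * eps_sq p
  obtain ⟨H, hH⟩ := hdvd
  have hEq : (X ^ 2 - 1) ^ p * H = G p := by
    rw [hG, hH, ← mul_assoc, ← mul_pow]
    congr 2
    ring
  have hX2 : ((X ^ 2 - 1 : (ZMod p)[X])) ^ p ≠ 0 := by
    apply pow_ne_zero
    intro h0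
    have := congrArg (fun f => f.coeff 2) h0
    simp [coeff_one] at this
  have hodd : H.comp (-X) = -((eps p : (ZMod p)[X]) * H) := by
    have h1 := G_odd h7
    rw [← hEq] at h1
    simp only [mul_comp, pow_comp, sub_comp, X_comp, one_comp, neg_sq] at h1
    apply mul_left_cancel₀ hX2
    rw [h1]
    ring
  have hdeg : H.natDegree < 3 * p := by
    by_cases h0 : H = 0
    · rw [h0]; simp; omega
    have hx1 : (X + 1 : (ZMod p)[X]).natDegree = 1 := by
      have : (X + 1 : (ZMod p)[X]) = X + C 1 := by simp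
      rw [this, natDegree_X_add_C]
    have hx1' : (X + 1 : (ZMod p)[X]) ≠ 0 := by
      intro h
      rw [h] at hx1
      simp at hx1
    have h1 : G1.natDegree = p + H.natDegree := by
      rw [hH, natDegree_mul (pow_ne_zero _ hx1') h0, natDegree_pow, hx1, mul_one]
    have hA : ((X - 1 : (ZMod p)[X]) ^ p).natDegree ≤ p := by
      refine natDegree_pow_le.trans ?_
      have : (X - 1 : (ZMod p)[X]).natDegree ≤ 1 := by compute_degree
      simpa using Nat.mul_le_mul_left p this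
    have hB : ((X + 2 : (ZMod p)[X]) ^ p).natDegree ≤ p := by
      refine natDegree_pow_le.trans ?_
      have : (X + 2 : (ZMod p)[X]).natDegree ≤ 1 := by compute_degree
      simpa using Nat.mul_le_mul_left p this
    have hQ := Q_natDegree h7
    have hR := Rt_natDegree h7
    have hk1 := hk_natDegree h7 1
    have hk2 := hk_natDegree h7 (-2)
    have h2 : G1.natDegree ≤ 4 * p - 1 := by
      rw [hG1]
      refine (natDegree_sub_le _ _).trans (max_le ?_ ?_)
      · have e1 := natDegree_mul_le (p := (3 * ((X - 1) ^ p * (X + 2) ^ p) : (ZMod p)[X]))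
          (q := Rt p (btP p))
        have e2 := natDegree_mul_le (p := (3 : (ZMod p)[X]))
          (q := ((X - 1) ^ p * (X + 2) ^ p : (ZMod p)[X]))
        have e3 := natDegree_mul_le (p := ((X - 1) ^ p : (ZMod p)[X]))
          (q := ((X + 2) ^ p : (ZMod p)[X]))
        have e4 : (3 : (ZMod p)[X]).natDegree = 0 := natDegree_ofNat 3
        omega
      · have e1 := natDegree_mul_le (p := (q * ((X - 1) ^ p * (X + 2) ^ p) +
          2 * hk p 1 * (X + 2) ^ p + hk p (-2) * (X - 1) ^ p : (ZMod p)[X])) (q := Q p)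
        have e2 : (q * ((X - 1) ^ p * (X + 2) ^ p) +
          2 * hk p 1 * (X + 2) ^ p + hk p (-2) * (X - 1) ^ p : (ZMod p)[X]).natDegree ≤ 2 * p := by
          refine (natDegree_add_le _ _).trans (max_le ((natDegree_add_le _ _).trans
            (max_le ?_ ?_)) ?_)
          · have e2 := natDegree_mul_le (p := q) (q := ((X - 1) ^ p * (X + 2) ^ p : (ZMod p)[X]))
            have e3 := natDegree_mul_le (p := ((X - 1) ^ p : (ZMod p)[X]))
              (q := ((X + 2) ^ p : (ZMod p)[X]))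
            have e4 : q.natDegree = 0 := natDegree_C _
            omega
          · have e2 := natDegree_mul_le (p := (2 * hk p 1 : (ZMod p)[X]))
              (q := ((X + 2) ^ p : (ZMod p)[X]))
            have e3 := natDegree_mul_le (p := (2 : (ZMod p)[X])) (q := hk p 1)
            have e4 : (2 : (ZMod p)[X]).natDegree = 0 := natDegree_ofNat 2
            omega
          · have e2 := natDegree_mul_le (p := (hk p (-2) : (ZMod p)[X]))
              (q := ((X - 1) ^ p : (ZMod p)[X]))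
            omega
        omega
    omega
  have hch : CharP (ZMod p)[X] p := inferInstance
  have c1 : (X - C ((1 : ℤ) : ZMod p)) ^ p ∣ H + 3 * hk p 1 * Q p := by
    have hx : (X - C ((1 : ℤ) : ZMod p)) = (X - 1 : (ZMod p)[X]) := by simp
    rw [hx]
    have e1 : (X + 1 : (ZMod p)[X]) ^ p = (X - 1) ^ p + 2 := by
      have h1 : (X + 1 : (ZMod p)[X]) = (X - 1) + ((2 : ℕ) : (ZMod p)[X]) := by push_cast; ring
      rw [h1, add_pow_char, two_pow]
      push_cast; ring
    have e2 : (X + 2 : (ZMod p)[X]) ^ p = (X - 1) ^ p + 3 := by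
      have h1 : (X + 2 : (ZMod p)[X]) = (X - 1) + ((3 : ℕ) : (ZMod p)[X]) := by push_cast; ring
      rw [h1, add_pow_char, two_pow]
      push_cast; ring
    have h2 : (X - 1 : (ZMod p)[X]) ^ p ∣ 2 * (H + 3 * hk p 1 * Q p) := by
      refine ⟨-H + (3 * (X + 2) ^ p * Rt p (btP p) - (q * (X + 2) ^ p + hk p (-2)) * Q p) -
        2 * hk p 1 * Q p, ?_⟩
      have h3 : G1 = ((X - 1) ^ p + 2) * H := by rw [hH, e1]
      rw [hG1] at h3
      linear_combination (-1 : (ZMod p)[X]) * h3 - 2 * hk p 1 * Q p * e2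
    obtain ⟨K, hK⟩ := h2
    refine ⟨C (2⁻¹ : ZMod p) * K, ?_⟩
    linear_combination (C (2⁻¹ : ZMod p)) * hK - (H + 3 * hk p 1 * Q p) * two_inv h7
  have c2 : (X - C ((-2 : ℤ) : ZMod p)) ^ p ∣ H + 3 * hk p (-2) * Q p := by
    have hx : (X - C ((-2 : ℤ) : ZMod p)) = (X + 2 : (ZMod p)[X]) := by
      have h2 : C (2 : ZMod p) = (2 : (ZMod p)[X]) := map_ofNat C 2
      push_cast
      rw [C_neg, h2]
      ring
    rw [hx]
    have e1 : (X + 2 : (ZMod p)[X]) ^ p = (X + 1) ^ p + 1 := by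
      have h1 : (X + 2 : (ZMod p)[X]) = (X + 1) + ((1 : ℕ) : (ZMod p)[X]) := by push_cast; ring
      rw [h1, add_pow_char, two_pow]
      push_cast; ring
    have e2 : (X + 2 : (ZMod p)[X]) ^ p = (X - 1) ^ p + 3 := by
      have h1 : (X + 2 : (ZMod p)[X]) = (X - 1) + ((3 : ℕ) : (ZMod p)[X]) := by push_cast; ring
      rw [h1, add_pow_char, two_pow]
      push_cast; ring
    refine ⟨H - (3 * (X - 1) ^ p * Rt p (btP p) - (q * (X - 1) ^ p + 2 * hk p 1) * Q p) +
      hk p (-2) * Q p, ?_⟩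
    have h3 : G1 = (X + 1) ^ p * H := hH
    rw [hG1] at h3
    linear_combination h3 - H * e1 - hk p (-2) * Q p * e2
  refine ⟨H, hdeg, hEq, hodd, ?_⟩
  intro c hc
  rcases hc with rfl | rfl | rfl | rfl
  · exact c1
  · exact cusp_neg h7 hodd 1 c1
  · have h := cusp_neg h7 hodd (-2) c2
    rw [neg_neg] at h
    exact h
  · exact c2

end SC15
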