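import Pool.Agent.SC15.A.Basic

/-!
# SC15-A-Kap: the polynomials `hh p c` and `kapZ p`
-/

namespace SC15

open Polynomial Finset

variable {p : ℕ} [Fact p.Prime]

private lemma oddp (h7 : 7 ≤ p) : Odd p := (Fact.out : p.Prime).odd_of_ne_two (by omega)

private lemma dvd_pow_sub (c : ℤ) : (p : ℤ) ∣ c ^ p - c := by
  rw [← ZMod.intCast_zmod_eq_zero_iff_dvd]
  push_cast
  rw [ZMod.pow_card, sub_self]

theorem hh_spec (h7 : 7 ≤ p) (c : ℤ) :
    C (p : ℤ) * hh p c = X ^ p - C c - (X - C c) ^ p := by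
  have hp : p.Prime := Fact.out
  have h1 : C (p : ℤ) * C ((c ^ p - c) / p) = C (c ^ p - c) := by
    rw [← C_mul, Int.mul_ediv_cancel' (dvd_pow_sub c)]
  have h2 : C (p : ℤ) * ∑ i ∈ Ico 1 p, C (((p.choose i / p : ℕ) : ℤ) * (-c) ^ (p - i)) * X ^ i =
      ∑ i ∈ Ico 1 p, C ((p.choose i : ℤ) * (-c) ^ (p - i)) * X ^ i := by
    rw [mul_sum]
    refine sum_congr rfl (fun i hi => ?_)
    rw [mem_Ico] at hi
    rw [← mul_assoc, ← C_mul, ← mul_assoc]
    congr 3
    have h3 := Nat.mul_div_cancel' (hp.dvd_choose_self (by omega : i ≠ 0) hi.2)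
    exact_mod_cast congrArg (Nat.cast : ℕ → ℤ) h3
  have h3 : (X - C c) ^ p = C ((-c) ^ p) + (∑ i ∈ Ico 1 p,
      C ((p.choose i : ℤ) * (-c) ^ (p - i)) * X ^ i) + X ^ p := by
    rw [sub_eq_add_neg, add_pow, sum_range_succ, range_eq_Ico, sum_eq_sum_Ico_succ_bot hp.pos]
    simp only [pow_zero, Nat.sub_zero, Nat.choose_zero_right, Nat.cast_one, mul_one, one_mul,
      Nat.sub_self, Nat.choose_self, zero_add]
    congr 1
    congr 1
    · rw [← C_neg, ← C_pow]
    · refine sum_congr rfl (fun i _ => ?_)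
      rw [C_mul, C_pow, C_neg]
      simp only [eq_intCast, map_natCast]
      ring
  rw [hh, mul_sub, h1, h2, h3, (oddp h7).neg_pow, C_neg, C_sub, C_pow]
  ring

omit [Fact p.Prime] in
theorem hh_natDegree (h7 : 7 ≤ p) (c : ℤ) : (hh p c).natDegree < p := by
  have h : (hh p c).natDegree ≤ p - 1 := by
    rw [hh]
    refine (natDegree_sub_le _ _).trans (max_le ?_ ?_)
    · rw [natDegree_C]
      omega
    · refine natDegree_sum_le_of_forall_le _ _ (fun i hi => ?_)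
      rw [mem_Ico] at hi
      exact (natDegree_C_mul_X_pow_le _ _).trans (by omega)
  omega

theorem hh_neg (h7 : 7 ≤ p) (c : ℤ) : (hh p (-c)).comp (-X) = -hh p c := by
  have hp : C (p : ℤ) ≠ 0 := by
    rw [Ne, C_eq_zero]
    exact_mod_cast (Fact.out : p.Prime).ne_zero
  refine mul_left_cancel₀ hp ?_
  have h1 := congrArg (fun f : ℤ[X] => f.comp (-X)) (hh_spec h7 (-c))
  simp only [mul_comp, C_comp, sub_comp, pow_comp, X_comp] at h1
  rw [h1, mul_neg, hh_spec h7 c, (oddp h7).neg_pow, C_neg]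
  have h2 : (-X - -C c : ℤ[X]) = -(X - C c) := by ring
  rw [h2, (oddp h7).neg_pow]
  ring

theorem hk_neg (h7 : 7 ≤ p) (c : ℤ) : (hk p (-c)).comp (-X) = -hk p c := by
  have h := congrArg (Polynomial.map (Int.castRingHom (ZMod p))) (hh_neg h7 c)
  rw [Polynomial.map_comp, Polynomial.map_neg, Polynomial.map_neg, map_X] at h
  exact h

/-- `n^(p-1) = 1 + p q` with `q = (n^(p-1) - 1)/p`. -/
theorem fq_spec {n : ℕ} (hn : Nat.Coprime n p) :
    n ^ (p - 1) = 1 + p * ((n ^ (p - 1) - 1) / p) := by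
  have hp : p.Prime := Fact.out
  have h1 : 1 ≡ n ^ (p - 1) [MOD p] := by
    have := Nat.ModEq.pow_totient hn
    rw [Nat.totient_prime hp] at this
    exact this.symm
  have hpos : 0 < n := by
    rcases Nat.eq_zero_or_pos n with h | h
    · rw [h, Nat.coprime_zero_left] at hn
      exact absurd hn hp.one_lt.ne'
    · exact h
  have h2 : 1 ≤ n ^ (p - 1) := Nat.one_le_pow _ _ hpos
  have h3 := (Nat.modEq_iff_dvd' h2).1 h1
  rw [Nat.mul_div_cancel' h3]
  omega

private lemma coprime108 (h7 : 7 ≤ p) : Nat.Coprime 108 p := by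
  have hp : p.Prime := Fact.out
  have h1 : Nat.Coprime 2 p := by
    rw [Nat.coprime_primes Nat.prime_two hp]
    omega
  have h2 : Nat.Coprime 3 p := by
    rw [Nat.coprime_primes Nat.prime_three hp]
    omega
  have h3 : Nat.Coprime (2 ^ 2 * 3 ^ 3) p :=
    Nat.Coprime.mul_left (h1.pow_left 2) (h2.pow_left 3)
  simpa using h3

private lemma hh_aeval (h7 : 7 ≤ p) {A : Type*} [CommRing A] (c : ℤ) (t : A) :
    (p : A) * aeval t (hh p c) = t ^ p - c - (t - c) ^ p := by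
  have h1 := congrArg (aeval t) (hh_spec h7 c)
  rw [map_mul, aeval_C, map_sub, map_sub, map_pow, map_pow, map_sub, aeval_X, aeval_C] at h1
  simpa using h1

theorem kap_dvd (h7 : 7 ≤ p) {A : Type*} [CommRing A] (t : A) :
    (p : A) ^ 2 ∣ 108 ^ (p - 1) * ((t ^ p - 1) ^ 2 * (t ^ p + 2)) - ((t - 1) ^ 2 * (t + 2)) ^ p -
      p * aeval t (kapZ p) := by
  have h1 := hh_aeval h7 1 t
  have h2 := hh_aeval h7 (-2) t
  have h3 := congrArg (Nat.cast : ℕ → A) (fq_spec (coprime108 h7))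
  push_cast at h1 h2 h3
  rw [sub_neg_eq_add, sub_neg_eq_add] at h2
  have h4 : aeval t (kapZ p) = (((108 ^ (p - 1) - 1) / p : ℕ) : A) *
      ((t - 1) ^ (2 * p) * (t + 2) ^ p) + 2 * aeval t (hh p 1) * ((t - 1) ^ p * (t + 2) ^ p) +
      aeval t (hh p (-2)) * (t - 1) ^ (2 * p) := by
    rw [kapZ, map_add, map_add, map_mul, aeval_C]
    simp only [map_mul, map_sub, map_add, map_pow, aeval_X, map_one, map_ofNat]
    congr 3
    exact map_natCast _ _
  have e1 : t ^ p - 1 = (t - 1) ^ p + p * aeval t (hh p 1) := by rw [h1]; ring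
  have e2 : t ^ p + 2 = (t + 2) ^ p + p * aeval t (hh p (-2)) := by rw [h2]; ring
  have e3 : ((t - 1) ^ 2 * (t + 2)) ^ p = ((t - 1) ^ p) ^ 2 * (t + 2) ^ p := by
    rw [mul_pow, ← pow_mul, ← pow_mul, mul_comm p 2]
  have e4 : (t - 1) ^ (2 * p) = ((t - 1) ^ p) ^ 2 := by
    rw [← pow_mul, mul_comm p 2]
  rw [h3, e1, e2, h4, e3, e4]
  generalize (t - 1) ^ p = x
  generalize (t + 2) ^ p = y
  generalize aeval t (hh p 1) = a
  generalize aeval t (hh p (-2)) = b
  generalize (((108 ^ (p - 1) - 1) / p : ℕ) : A) = q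
  refine ⟨q * (2 * x * a * y + x ^ 2 * b + p * (a ^ 2 * y + 2 * x * a * b) +
    p ^ 2 * (a ^ 2 * b)) + (a ^ 2 * y + 2 * x * a * b) + p * (a ^ 2 * b), ?_⟩
  ring

theorem kap_spec (h7 : 7 ≤ p) {A : Type*} [CommRing A] (hA : (p : A) ^ 2 = 0) (t : A) :
    108 ^ (p - 1) * ((t ^ p - 1) ^ 2 * (t ^ p + 2)) - ((t - 1) ^ 2 * (t + 2)) ^ p =
      p * aeval t (kapZ p) := by
  have h := kap_dvd h7 t
  rw [hA, zero_dvd_iff] at h
  exact sub_eq_zero.1 h

theorem kap_eq : kap p = C (fq p 108) * ((X - 1) ^ (2 * p) * (X + 2) ^ p) +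
    2 * hk p 1 * ((X - 1) ^ p * (X + 2) ^ p) + hk p (-2) * (X - 1) ^ (2 * p) := by
  rw [kap, kapZ, hk, hk, fq, Polynomial.map_add, Polynomial.map_add, Polynomial.map_mul, map_C]
  simp only [Polynomial.map_add, Polynomial.map_mul, Polynomial.map_pow, Polynomial.map_sub,
    map_X, Polynomial.map_one, Polynomial.map_ofNat]
  congr 4
  exact map_natCast _ _

end SC15
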