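import Pool.Agent.SC15.A.Basic

/-!
# SC15-A-Leg: reflection of the shifted Legendre polynomial
-/

namespace SC15

open Polynomial

private lemma aeval_Lp {A : Type*} [CommRing A] (N : ℕ) (b : A) :
    aeval b (Lp N) = aeval (27 * b) (shiftedLegendre N) := by
  rw [Lp, aeval_comp]
  congr 2
  rw [map_mul, aeval_X, aeval_C]
  simp

private lemma aeval_dLp {A : Type*} [CommRing A] (N : ℕ) (b : A) :
    aeval b (derivative (Lp N)) = 27 * aeval (27 * b) (derivative (shiftedLegendre N)) := by
  rw [Lp, derivative_comp, map_mul, aeval_comp, derivative_C_mul, derivative_X, mul_one, map_mul,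
    aeval_X, aeval_C]
  simp

private lemma dleg {A : Type*} [CommRing A] (N : ℕ) (x : A) :
    aeval (1 - x) (derivative (shiftedLegendre N)) =
      -((-1) ^ N * aeval x (derivative (shiftedLegendre N))) := by
  have h := congrArg derivative (neg_one_pow_mul_shiftedLegendre_comp_one_sub_X_eq N)
  rw [derivative_mul, derivative_comp] at h
  have h1 : derivative ((-1 : ℤ[X]) ^ N) = 0 := by
    have : ((-1 : ℤ[X]) ^ N) = C ((-1) ^ N) := by simp
    rw [this, derivative_C]
  rw [h1, zero_mul, zero_add] at h
  have h2 := congrArg (aeval x) h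
  simp only [map_mul, map_pow, map_neg, map_one, aeval_comp, map_sub, aeval_X, derivative_one, derivative_X, zero_sub] at h2
  rw [← h2]
  have h3 : ((-1 : A) ^ N) * (-1) ^ N = 1 := by
    rw [← mul_pow]
    simp
  linear_combination (-(aeval (1 - x) (derivative (shiftedLegendre N)))) * h3

theorem lp_refl {A : Type*} [CommRing A] (N : ℕ) {b b' : A} (h : 27 * (b + b') = 1) :
    aeval b' (Lp N) = (-1) ^ N * aeval b (Lp N) := by
  have h1 : 27 * b = 1 - 27 * b' := by linear_combination h
  rw [aeval_Lp, aeval_Lp, shiftedLegendre_eval_symm N (27 * b'), ← h1]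

theorem lp_refl_deriv {A : Type*} [CommRing A] (N : ℕ) {b b' : A} (h : 27 * (b + b') = 1) :
    aeval b' (derivative (Lp N)) = -((-1) ^ N * aeval b (derivative (Lp N))) := by
  have h1 : 27 * b' = 1 - 27 * b := by linear_combination h
  rw [aeval_dLp, aeval_dLp, h1, dleg]
  ring

theorem lp_deriv_zero {A : Type*} [CommRing A] (N : ℕ) :
    aeval (0 : A) (derivative (Lp N)) = -27 * (N : A) * ((N : A) + 1) := by
  have h1 : (derivative (shiftedLegendre N)).coeff 0 = -((N : ℤ) * (N + 1)) := by
    rw [coeff_derivative, zero_add, coeff_shiftedLegendre]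
    have : (N + 1).choose N = N + 1 := by
      rw [Nat.choose_succ_self_right]
    rw [this, Nat.choose_one_right]
    push_cast
    ring
  rw [aeval_dLp, mul_zero]
  have h2 : aeval (0 : A) (derivative (shiftedLegendre N)) =
      (((derivative (shiftedLegendre N)).coeff 0 : ℤ) : A) := by
    rw [coeff_zero_eq_aeval_zero]
    have := aeval_algHom_apply (Algebra.ofId ℤ A) (0 : ℤ) (derivative (shiftedLegendre N))
    rw [map_zero] at this
    rw [this]
    rfl
  rw [h2, h1]
  push_cast
  ring

end SC15
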