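import Pool.Agent.SC15.A.Ev
import Pool.Agent.SC15.A.Refl
import Pool.Agent.SC15.A.Leg
import Pool.Agent.SC15.A.Kap

/-!
# SC15-A-OddA: the key identity modulo `p^2` (oddness of `G`)

Notation: `A` a ring with `p^2 = 0`, `108 c = 1`, `B(t) = t^3 - 3 t + 2 = (t-1)^2 (t+2)`,
`β = c B(t)`, `β' = c B(-t)`, so `27 (β + β') = 27 c 4 = 1`; `γ = c B(t^p)`, `γ' = c B(-t^p)`,
`27 (γ + γ') = 1`; `N = (p^2-1)/3` (even: `8 ∣ p^2 - 1`), `M = p/3`, `(-1)^M = eps p` (`eps_eq`);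
`L_N(x) = aeval x (Lp N)`, `L_M'(x) = aeval x (derivative (Lp M))`; `g(t) = gA p c t`.
PLAN.
(1) `kap_spec` times `c^p` (`c^p 108^(p-1) = c`, `(108 c)^p = 1`): `γ = β^p + p c^p κ(t)`, i.e.
`β^p = γ - p c^p κ(t)`, `κ(t) = aeval t (kapZ p)`.  The same for `-t` (`(-t)^p = -t^p`):
`β'^p = γ' - p c^p κ(-t)`.
(2) `Lp_eval` at `β`: `L_N(β) = L_M(β^p) P(β) + 3 p β^p L_M'(β^p) Rt(β)`.  Taylor (`aeval_add_mul`):
`L_M(β^p) = L_M(γ) - p c^p κ(t) L_M'(γ)`, and `p L_M'(β^p) = p L_M'(γ)`.  So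
`L_N(β) = P(β) L_M(γ) + p L_M'(γ) g(t)`.
(3) The same at `-t`: `L_N(β') = P(β') L_M(γ') + p L_M'(γ') g(-t)`, with `L_N(β') = L_N(β)`
(`lp_refl`, `N` even), `P(β') = ε P(β)` (`P_refl`), `L_M(γ') = ε L_M(γ)`,
`L_M'(γ') = -ε L_M'(γ)` (`lp_refl_deriv`), `ε^2 = 1`.
(4) Subtract: `p L_M'(γ) (g(t) + ε g(-t)) = 0`.
-/

namespace SC15

open Polynomial

private theorem oddA_pow {p : ℕ} [Fact p.Prime] (h7 : 7 ≤ p) {A : Type*} [CommRing A]
    (hA : (p : A) ^ 2 = 0) {c t : A} (hc : 108 * c = 1) :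
    (c * (t ^ 3 - 3 * t + 2)) ^ p = c * ((t ^ p) ^ 3 - 3 * t ^ p + 2) +
      p * (-(c ^ p * aeval t (kapZ p))) := by
  have h1 := kap_spec h7 hA t
  have h2 : c ^ p * 108 ^ (p - 1) = c := by
    obtain ⟨m, hm⟩ : ∃ m, p = m + 1 := ⟨p - 1, by omega⟩
    rw [hm, Nat.add_sub_cancel, pow_succ]
    calc c ^ m * c * 108 ^ m = c * (108 * c) ^ m := by rw [mul_pow]; ring
      _ = c := by rw [hc, one_pow, mul_one]
  have h3 : (c * (t ^ 3 - 3 * t + 2)) ^ p = c ^ p * ((t - 1) ^ 2 * (t + 2)) ^ p := by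
    rw [← mul_pow]
    congr 1
    ring
  rw [h3]
  linear_combination (-(c ^ p)) * h1 + (((t ^ p - 1) ^ 2 * (t ^ p + 2))) * h2

private theorem oddA_eval {p : ℕ} [Fact p.Prime] (h7 : 7 ≤ p) {A : Type*} [CommRing A]
    (hA : (p : A) ^ 2 = 0) {c t : A} (hc : 108 * c = 1) :
    aeval (c * (t ^ 3 - 3 * t + 2)) (Lp ((p ^ 2 - 1) / 3)) =
      P p (c * (t ^ 3 - 3 * t + 2)) * aeval (c * ((t ^ p) ^ 3 - 3 * t ^ p + 2)) (Lp (p / 3)) +
      p * aeval (c * ((t ^ p) ^ 3 - 3 * t ^ p + 2)) (derivative (Lp (p / 3))) * gA p c t := by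
  have h1 := oddA_pow h7 hA (t := t) hc
  have h2 := Lp_eval h7 hA (c * (t ^ 3 - 3 * t + 2))
  obtain ⟨B, hB⟩ : ∃ B, B = c * (t ^ 3 - 3 * t + 2) := ⟨_, rfl⟩
  obtain ⟨Γ, hΓ⟩ : ∃ Γ, Γ = c * ((t ^ p) ^ 3 - 3 * t ^ p + 2) := ⟨_, rfl⟩
  obtain ⟨y, hy⟩ : ∃ y, y = -(c ^ p * aeval t (kapZ p)) := ⟨_, rfl⟩
  rw [gA]
  rw [← hB] at h1 h2 ⊢
  rw [← hΓ, ← hy] at h1
  rw [← hΓ]
  have e1 : aeval (B ^ p) (Lp (p / 3)) = aeval Γ (Lp (p / 3)) +
      p * y * aeval Γ (derivative (Lp (p / 3))) := by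
    rw [h1]
    exact aeval_add_mul hA _ _ _
  have e2 : aeval (B ^ p) (derivative (Lp (p / 3))) = aeval Γ (derivative (Lp (p / 3))) +
      p * y * aeval Γ (derivative (derivative (Lp (p / 3)))) := by
    rw [h1]
    exact aeval_add_mul hA _ _ _
  rw [e1, e2] at h2
  linear_combination h2 + (3 * B ^ p * y * aeval Γ (derivative (derivative (Lp (p / 3)))) *
    Rt p B) * hA + (p * P p B * aeval Γ (derivative (Lp (p / 3)))) * hy

theorem oddA {p : ℕ} [Fact p.Prime] (h7 : 7 ≤ p) {A : Type*} [CommRing A]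
    (hA : (p : A) ^ 2 = 0) {c t : A} (hc : 108 * c = 1) :
    p * aeval (c * ((t ^ p) ^ 3 - 3 * t ^ p + 2)) (derivative (Lp (p / 3))) *
      (gA p c t + (eps p : A) * gA p c (-t)) = 0 := by
  have hp : p.Prime := Fact.out
  have hodd : Odd p := by
    rcases hp.eq_two_or_odd' with h | h
    · omega
    · exact h
  have hN : Even ((p ^ 2 - 1) / 3) := by
    obtain ⟨m, hm⟩ := hodd
    have h3 : p % 3 ≠ 0 := by
      intro h
      have h4 : 3 ∣ p := Nat.dvd_of_mod_eq_zero h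
      rcases (Nat.dvd_prime hp).1 h4 with h5 | h5 <;> omega
    have h1 : p ^ 2 % 3 = 1 := by
      rw [Nat.pow_mod]
      have h4 : p % 3 = 1 ∨ p % 3 = 2 := by omega
      rcases h4 with h5 | h5 <;> rw [h5]
    have h2 : p ^ 2 % 2 = 1 := by
      rw [Nat.pow_mod]
      have h4 : p % 2 = 1 := by omega
      rw [h4]
    rw [Nat.even_iff]
    omega
  have hM : ((-1 : A)) ^ (p / 3) = (eps p : A) := by
    rw [eps_eq h7]
    push_cast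
    rfl
  have he2 : (eps p : A) ^ 2 = 1 := by
    rw [← hM, ← pow_mul, Nat.mul_comm, pow_mul]
    simp
  have ht : (-t) ^ p = -(t ^ p) := hodd.neg_pow t
  have h1 := oddA_eval h7 hA (t := t) hc
  have h2 := oddA_eval h7 hA (t := -t) hc
  have hb : 27 * (c * (t ^ 3 - 3 * t + 2) + c * ((-t) ^ 3 - 3 * (-t) + 2)) = 1 := by
    linear_combination hc
  have hg : 27 * (c * ((t ^ p) ^ 3 - 3 * t ^ p + 2) +
      c * (((-t) ^ p) ^ 3 - 3 * (-t) ^ p + 2)) = 1 := by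
    rw [ht]
    linear_combination hc
  rw [lp_refl _ hb, hN.neg_one_pow, one_mul, P_refl h7 hA hb, lp_refl _ hg, lp_refl_deriv _ hg,
    hM] at h2
  linear_combination h2 - h1 + (P p (c * (t ^ 3 - 3 * t + 2)) *
    aeval (c * ((t ^ p) ^ 3 - 3 * t ^ p + 2)) (Lp (p / 3))) * he2

end SC15
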