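import Pool.Agent.SC15.A.OddA

/-!
# SC15-A-OddB: `G(-t) = -ε G(t)` in `F_p[t]`

PLAN. Apply `oddA` in `A = (ZMod (p^2))[X]`, `t = X`, `c = C (108⁻¹)` (inverse of the unit `108`).
For `f : (ZMod (p^2))[X]`, `(p : _) * f = 0` implies `f.map red = 0` for the reduction
`red : ZMod (p^2) →+* ZMod p` (coefficientwise: `p * a = 0` in `ZMod (p^2)` iff `p ∣ a`).  Mapping to
`(ZMod p)[X]`: `aeval γ (derivative (Lp M)) * (g(X) + ε g(-X)) = 0`, where now
`γ = C(108⁻¹) (X^(3p) - 3 X^p + 2)` and `108 g(X) = G p` (`c^p = c` in `ZMod p`,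
`(c B)^p = c B^p`, `B = (X-1)^2 (X+2)`, `map_P`, `map_Rt`, `kap = map of kapZ`), `108 g(-X) = (G p).comp (-X)`.
The first factor is nonzero: its value at `X = 1` is `aeval 0 (derivative (Lp M)) = -27 M (M+1)`
(`lp_deriv_zero`), nonzero modulo `p` as `0 < M`, `M + 1 < p`.  `(ZMod p)[X]` is a domain.
(Checked numerically for `p ≤ 23`.)
-/

namespace SC15

open Polynomial

private noncomputable def ae {A : Type*} [CommRing A] (y : A) (F : ℤ[X]) : A := aeval y F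

private theorem gA_def {A : Type*} [CommRing A] (p : ℕ) (c t : A) : gA p c t =
    3 * (c * (t ^ 3 - 3 * t + 2)) ^ p * Rt p (c * (t ^ 3 - 3 * t + 2)) -
    c ^ p * ae t (kapZ p) * P p (c * (t ^ 3 - 3 * t + 2)) := rfl

private theorem oddA' {p : ℕ} [Fact p.Prime] (h7 : 7 ≤ p) {A : Type*} [CommRing A]
    (hA : (p : A) ^ 2 = 0) {c t : A} (hc : 108 * c = 1) :
    p * (ae (c * ((t ^ p) ^ 3 - 3 * t ^ p + 2)) (derivative (Lp (p / 3))) *
      (gA p c t + (eps p : A) * gA p c (-t))) = 0 := by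
  rw [← mul_assoc]
  exact oddA h7 hA hc

private theorem ae_deriv_zero {A : Type*} [CommRing A] (N : ℕ) :
    ae (0 : A) (derivative (Lp N)) = -27 * (N : A) * ((N : A) + 1) := lp_deriv_zero N

private theorem map_aevalZ {A B : Type*} [CommRing A] [CommRing B] (ψ : A →+* B) (y : A)
    (F : ℤ[X]) : ψ (ae y F) = ae (ψ y) F := by
  have h := (aeval_algHom_apply ψ.toIntAlgHom y F)
  exact h.symm

private theorem map_gA {A B : Type*} [CommRing A] [CommRing B] (ψ : A →+* B) (p : ℕ) (c t : A) :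
    ψ (gA p c t) = gA p (ψ c) (ψ t) := by
  rw [gA_def, gA_def]
  simp only [map_sub, map_mul, map_pow, map_add, map_ofNat, map_Rt, map_P, map_aevalZ]

private theorem bt_symm {p : ℕ} [Fact p.Prime] (h7 : 7 ≤ p) : (108 : ZMod p) ≠ 0 := by
  have hp : p.Prime := Fact.out
  intro h
  have h1 : ((108 : ℕ) : ZMod p) = 0 := by exact_mod_cast h
  rw [ZMod.natCast_eq_zero_iff] at h1
  have h2 : p ∣ 2 ^ 2 * 3 ^ 3 := by norm_num; exact h1
  rcases (Nat.Prime.dvd_mul hp).1 h2 with h3 | h3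
  · have := Nat.le_of_dvd (by norm_num) (hp.dvd_of_dvd_pow h3)
    omega
  · have := Nat.le_of_dvd (by norm_num) (hp.dvd_of_dvd_pow h3)
    omega

private theorem eps_sq (p : ℕ) : (eps p) ^ 2 = 1 := by
  rw [eps]
  split <;> norm_num

private theorem P_comp' {R : Type*} [CommRing R] (p : ℕ) (x g : R[X]) :
    (P p x).comp g = P p (x.comp g) := by
  have h := map_P (compRingHom g) p x
  rw [coe_compRingHom_apply, coe_compRingHom_apply] at h
  exact h

theorem Q_refl {p : ℕ} [Fact p.Prime] (h7 : 7 ≤ p) :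
    (Q p).comp (-X) = (eps p : (ZMod p)[X]) * Q p := by
  rw [Q, P_comp']
  have hA : ((p : ℕ) : (ZMod p)[X]) ^ 2 = 0 := by
    rw [← C_eq_natCast, ZMod.natCast_self, C_0, zero_pow two_ne_zero]
  refine P_refl h7 hA ?_
  have h1 : (C (108⁻¹ : ZMod p)) * 108 = (1 : (ZMod p)[X]) := by
    rw [show (108 : (ZMod p)[X]) = C 108 by rw [map_ofNat], ← C_mul,
      inv_mul_cancel₀ (bt_symm h7), C_1]
  rw [btP]
  simp only [mul_comp, C_comp, add_comp, sub_comp, X_comp, X_pow_comp, ofNat_comp]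
  linear_combination h1

private theorem red_zero {p : ℕ} [Fact p.Prime] {a : ZMod (p ^ 2)}
    (h : ((p : ℕ) : ZMod (p ^ 2)) * a = 0) (π : ZMod (p ^ 2) →+* ZMod p) : π a = 0 := by
  have hp : p.Prime := Fact.out
  have : NeZero (p ^ 2) := ⟨pow_ne_zero 2 hp.pos.ne'⟩
  rw [← ZMod.natCast_zmod_val a, ← Nat.cast_mul, ZMod.natCast_eq_zero_iff] at h
  rw [← ZMod.natCast_zmod_val a, map_natCast, ZMod.natCast_eq_zero_iff]
  have h2 : p * p ∣ p * a.val := by
    rw [← pow_two]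
    exact h
  exact Nat.dvd_of_mul_dvd_mul_left hp.pos h2

private theorem gA_eq_G {p : ℕ} [Fact p.Prime] (h7 : 7 ≤ p) :
    108 * gA p (C (108⁻¹ : ZMod p)) X = G p := by
  have h1 : (C (108⁻¹ : ZMod p)) * 108 = (1 : (ZMod p)[X]) := by
    rw [show (108 : (ZMod p)[X]) = C 108 by rw [map_ofNat], ← C_mul,
      inv_mul_cancel₀ (bt_symm h7), C_1]
  have h2 : (C (108⁻¹ : ZMod p)) ^ p = C (108⁻¹ : ZMod p) := by
    rw [← C_pow, ZMod.pow_card]
  have h3 : ae (X : (ZMod p)[X]) (kapZ p) = kap p := by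
    rw [kap, ae, aeval_def, ← Polynomial.eval₂_C_X (p := (kapZ p).map (Int.castRingHom (ZMod p))),
      eval₂_map]
    congr 1
  have h4 : (C (108⁻¹ : ZMod p) * (X ^ 3 - 3 * X + 2)) = btP p := rfl
  have h5 : (C (108⁻¹ : ZMod p) * (X ^ 3 - 3 * X + 2)) ^ p =
      C (108⁻¹ : ZMod p) * ((X - 1) ^ (2 * p) * (X + 2) ^ p) := by
    rw [mul_pow, h2]
    congr 1
    rw [pow_mul, ← mul_pow]
    congr 1
    ring
  rw [gA_def, h5, h2, h3, h4, G, Q]
  linear_combination (3 * ((X - 1) ^ (2 * p) * (X + 2) ^ p) * Rt p (btP p) -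
    kap p * P p (btP p)) * h1

theorem G_odd {p : ℕ} [Fact p.Prime] (h7 : 7 ≤ p) :
    (G p).comp (-X) = -((eps p : (ZMod p)[X]) * G p) := by
  have hp : p.Prime := Fact.out
  have hdvd : p ∣ p ^ 2 := dvd_pow_self p two_ne_zero
  obtain ⟨π, hπ⟩ : ∃ π : ZMod (p ^ 2) →+* ZMod p, π = ZMod.castHom hdvd (ZMod p) := ⟨_, rfl⟩
  have hu : IsUnit (((108 : ℕ)) : ZMod (p ^ 2)) := by
    rw [ZMod.isUnit_iff_coprime]
    refine ((Nat.Prime.coprime_iff_not_dvd hp).2 ?_).symm.pow_right 2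
    intro h
    refine bt_symm h7 ?_
    have h1 : ((108 : ℕ) : ZMod p) = 0 := (ZMod.natCast_eq_zero_iff _ _).2 h
    exact_mod_cast h1
  obtain ⟨v, hv⟩ := hu
  have hc : (108 : ZMod (p ^ 2)) * (↑v⁻¹ : ZMod (p ^ 2)) = 1 := by
    have h1 : ((108 : ℕ) : ZMod (p ^ 2)) = 108 := by norm_num
    rw [← h1, ← hv]
    exact v.mul_inv
  obtain ⟨w, hw⟩ : ∃ w, w = (↑v⁻¹ : ZMod (p ^ 2)) := ⟨_, rfl⟩
  rw [← hw] at hc
  have hπw : π w = 108⁻¹ := by
    have h1 := congrArg π hc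
    have h2 : π 108 = 108 := map_ofNat π 108
    rw [map_mul, h2, map_one] at h1
    exact eq_inv_of_mul_eq_one_right h1
  have hA : ((p : ℕ) : (ZMod (p ^ 2))[X]) ^ 2 = 0 := by
    rw [← Nat.cast_pow, ← C_eq_natCast, ZMod.natCast_self, C_0]
  have hcC : (108 : (ZMod (p ^ 2))[X]) * C w = 1 := by
    rw [show (108 : (ZMod (p ^ 2))[X]) = C 108 by rw [map_ofNat], ← C_mul, hc, C_1]
  have h1 := oddA' h7 hA (c := C w) (t := X) hcC
  obtain ⟨f, hf⟩ : ∃ f, f = ae (C w * ((X ^ p) ^ 3 - 3 * X ^ p + 2) : (ZMod (p ^ 2))[X])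
      (derivative (Lp (p / 3))) * (gA p (C w) X + (eps p : (ZMod (p ^ 2))[X]) * gA p (C w) (-X)) :=
    ⟨_, rfl⟩
  rw [← hf] at h1
  have h2 : f.map π = 0 := by
    ext j
    rw [coeff_map, coeff_zero]
    refine red_zero ?_ π
    have h3 := congrArg (fun q => coeff q j) h1
    rw [← C_eq_natCast] at h3
    simpa only [coeff_C_mul, coeff_zero] using h3
  have h3 : f.map π = mapRingHom π f := rfl
  rw [h3, hf, map_mul, map_add, map_mul, map_intCast, map_gA, map_gA, map_aevalZ] at h2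
  have hX : mapRingHom π (X : (ZMod (p ^ 2))[X]) = X := map_X π
  have hC : mapRingHom π (C w) = C (108⁻¹ : ZMod p) := by
    rw [← hπw]
    exact map_C π
  have hXn : mapRingHom π (-X : (ZMod (p ^ 2))[X]) = -X := by rw [map_neg, hX]
  have hγ : mapRingHom π (C w * ((X ^ p) ^ 3 - 3 * X ^ p + 2)) =
      C (108⁻¹ : ZMod p) * ((X ^ p) ^ 3 - 3 * X ^ p + 2) := by
    rw [map_mul, map_add, map_sub, map_mul, map_pow, map_pow, hX, hC, map_ofNat, map_ofNat]
  rw [hX, hC, hXn, hγ] at h2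
  have hne : ae (C (108⁻¹ : ZMod p) * ((X ^ p) ^ 3 - 3 * X ^ p + 2) : (ZMod p)[X])
      (derivative (Lp (p / 3))) ≠ 0 := by
    intro h4
    have h5 := congrArg (evalRingHom (1 : ZMod p)) h4
    rw [map_aevalZ, map_zero] at h5
    have h6 : evalRingHom (1 : ZMod p) (C (108⁻¹ : ZMod p) * ((X ^ p) ^ 3 - 3 * X ^ p + 2)) = 0 := by
      simp only [coe_evalRingHom, eval_mul, eval_C, eval_add, eval_sub, eval_pow, eval_X,
        eval_ofNat, one_pow, mul_one]
      norm_num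
    rw [h6, ae_deriv_zero] at h5
    have h27 : (27 : ZMod p) ≠ 0 := by
      intro h
      refine bt_symm h7 ?_
      linear_combination 4 * h
    have hM : ((p / 3 : ℕ) : ZMod p) ≠ 0 := by
      rw [Ne, ZMod.natCast_eq_zero_iff]
      intro h
      have := Nat.le_of_dvd (by omega) h
      omega
    have hM1 : ((p / 3 : ℕ) : ZMod p) + 1 ≠ 0 := by
      have h8 : ((p / 3 : ℕ) : ZMod p) + 1 = ((p / 3 + 1 : ℕ) : ZMod p) := by push_cast; rfl
      rw [h8, Ne, ZMod.natCast_eq_zero_iff]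
      intro h
      have := Nat.le_of_dvd (by omega) h
      omega
    exact mul_ne_zero (mul_ne_zero (neg_ne_zero.2 h27) hM) hM1 h5
  have h4 := (mul_eq_zero.1 h2).resolve_left hne
  have h5 : (G p).comp (-X) = 108 * gA p (C (108⁻¹ : ZMod p)) (-X) := by
    have h6 := congrArg (compRingHom (-X : (ZMod p)[X])) (gA_eq_G h7)
    rw [map_mul, map_gA, map_ofNat] at h6
    simp only [coe_compRingHom_apply, C_comp, X_comp] at h6
    exact h6.symm
  have he : ((eps p : ℤ) : (ZMod p)[X]) ^ 2 = 1 := by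
    rw [← Int.cast_pow, eps_sq, Int.cast_one]
  rw [h5]
  have h6 := gA_eq_G h7
  linear_combination (108 * (eps p : (ZMod p)[X])) * h4 - (eps p : (ZMod p)[X]) * h6 -
    (108 * gA p (C (108⁻¹ : ZMod p)) (-X)) * he

end SC15
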