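import Pool.Agent.SC15.A.Basic

/-!
# SC15-A-Tw: the twisted reversal `tw m f (t) = t^m f(-2/t)`

PLAN. Compute coefficients: `(tw m f).coeff i = f.coeff (m - i) * (-2)^(m - i)` for `i ≤ m` and `0`
for `i > m`.  `tw_mul`: compare coefficients (`coeff_mul`, antidiagonals, using
`natDegree f ≤ m`, `natDegree g ≤ n`), or check it on monomials and use bilinearity
(`f = ∑_{i ≤ m} C a_i X^i`).  `aeval_tw`: `f = ∑_{j ≤ m} C f_j X^j`
(`Polynomial.as_sum_range_C_mul_X_pow'`), `τ^m (-2/τ)^j = (-2)^j τ^(m-j)`.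
-/

namespace SC15

open Polynomial

section ring

variable {A B : Type*} [CommRing A] [CommRing B]

theorem tw_coeff (m : ℕ) (f : A[X]) (i : ℕ) :
    (tw m f).coeff i = if i ≤ m then f.coeff (m - i) * (-2) ^ (m - i) else 0 := by
  unfold tw
  rw [finsetSum_coeff]
  simp only [coeff_C_mul_X_pow]
  split_ifs with h
  · rw [Finset.sum_eq_single (m - i)]
    · rw [if_pos (by omega)]
    · intro j hj hne
      rw [if_neg]
      have := Finset.mem_range.mp hj
      omega
    · intro hn
      exact absurd (Finset.mem_range.mpr (by omega)) hn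
  · apply Finset.sum_eq_zero
    intro j _
    rw [if_neg (by omega)]

theorem natDegree_tw_le (m : ℕ) (f : A[X]) : (tw m f).natDegree ≤ m := by
  rw [natDegree_le_iff_coeff_eq_zero]
  intro N hN
  rw [tw_coeff, if_neg (by omega)]

theorem tw_add (m : ℕ) (f g : A[X]) : tw m (f + g) = tw m f + tw m g := by
  ext i
  rw [coeff_add]
  simp only [tw_coeff, coeff_add]
  split_ifs
  · ring
  · ring

theorem tw_sub (m : ℕ) (f g : A[X]) : tw m (f - g) = tw m f - tw m g := by
  ext i
  rw [coeff_sub]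
  simp only [tw_coeff, coeff_sub]
  split_ifs
  · ring
  · ring

theorem tw_C_mul (m : ℕ) (a : A) (f : A[X]) : tw m (C a * f) = C a * tw m f := by
  ext i
  rw [coeff_C_mul]
  simp only [tw_coeff, coeff_C_mul]
  split_ifs
  · ring
  · ring

theorem tw_X_pow {m j : ℕ} (h : j ≤ m) : tw m (X ^ j : A[X]) = C ((-2) ^ j) * X ^ (m - j) := by
  ext i
  rw [tw_coeff, coeff_C_mul_X_pow, coeff_X_pow]
  by_cases hi : i ≤ m
  · rw [if_pos hi]
    by_cases hj : m - i = j
    · rw [if_pos hj, if_pos (by omega), hj, one_mul]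
    · rw [if_neg hj, if_neg (by omega), zero_mul]
  · rw [if_neg hi, if_neg (by omega)]

theorem tw_C (m : ℕ) (a : A) : tw m (C a) = C a * X ^ m := by
  have h := tw_X_pow (A := A) (Nat.zero_le m)
  have h2 := tw_C_mul m a (X ^ 0 : A[X])
  rw [h] at h2
  simpa using h2

theorem tw_finset_sum {ι : Type*} (m : ℕ) (s : Finset ι) (f : ι → A[X]) :
    tw m (∑ i ∈ s, f i) = ∑ i ∈ s, tw m (f i) := by
  classical
  induction s using Finset.induction_on with
  | empty =>
    rw [Finset.sum_empty, Finset.sum_empty]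
    ext i
    rw [tw_coeff]
    simp
  | insert a s ha ih => rw [Finset.sum_insert ha, Finset.sum_insert ha, tw_add, ih]

theorem tw_mul {m n : ℕ} {f g : A[X]} (hf : f.natDegree ≤ m) (hg : g.natDegree ≤ n) :
    tw (m + n) (f * g) = tw m f * tw n g := by
  have hf' := f.as_sum_range_C_mul_X_pow' (Nat.lt_succ_of_le hf)
  have hg' := g.as_sum_range_C_mul_X_pow' (Nat.lt_succ_of_le hg)
  have h1 : f * g = ∑ i ∈ Finset.range (m + 1), ∑ j ∈ Finset.range (n + 1),
      C (f.coeff i * g.coeff j) * X ^ (i + j) := by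
    conv_lhs => rw [hf', hg']
    rw [Finset.sum_mul_sum]
    refine Finset.sum_congr rfl fun i _ => Finset.sum_congr rfl fun j _ => ?_
    rw [C_mul, pow_add]
    ring
  rw [h1, tw_finset_sum]
  unfold tw
  rw [Finset.sum_mul_sum]
  refine Finset.sum_congr rfl fun i hi => ?_
  have e1 := tw_finset_sum (m + n) (Finset.range (n + 1))
    (fun j => C (f.coeff i * g.coeff j) * X ^ (i + j))
  refine e1.trans ?_
  refine Finset.sum_congr rfl fun j hj => ?_
  have hi' := Finset.mem_range.mp hi
  have hj' := Finset.mem_range.mp hj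
  rw [tw_C_mul, tw_X_pow (by omega)]
  have e2 : m + n - (i + j) = (m - i) + (n - j) := by omega
  rw [e2, pow_add, pow_add, C_mul, C_mul, C_mul, C_mul]
  ring

theorem tw_X_sub_pow (m : ℕ) (c : A) : tw m ((X - C c) ^ m) = (C (-2) - C c * X) ^ m := by
  induction m with
  | zero =>
    rw [pow_zero, pow_zero]
    have h := tw_C 0 (1 : A)
    simpa using h
  | succ m ih =>
    rw [pow_succ, pow_succ]
    have hd1 : ((X - C c) ^ m : A[X]).natDegree ≤ m := by
      refine (natDegree_pow_le).trans ?_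
      have : (X - C c : A[X]).natDegree ≤ 1 := natDegree_X_sub_C_le c
      calc m * (X - C c : A[X]).natDegree ≤ m * 1 := Nat.mul_le_mul_left m this
        _ = m := mul_one m
    rw [tw_mul hd1 (natDegree_X_sub_C_le c), ih]
    congr 1
    rw [tw_sub, tw_C, pow_one]
    have h := tw_X_pow (A := A) (m := 1) (j := 1) le_rfl
    rw [pow_one, pow_one] at h
    rw [h]
    simp

theorem tw_map (φ : A →+* B) (m : ℕ) (f : A[X]) : (tw m f).map φ = tw m (f.map φ) := by
  ext i
  rw [coeff_map, tw_coeff, tw_coeff, coeff_map]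
  split_ifs
  · rw [map_mul, map_pow, map_neg, map_ofNat]
  · rw [map_zero]

end ring

theorem aeval_tw {F k : Type*} [Field F] [Field k] [Algebra F k] {m : ℕ} {f : F[X]}
    (hf : f.natDegree ≤ m) {τ : k} (hτ : τ ≠ 0) :
    aeval τ (tw m f) = τ ^ m * aeval (-2 / τ) f := by
  rw [aeval_eq_sum_range' (Nat.lt_succ_of_le hf)]
  unfold tw
  rw [map_sum, Finset.mul_sum]
  refine Finset.sum_congr rfl fun j hj => ?_
  have hj' := Finset.mem_range.mp hj
  rw [map_mul, map_pow, aeval_X, aeval_C, map_mul, map_pow, map_neg, map_ofNat, Algebra.smul_def]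
  have e : τ ^ m = τ ^ (m - j) * τ ^ j := by
    rw [← pow_add]
    congr 1
    omega
  rw [e, div_pow]
  field_simp

end SC15
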