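import Pool.Agent.SC15.A.Basic

/-!
# SC15-A-U: the numbers `u_k = (3k)!/(k!)^3`
-/

namespace SC15

theorem u_zero : u 0 = 1 := by simp [u]

theorem u_fact (k : ℕ) : u k * k.factorial ^ 3 = (3 * k).factorial := by
  have h1 := Nat.choose_mul_factorial_mul_factorial (show k ≤ 3 * k by omega)
  have h2 : Nat.centralBinom k * k.factorial * k.factorial = (2 * k).factorial := by
    have := Nat.choose_mul_factorial_mul_factorial (show k ≤ 2 * k by omega)
    rw [show 2 * k - k = k by omega] at this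
    exact this
  rw [show 3 * k - k = 2 * k by omega, ← h2] at h1
  rw [u, ← h1]
  ring

theorem u_succ (j : ℕ) : (j + 1) ^ 2 * u (j + 1) = 3 * (3 * j + 1) * (3 * j + 2) * u j := by
  have h1 := u_fact j
  have h2 := u_fact (j + 1)
  have h3 : (3 * (j + 1)).factorial = (3 * j + 3) * ((3 * j + 2) * ((3 * j + 1) *
      (3 * j).factorial)) := by
    rw [show 3 * (j + 1) = 3 * j + 2 + 1 by ring, Nat.factorial_succ, Nat.factorial_succ,
      Nat.factorial_succ]
  rw [h3, ← h1, Nat.factorial_succ] at h2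
  have h4 : (j + 1) * j.factorial ^ 3 ≠ 0 :=
    mul_ne_zero (Nat.succ_ne_zero j) (pow_ne_zero 3 (Nat.factorial_ne_zero j))
  apply Nat.eq_of_mul_eq_mul_right (Nat.pos_of_ne_zero h4)
  linarith [h2]

theorem u_dvd {p j : ℕ} (hp : p.Prime) (hj : j < p) (h : p ≤ 3 * j) : p ∣ u j := by
  have h1 : p ∣ u j * j.factorial ^ 3 := by
    rw [u_fact]
    exact (hp.dvd_factorial).2 h
  rcases hp.dvd_mul.1 h1 with h2 | h2
  · exact h2
  · have := (hp.dvd_factorial).1 (hp.dvd_of_dvd_pow h2)
    omega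

theorem u_dvd_sq {p j : ℕ} (hp : p.Prime) (hj : j < p) (h : 2 * p ≤ 3 * j) :
    p ^ 2 ∣ u j := by
  have h1 : p ^ 2 ∣ u j * j.factorial ^ 3 := by
    rw [u_fact]
    refine dvd_trans ?_ (Nat.factorial_dvd_factorial h)
    have h3 : 2 * p = (2 * p - 1) + 1 := by have := hp.pos; omega
    have h4 : p ∣ (2 * p - 1).factorial := (hp.dvd_factorial).2 (by have := hp.pos; omega)
    rw [h3, Nat.factorial_succ, ← h3, sq]
    exact mul_dvd_mul (dvd_mul_left p 2) h4
  have h2 : Nat.Coprime (p ^ 2) (j.factorial ^ 3) := by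
    refine Nat.Coprime.pow _ _ ?_
    rw [hp.coprime_iff_not_dvd, hp.dvd_factorial]
    omega
  exact h2.dvd_of_dvd_mul_right h1

theorem u_not_dvd {p j : ℕ} (hp : p.Prime) (h : 3 * j < p) : ¬ p ∣ u j := by
  intro h1
  have h2 : p ∣ (3 * j).factorial := by
    rw [← u_fact]
    exact h1.mul_right _
  have := (hp.dvd_factorial).1 h2
  omega

end SC15
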