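import Pool.Agent.SC15.A.Hpoly

/-!
# SC15-A-Uniq: `2 H(t) = t^(3p-1) H(-2/t) - 6 q_2 t^p Q(t)`

PLAN.
(1) `hk_tw`: for integers `c c' = -2`, in `ℤ[X]`, `p` odd: with `2^(p-1) = 1 + p q_2`, `c'^p = c' + p q'`:
`p * tw p (hh p c') = tw p (X^p - C c' - (X - C c')^p) = -2^p - c' X^p - (-2 - c' X)^p`, and
`-2 - c' X = -c' (X - c)`, `X^p = c + (X - c)^p + p hh_c`; so the right side is
`p (-2 q_2 - c' hh_c + q' (X-c)^p)`.  Cancel `p`, reduce modulo `p`.
(2) Let `H' = tw (3p-1) H - 6 q_2 X^p Q`.  For `c ∈ {1,-1,2,-2}` let `c' = -2/c` (again in the set).  Write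
`H + 3 hk_{c'} Q = (X - c')^p M` (`cusp`), `natDegree M ≤ 2p-1`, and apply `tw (3p-1)`:
`tw (3p-1) (hk_{c'} Q) = tw p (hk_{c'}) * tw (2p-1) Q`, `tw (2p-1) Q = X^p tw (p-1) Q = X^p Q` (`tw_mul`
with `Q = 1 * Q`, `tw p 1 = X^p`; `Q_tw`), `tw p ((X-c')^p) = (-2 - c' X)^p = (-c')^p (X - c)^p`.  So
modulo `(X-c)^p` (where `X^p = c`):
`tw (3p-1) H = -3 c Q (-2 q_2 - c' hk_c) = 6 c q_2 Q - 6 hk_c Q`, `H' = -6 hk_c Q = 2 H` (`cusp` for `c`).
(3) `H' - 2 H` has degree `≤ 3p-1` and is divisible by the four pairwise coprime `(X-c)^p`, hence by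
their product of degree `4p`: it is `0`.
(Checked numerically for `p ≤ 23`.)
-/

namespace SC15

open Polynomial

theorem hk_tw {p : ℕ} [Fact p.Prime] (h7 : 7 ≤ p) {c c' : ℤ} (h : c * c' = -2) :
    ∃ q : ZMod p, tw p (hk p c') = -(2 * C (fq p 2)) - C (c' : ZMod p) * hk p c +
      C q * (X - C (c : ZMod p)) ^ p := by
  have hp : p.Prime := Fact.out
  have hodd : Odd p := hp.odd_of_ne_two (by omega)
  obtain ⟨q', hq'⟩ : (p : ℤ) ∣ c' ^ p - c' := by
    have h1 : ((c' ^ p - c' : ℤ) : ZMod p) = 0 := by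
      push_cast
      rw [ZMod.pow_card, sub_self]
    exact (ZMod.intCast_zmod_eq_zero_iff_dvd _ p).1 h1
  have hcop : Nat.Coprime 2 p := by
    rw [Nat.coprime_primes Nat.prime_two hp]
    omega
  have h2 := fq_spec (p := p) hcop
  obtain ⟨q2, hq2⟩ : ∃ q : ℕ, q = (2 ^ (p - 1) - 1) / p := ⟨_, rfl⟩
  rw [← hq2] at h2
  have hfq : fq p 2 = (q2 : ZMod p) := by
    rw [hq2]
    rfl
  have h3 : (-2 : ℤ) ^ p = -2 - 2 * (p * q2) := by
    rw [hodd.neg_pow]
    have h4 : (2 : ℤ) ^ p = 2 ^ (p - 1) * 2 := by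
      rw [← pow_succ, Nat.sub_add_cancel (by omega)]
    have h5 : (2 : ℤ) ^ (p - 1) = 1 + p * q2 := by exact_mod_cast h2
    rw [h4, h5]
    ring
  have key : tw p (hh p c') = -(2 * C (q2 : ℤ)) - C c' * hh p c + C q' * (X - C c) ^ p := by
    have hp0 : (C (p : ℤ) : ℤ[X]) ≠ 0 := by
      rw [Ne, C_eq_zero]
      exact_mod_cast hp.ne_zero
    apply mul_left_cancel₀ hp0
    have e1 : C (p : ℤ) * tw p (hh p c') =
        C ((-2 : ℤ) ^ p) - C c' * X ^ p - (C (-2) - C c' * X) ^ p := by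
      rw [← tw_C_mul, hh_spec h7, tw_sub, tw_sub, tw_X_pow le_rfl, tw_C, tw_X_sub_pow,
        Nat.sub_self, pow_zero, mul_one]
    have e2 : (C (-2 : ℤ) - C c' * X) = C (-c') * (X - C c) := by
      rw [← h, map_mul, map_neg]
      ring
    have e3 : (C (-2 : ℤ) - C c' * X) ^ p = -(C (c' ^ p) * (X - C c) ^ p) := by
      rw [e2, mul_pow, ← map_pow, hodd.neg_pow, map_neg]
      ring
    have e4 := hh_spec h7 c
    have e5 : (C (c' ^ p) : ℤ[X]) = C c' + C (p : ℤ) * C q' := by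
      rw [← map_mul, ← map_add]
      congr 1
      linarith
    have e6 : (C ((-2 : ℤ) ^ p) : ℤ[X]) = C (-2) - 2 * (C (p : ℤ) * C (q2 : ℤ)) := by
      rw [h3, map_sub, map_mul, map_mul]
      rfl
    have e7 : (C (-2 : ℤ) : ℤ[X]) = C c * C c' := by rw [← map_mul, h]
    rw [e1, e3, e5, e6, e7]
    linear_combination (C c') * e4
  refine ⟨(q' : ZMod p), ?_⟩
  have h4 := congrArg (Polynomial.map (Int.castRingHom (ZMod p))) key
  rw [tw_map] at h4
  rw [hfq]
  unfold hk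
  rw [h4]
  simp only [Polynomial.map_add, Polynomial.map_sub, Polynomial.map_neg, Polynomial.map_mul,
    Polynomial.map_pow, Polynomial.map_C, Polynomial.map_X, Polynomial.map_ofNat]
  simp

private theorem uq_one {p : ℕ} [Fact p.Prime] (h7 : 7 ≤ p) {H : (ZMod p)[X]} (hH : IsH p H)
    {c c' : ℤ} (h : c * c' = -2) (hc : c = 1 ∨ c = -1 ∨ c = 2 ∨ c = -2)
    (hc' : c' = 1 ∨ c' = -1 ∨ c' = 2 ∨ c' = -2) :
    (X - C (c : ZMod p)) ^ p ∣ tw (3 * p - 1) H - 6 * C (fq p 2) * X ^ p * Q p - 2 * H := by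
  obtain ⟨M, hM⟩ := hH.cusp c' hc'
  obtain ⟨M2, hM2⟩ := hH.cusp c hc
  obtain ⟨q, hq⟩ := hk_tw h7 h
  have hQd := Q_natDegree (p := p) h7
  have hkd : (hk p c').natDegree < p := by
    unfold hk
    exact (natDegree_map_le).trans_lt (hh_natDegree h7 c')
  have hMd : M.natDegree ≤ 2 * p - 1 := by
    by_cases hM0 : M = 0
    · rw [hM0, natDegree_zero]
      exact Nat.zero_le _
    · have h1 : ((X - C (c' : ZMod p)) ^ p * M).natDegree = p + M.natDegree := by
        rw [natDegree_mul (pow_ne_zero _ (X_sub_C_ne_zero _)) hM0, natDegree_pow,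
          natDegree_X_sub_C, mul_one]
      have h2 : ((X - C (c' : ZMod p)) ^ p * M).natDegree ≤ 3 * p - 1 := by
        rw [← hM]
        refine (natDegree_add_le _ _).trans (max_le ?_ ?_)
        · have := hH.deg
          omega
        · refine (natDegree_mul_le).trans ?_
          have h3 : ((3 : (ZMod p)[X]) * hk p c').natDegree ≤ (hk p c').natDegree := by
            have e : (3 : (ZMod p)[X]) = C 3 := rfl
            rw [e]
            exact natDegree_C_mul_le _ _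
          omega
      omega
  have e3p : 3 * p - 1 = p + (2 * p - 1) := by omega
  have e2p : 2 * p - 1 = p + (p - 1) := by omega
  have tQ : tw (2 * p - 1) (Q p) = X ^ p * Q p := by
    have h1 : Q p = C 1 * Q p := by rw [map_one, one_mul]
    conv_lhs => rw [h1, e2p]
    rw [tw_mul (by rw [natDegree_C]; exact Nat.zero_le _) (by omega), tw_C, Q_tw h7, map_one,
      one_mul]
  have t1 : tw (3 * p - 1) (H + 3 * hk p c' * Q p) =
      tw (3 * p - 1) H + 3 * (tw p (hk p c') * (X ^ p * Q p)) := by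
    have e : (3 : (ZMod p)[X]) * hk p c' * Q p = C 3 * (hk p c' * Q p) := by
      rw [mul_assoc]
      rfl
    rw [tw_add, e, tw_C_mul]
    congr 1
    rw [e3p, tw_mul hkd.le (by omega), tQ]
    rfl
  have t2 : tw (3 * p - 1) ((X - C (c' : ZMod p)) ^ p * M) =
      (C (-2) - C (c' : ZMod p) * X) ^ p * tw (2 * p - 1) M := by
    rw [e3p, tw_mul (by rw [natDegree_pow, natDegree_X_sub_C, mul_one]) hMd, tw_X_sub_pow]
  have hcc : (C (c : ZMod p) : (ZMod p)[X]) * C (c' : ZMod p) = -2 := by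
    rw [← map_mul]
    have h1 : ((c : ZMod p) * (c' : ZMod p)) = -2 := by
      rw [← Int.cast_mul, h]
      push_cast
      rfl
    rw [h1, map_neg]
    rfl
  have t3 : (C (-2) - C (c' : ZMod p) * X) ^ p =
      C ((-(c' : ZMod p)) ^ p) * (X - C (c : ZMod p)) ^ p := by
    have h1 : (C (-2) - C (c' : ZMod p) * X) = C (-(c' : ZMod p)) * (X - C (c : ZMod p)) := by
      have h2 : (C (-2 : ZMod p) : (ZMod p)[X]) = -2 := by
        rw [map_neg]
        rfl
      rw [h2, ← hcc, map_neg]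
      ring
    rw [h1, mul_pow, ← map_pow]
  have t4 : (X : (ZMod p)[X]) ^ p = (X - C (c : ZMod p)) ^ p + C (c : ZMod p) := by
    rw [sub_pow_char, ← map_pow, ZMod.pow_card]
    ring
  rw [← hM, t1, t3] at t2
  rw [hq] at t2
  set Y := (X - C (c : ZMod p)) ^ p with hY
  rw [t4] at t2 ⊢
  refine ⟨C ((-(c' : ZMod p)) ^ p) * tw (2 * p - 1) M + 3 * C (c' : ZMod p) * hk p c * Q p -
    3 * C q * (Y + C (c : ZMod p)) * Q p - 2 * M2, ?_⟩
  linear_combination t2 - 2 * hM2 + 3 * hk p c * Q p * hcc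

private theorem uq_coprime {p : ℕ} [Fact p.Prime] (h7 : 7 ≤ p) {a b : ℤ}
    (h : (a - b).natAbs ∈ ({1, 2, 3, 4} : Finset ℕ)) :
    IsCoprime ((X - C (a : ZMod p)) ^ p) ((X - C (b : ZMod p)) ^ p) := by
  apply IsCoprime.pow
  apply isCoprime_X_sub_C_of_isUnit_sub
  rw [isUnit_iff_ne_zero, ← Int.cast_sub]
  intro h0
  have h1 := (ZMod.intCast_zmod_eq_zero_iff_dvd _ p).1 h0
  have h2 := Int.natCast_dvd.1 h1
  have h3 : (a - b).natAbs ≠ 0 ∧ (a - b).natAbs ≤ 4 := by
    revert h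
    generalize (a - b).natAbs = n
    intro h
    simp only [Finset.mem_insert, Finset.mem_singleton] at h
    omega
  have h4 := Nat.le_of_dvd (Nat.pos_of_ne_zero h3.1) h2
  omega

theorem H_tw {p : ℕ} [Fact p.Prime] (h7 : 7 ≤ p) {H : (ZMod p)[X]} (hH : IsH p H) :
    2 * H = tw (3 * p - 1) H - 6 * C (fq p 2) * X ^ p * Q p := by
  set D := tw (3 * p - 1) H - 6 * C (fq p 2) * X ^ p * Q p - 2 * H with hD
  have d1 := uq_one h7 hH (c := 1) (c' := -2) (by norm_num) (by simp) (by simp)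
  have d2 := uq_one h7 hH (c := -1) (c' := 2) (by norm_num) (by simp) (by simp)
  have d3 := uq_one h7 hH (c := 2) (c' := -1) (by norm_num) (by simp) (by simp)
  have d4 := uq_one h7 hH (c := -2) (c' := 1) (by norm_num) (by simp) (by simp)
  rw [← hD] at d1 d2 d3 d4
  have c12 := uq_coprime (p := p) h7 (a := 1) (b := -1) (by decide)
  have c13 := uq_coprime (p := p) h7 (a := 1) (b := 2) (by decide)
  have c14 := uq_coprime (p := p) h7 (a := 1) (b := -2) (by decide)
  have c23 := uq_coprime (p := p) h7 (a := -1) (b := 2) (by decide)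
  have c24 := uq_coprime (p := p) h7 (a := -1) (b := -2) (by decide)
  have c34 := uq_coprime (p := p) h7 (a := 2) (b := -2) (by decide)
  have e12 := c12.mul_dvd d1 d2
  have e123 := (IsCoprime.mul_left c13 c23).mul_dvd e12 d3
  have e1234 := (IsCoprime.mul_left (IsCoprime.mul_left c14 c24) c34).mul_dvd e123 d4
  have hQd := Q_natDegree (p := p) h7
  have hdeg : D.natDegree ≤ 3 * p - 1 := by
    rw [hD]
    refine (natDegree_sub_le _ _).trans (max_le ((natDegree_sub_le _ _).trans (max_le ?_ ?_)) ?_)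
    · exact natDegree_tw_le _ _
    · have e : (6 : (ZMod p)[X]) * C (fq p 2) * X ^ p * Q p = C (6 * fq p 2) * (X ^ p * Q p) := by
        rw [map_mul]
        have e6 : (C (6 : ZMod p) : (ZMod p)[X]) = 6 := rfl
        rw [e6]
        ring
      rw [e]
      refine (natDegree_C_mul_le _ _).trans ((natDegree_mul_le).trans ?_)
      rw [natDegree_X_pow]
      omega
    · have e : (2 : (ZMod p)[X]) * H = C 2 * H := rfl
      rw [e]
      refine (natDegree_C_mul_le _ _).trans ?_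
      have := hH.deg
      omega
  have hD0 : D = 0 := by
    by_contra hne
    have h1 := natDegree_le_of_dvd e1234 hne
    have hx : ∀ a : ZMod p, ((X - C a) ^ p : (ZMod p)[X]) ≠ 0 := fun a =>
      pow_ne_zero _ (X_sub_C_ne_zero a)
    have hn : ∀ a : ZMod p, ((X - C a) ^ p : (ZMod p)[X]).natDegree = p := fun a => by
      rw [natDegree_pow, natDegree_X_sub_C, mul_one]
    rw [natDegree_mul (mul_ne_zero (mul_ne_zero (hx _) (hx _)) (hx _)) (hx _),
      natDegree_mul (mul_ne_zero (hx _) (hx _)) (hx _), natDegree_mul (hx _) (hx _), hn, hn, hn,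
      hn] at h1
    omega
  linear_combination (-1 : (ZMod p)[X]) * (hD.symm.trans hD0)

end SC15
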