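import Pool.Agent.SC15.A.Uniq

/-!
# SC15-A-Wd: the Frobenius quotient `d b = (σ b - b^p)/p` and the quantities `Y`, `D3`

Conventions: `τ = π t`, `δ = π (d t)`, `B(t) = t^3 - 3 t + 2 = (t-1)^2 (t+2)`, `Q(τ) = aeval τ (Q p)`,
`κ(τ) = aeval τ (kapZ p) = aeval τ (kap p)`.
PLAN.
`R_eq`: `algebraMap (ZMod p) k (r p j) = ((r p j).val : k)` (`ZMod.natCast_zmod_val`).
`aeval_Q`: `map_P`-like (aeval of the finite sum), `aeval τ (btP p) = bt τ`.
`Y_eq`: by `d_spec`, `108 p d(b) = B(σ t) - 108 b^p`, `σ t = t^p + p d(t)`; multiply by `108^(p-1)`: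
`108^(p-1) * 108 * p * d(b) = 108^(p-1) B(t^p) - B(t)^p + 108^(p-1) p d(t) 3 (t^(2p) - 1)` modulo `p^2`
(`B(x + p y) = B(x) + 3 p y (x^2 - 1) + p^2 (...)`), and by `kap_dvd` the difference of the first two terms
is `p κ(t)` modulo `p^2`.  Cancel `p` (`pi_eq_zero_of_dvd`), use `108^(p-1) = 1` in `k`:
`108 π(d b) = κ(τ) + 3 δ (τ^2 - 1)^p`.  With `108 (π b)^p = (108 π b)^p = B(τ)^p`:
`108 Y(b) = 3 B(τ)^p R(β) - κ(τ) Q(τ) - 3 δ (τ^2-1)^p Q(τ) = aeval τ (G p) - 3 δ (τ^2-1)^p Q(τ)` and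
`aeval τ (G p) = (τ^2-1)^p H(τ)` (`IsH.eq`).
`D3_neg`: `d(-t) = - d t` (`(-t)^p = - t^p`, cancel `p`), `hH.odd`, `Q_refl`.
`D3_inv`: from `σ t * σ t' = -2`, `t^p t'^p = (-2)^p = -2 (1 + p q)`, `q = (2^(p-1)-1)/p` (`fq_spec`),
cancelling `p`: `d t * t'^p + d t' * t^p + p * d t * d t' = 2 q`, so `δ τ'^p + δ' τ^p = 2 q_2` in `k`, and
times `τ^p`: `δ' τ^(2p) = 2 q_2 τ^p + 2 δ` (`(τ τ')^p = (-2)^p = -2`).
`τ' = -2/τ`, `aeval_tw`, `Q_tw`: `τ^(p-1) Q(τ') = Q(τ)`; `H_tw`: `τ^(3p-1) H(τ') = 2 H(τ) + 6 q_2 τ^p Q(τ)`.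
So `τ^(3p-1) D3(t') = 2 H(τ) + 6 q_2 τ^p Q(τ) - 3 δ' τ^(2p) Q(τ) = 2 H(τ) - 6 δ Q(τ) = 2 D3(t)`.
(Checked numerically.)
-/

namespace SC15

open Polynomial Finset

section basic

variable {p : ℕ} {W k : Type*} [CommRing W] [Field k]

theorem Lift.exists_d (L : Lift p W k) (b : W) : ∃ d : W, L.σ b = b ^ p + p * d := by
  have h : L.π (L.σ b - b ^ p) = 0 := by rw [map_sub, map_pow, L.frob, sub_self]
  obtain ⟨d, hd⟩ := (L.ker _).1 h
  exact ⟨d, by rw [← hd]; ring⟩

/-- The Frobenius quotient: `σ b = b^p + p d(b)`. -/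
noncomputable def Lift.d (L : Lift p W k) (b : W) : W := (L.exists_d b).choose

theorem Lift.d_spec (L : Lift p W k) (b : W) : L.σ b = b ^ p + p * L.d b :=
  (L.exists_d b).choose_spec

theorem Lift.pi_p (L : Lift p W k) : L.π (p : W) = 0 := (L.ker _).2 dvd_rfl

theorem Lift.natCast_p (L : Lift p W k) : (p : k) = 0 := by
  have := L.pi_p
  simpa using this

theorem Lift.cancel (L : Lift p W k) {x y : W} (h : (p : W) * x = p * y) : x = y := by
  have := L.tf (x - y) (by rw [mul_sub, h, sub_self])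
  exact sub_eq_zero.1 this

theorem Lift.pi_eq_zero_of_dvd (L : Lift p W k) {x : W} (h : (p : W) ^ 2 ∣ p * x) :
    L.π x = 0 := by
  obtain ⟨y, hy⟩ := h
  have h1 : x = p * y := L.cancel (by rw [hy]; ring)
  exact (L.ker x).2 ⟨y, h1⟩

theorem Lift.charP [Fact p.Prime] (L : Lift p W k) : CharP k p :=
  (CharP.charP_iff_prime_eq_zero (Fact.out)).2 L.natCast_p

end basic

section

variable {p : ℕ} [Fact p.Prime] {W k : Type*} [CommRing W] [Field k] [Algebra (ZMod p) k]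

theorem R_eq (x : k) : R p x = Rt p x := by
  rw [R, Rt]
  refine sum_congr rfl (fun j _ => ?_)
  congr 1
  rw [rt, ← map_natCast (algebraMap (ZMod p) k) (r p j).val, ZMod.natCast_zmod_val]

private lemma aeval_P (x : k) (f : (ZMod p)[X]) : aeval x (P p f) = P p (aeval x f) :=
  map_P (aeval x : (ZMod p)[X] →ₐ[ZMod p] k).toRingHom p f

private lemma aeval_Rt (x : k) (f : (ZMod p)[X]) : aeval x (Rt p f) = Rt p (aeval x f) :=
  map_Rt (aeval x : (ZMod p)[X] →ₐ[ZMod p] k).toRingHom p f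

private lemma aeval_btP (x : k) : aeval x (btP p) = bt x := by
  rw [btP, bt, map_mul, aeval_C, map_inv₀, map_ofNat]
  simp only [map_add, map_sub, map_mul, map_pow, aeval_X, map_ofNat]
  ring

theorem aeval_Q (x : k) : aeval x (Q p) = P p (bt x) := by
  rw [Q, aeval_P, aeval_btP]

private lemma aeval_kap (x : k) : aeval x (kap p) = aeval x (kapZ p) := by
  rw [kap, aeval_def, eval₂_map, aeval_def]
  congr 1
  exact RingHom.ext_int _ _

/-- `Y(b) = 3 b^p R(b) - d(b) P(b)`. -/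
noncomputable def Y (L : Lift p W k) (b : W) : k :=
  3 * L.π b ^ p * R p (L.π b) - L.π (L.d b) * P p (L.π b)

/-- `D3(t) = H(t) - 3 d(t) Q(t)`. -/
noncomputable def D3 (L : Lift p W k) (H : (ZMod p)[X]) (t : W) : k :=
  aeval (L.π t) H - 3 * L.π (L.d t) * P p (bt (L.π t))

private lemma charP_k (k : Type*) [Field k] (p : ℕ) [Fact p.Prime] [Algebra (ZMod p) k] :
    CharP k p := charP_of_injective_algebraMap (algebraMap (ZMod p) k).injective p

private lemma natCast_ne {m : ℕ} (hm : ¬ p ∣ m) : (m : k) ≠ 0 := by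
  have := charP_k k p
  exact fun h => hm ((CharP.cast_eq_zero_iff k p m).1 h)

private lemma nd108 (h7 : 7 ≤ p) : ¬ p ∣ 108 := by
  intro h
  have hp : p.Prime := Fact.out
  have h1 : p ∣ 2 ^ 2 * 3 ^ 3 := by simpa using h
  rcases (Nat.Prime.dvd_mul hp).1 h1 with h2 | h2
  · have := Nat.le_of_dvd (by norm_num) (hp.dvd_of_dvd_pow h2)
    omega
  · have := Nat.le_of_dvd (by norm_num) (hp.dvd_of_dvd_pow h2)
    omega

private lemma ne108 (h7 : 7 ≤ p) : (108 : k) ≠ 0 := by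
  have := natCast_ne (k := k) (nd108 h7)
  simpa using this

private lemma int_pow (n : ℤ) : ((n : k)) ^ p = n := by
  have h := congrArg (algebraMap (ZMod p) k) (ZMod.pow_card (n : ZMod p))
  rwa [map_pow, map_intCast] at h

private lemma pow108 (h7 : 7 ≤ p) : (108 : k) ^ (p - 1) = 1 := by
  have h4 := int_pow (p := p) (k := k) 108
  rw [Int.cast_ofNat] at h4
  have h5 : (108 : k) ^ (p - 1) * 108 = 1 * 108 := by
    rw [← pow_succ, Nat.sub_add_cancel (by omega), h4, one_mul]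
  exact mul_right_cancel₀ (ne108 h7) h5

private lemma d108 (h7 : 7 ≤ p) (L : Lift p W k) {b t : W}
    (h : 108 * b = t ^ 3 - 3 * t + 2) :
    108 * L.π (L.d b) = aeval (L.π t) (kapZ p) + 3 * L.π (L.d t) * (L.π t ^ 2 - 1) ^ p := by
  have hc := charP_k k p
  obtain ⟨z, hz⟩ := kap_dvd h7 t
  have h1 := congrArg L.σ h
  rw [map_mul, map_ofNat, map_add, map_sub, map_mul, map_pow, map_ofNat, map_ofNat,
    L.d_spec b, L.d_spec t] at h1
  have h2 : ((t - 1) ^ 2 * (t + 2)) ^ p = 108 ^ (p - 1) * 108 * b ^ p := by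
    rw [← pow_succ, Nat.sub_add_cancel (by omega), ← mul_pow, h]
    congr 1
    ring
  have h3 : L.π (108 ^ (p - 1) * 108 * L.d b - aeval t (kapZ p) -
      108 ^ (p - 1) * (3 * L.d t * ((t ^ p) ^ 2 - 1))) = 0 := by
    refine L.pi_eq_zero_of_dvd ⟨z + 108 ^ (p - 1) * (3 * t ^ p * L.d t ^ 2 + p * L.d t ^ 3), ?_⟩
    rw [h2] at hz
    linear_combination hz + 108 ^ (p - 1) * h1
  have h4 : L.π (aeval t (kapZ p)) = aeval (L.π t) (kapZ p) :=
    (aeval_algHom_apply L.π.toIntAlgHom t (kapZ p)).symm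
  have h5 : (L.π t ^ 2 - 1) ^ p = (L.π t ^ p) ^ 2 - 1 := by
    rw [sub_pow_char, one_pow, ← pow_mul, ← pow_mul, mul_comm]
  simp only [map_sub, map_mul, map_pow, map_ofNat, map_one, h4, pow108 h7] at h3
  rw [h5]
  linear_combination h3

private lemma pi_bt (h7 : 7 ≤ p) (L : Lift p W k) {b t : W} (h : 108 * b = t ^ 3 - 3 * t + 2) :
    L.π b = bt (L.π t) := by
  have := congrArg L.π h
  rw [map_mul, map_ofNat, map_add, map_sub, map_mul, map_pow, map_ofNat, map_ofNat] at this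
  rw [bt, eq_div_iff (ne108 (p := p) h7), ← this]
  ring

theorem Y_eq (h7 : 7 ≤ p) (L : Lift p W k) {H : (ZMod p)[X]} (hH : IsH p H) {b t : W}
    (h : 108 * b = t ^ 3 - 3 * t + 2) :
    108 * Y L b = (L.π t ^ 2 - 1) ^ p * D3 L H t := by
  have h2 := congrArg (aeval (L.π t)) hH.eq
  rw [map_mul, map_pow, map_sub, map_pow, aeval_X, map_one, G, map_sub] at h2
  simp only [map_mul, map_pow, map_sub, map_add, aeval_X, map_one, map_ofNat, aeval_kap, aeval_Q,
    aeval_Rt, aeval_btP] at h2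
  have h3 : (108 : k) * bt (L.π t) ^ p = (L.π t - 1) ^ (2 * p) * (L.π t + 2) ^ p := by
    have h4 := int_pow (p := p) (k := k) 108
    rw [Int.cast_ofNat] at h4
    have h5 : (108 : k) * bt (L.π t) = (L.π t - 1) ^ 2 * (L.π t + 2) := by
      rw [bt, mul_div_cancel₀ _ (ne108 (p := p) h7)]
      ring
    rw [pow_mul, ← mul_pow, ← h5, mul_pow, h4]
  rw [Y, D3, pi_bt h7 L h, R_eq, mul_sub, mul_sub, h2, ← h3]
  linear_combination (-(P p (bt (L.π t)))) * d108 h7 L h

theorem P_neg (h7 : 7 ≤ p) (x : k) : P p (bt (-x)) = (eps p : k) * P p (bt x) := by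
  have h := congrArg (aeval x) (Q_refl (p := p) h7)
  rw [aeval_comp, map_neg, aeval_X, aeval_Q, map_mul, aeval_Q, map_intCast] at h
  exact h

theorem D3_neg (h7 : 7 ≤ p) (L : Lift p W k) {H : (ZMod p)[X]} (hH : IsH p H) (t : W) :
    D3 L H (-t) = -((eps p : k) * D3 L H t) := by
  have hodd : Odd p := (Fact.out : p.Prime).odd_of_ne_two (by omega)
  have h1 : L.d (-t) = -L.d t := by
    refine L.cancel ?_
    have h2 := L.d_spec (-t)
    rw [map_neg, L.d_spec t, hodd.neg_pow] at h2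
    linear_combination -h2
  have h := congrArg (aeval (L.π t)) hH.odd
  rw [aeval_comp, map_neg, aeval_X, map_neg, map_mul, map_intCast] at h
  rw [D3, D3, h1, map_neg, map_neg, h, P_neg h7]
  ring

private lemma q2_spec (h7 : 7 ≤ p) (A : Type*) [CommRing A] :
    (2 : A) ^ p = 2 * (1 + p * (((2 ^ (p - 1) - 1) / p : ℕ) : A)) := by
  have h1 : Nat.Coprime 2 p := by
    rw [Nat.coprime_primes Nat.prime_two Fact.out]
    omega
  have h2 := congrArg (Nat.cast : ℕ → A) (fq_spec (p := p) h1)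
  push_cast at h2
  rw [← h2, ← pow_succ', Nat.sub_add_cancel (by omega)]

private lemma d_inv (h7 : 7 ≤ p) (L : Lift p W k) {t t' : W} (h : t * t' = -2) :
    L.π (L.d t) * L.π t' ^ p + L.π (L.d t') * L.π t ^ p =
      2 * algebraMap (ZMod p) k (fq p 2) := by
  have hodd : Odd p := (Fact.out : p.Prime).odd_of_ne_two (by omega)
  have h1 := congrArg L.σ h
  rw [map_mul, L.d_spec t, L.d_spec t', map_neg, map_ofNat] at h1
  have h2 : t ^ p * t' ^ p = -(2 * (1 + p * (((2 ^ (p - 1) - 1) / p : ℕ) : W))) := by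
    rw [← mul_pow, h, hodd.neg_pow, q2_spec h7]
  have h3 : L.d t * t' ^ p + L.d t' * t ^ p + p * (L.d t * L.d t') =
      2 * (((2 ^ (p - 1) - 1) / p : ℕ) : W) := by
    refine L.cancel ?_
    linear_combination h1 - h2
  have h4 := congrArg L.π h3
  rw [map_add, map_add, map_mul, map_mul, map_mul, map_mul, map_pow, map_pow, L.pi_p, zero_mul,
    add_zero, map_mul, map_ofNat, map_natCast] at h4
  rw [h4, fq, map_natCast]

theorem P_inv (h7 : 7 ≤ p) {x y : k} (h : x * y = -2) :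
    P p (bt x) = x ^ (p - 1) * P p (bt y) := by
  have hx : x ≠ 0 := by
    intro hx
    rw [hx, zero_mul] at h
    have h2 : ((2 : ℕ) : k) = 0 := by push_cast; linear_combination h
    refine natCast_ne (k := k) (p := p) (m := 2) (fun h => ?_) h2
    have := Nat.le_of_dvd (by norm_num) h
    omega
  have hy : y = -2 / x := by rw [eq_div_iff hx, ← h, mul_comm]
  have h1 := aeval_tw (k := k) (F := ZMod p) (m := p - 1) (f := Q p)
    (by have := Q_natDegree (p := p) h7; omega) hx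
  rw [Q_tw h7, aeval_Q, aeval_Q, ← hy] at h1
  exact h1

theorem D3_inv (h7 : 7 ≤ p) (L : Lift p W k) {H : (ZMod p)[X]} (hH : IsH p H) {t t' : W}
    (h : t * t' = -2) :
    L.π t ^ (3 * p - 1) * D3 L H t' = 2 * D3 L H t := by
  have hodd : Odd p := (Fact.out : p.Prime).odd_of_ne_two (by omega)
  have hk : L.π t * L.π t' = -2 := by rw [← map_mul, h, map_neg, map_ofNat]
  have hx : L.π t ≠ 0 := by
    intro hx
    rw [hx, zero_mul] at hk
    have h2 : ((2 : ℕ) : k) = 0 := by push_cast; linear_combination hk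
    refine natCast_ne (k := k) (p := p) (m := 2) (fun h => ?_) h2
    have := Nat.le_of_dvd (by norm_num) h
    omega
  have hy : L.π t' = -2 / L.π t := by rw [eq_div_iff hx, ← hk, mul_comm]
  have h1 := aeval_tw (k := k) (F := ZMod p) (m := 3 * p - 1) (f := H)
    (by have := hH.deg; omega) hx
  rw [← hy] at h1
  have h2 := congrArg (aeval (L.π t)) (H_tw h7 hH)
  simp only [map_mul, map_pow, map_sub, map_ofNat, aeval_C, aeval_X, aeval_Q, h1] at h2
  have h3 := P_inv (p := p) h7 hk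
  have h4 := d_inv h7 L h
  have h5 : L.π t ^ p * L.π t' ^ p = -2 := by
    rw [← mul_pow, hk, hodd.neg_pow]
    have := int_pow (p := p) (k := k) 2
    rw [Int.cast_ofNat] at this
    rw [this]
  have h6 : L.π t ^ (3 * p - 1) = L.π t ^ (p - 1) * (L.π t ^ p * L.π t ^ p) := by
    rw [← pow_add, ← pow_add]
    congr 1
    omega
  rw [D3, D3, mul_sub, mul_sub, ← sub_eq_zero]
  have h7' : L.π t ^ (3 * p - 1) * (3 * L.π (L.d t') * P p (bt (L.π t'))) =
      3 * L.π (L.d t') * (L.π t ^ p * L.π t ^ p) * P p (bt (L.π t)) := by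
    rw [h3, h6]
    ring
  rw [h7']
  linear_combination -h2 - 3 * L.π t ^ p * P p (bt (L.π t)) * h4 +
    3 * L.π (L.d t) * P p (bt (L.π t)) * h5

end

end SC15
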